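import Pool.Agent.Lib.MP_7b7e48_nt.SP.Pair
import Pool.Agent.Lib.MP_7b7e48_nt.GT.RobustConst

/-! # Sums of two sets of primes: the lower bound -/

set_option autoImplicit false

namespace Pool.Agent.Lib.MP_7b7e48_nt.SP

open Finset Pool.Agent.Lib.GT Pool.Agent.Lib.GT.LA Pool.Agent.Lib.GT.Robust

theorem rate_continuous (q : ℕ) (hq : 3 ≤ q) : Continuous (rate q) := by
  unfold rate
  obtain ⟨h1, h2, h3⟩ := log_facts hq
  have h4 : 0 ≤ Real.log q / Real.log ((q : ℝ) - 1) := div_nonneg (h1.trans h2).le h1.le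
  exact continuous_const.mul ((continuous_const.mul continuous_id).rpow_const fun _ => Or.inr h4)

/-- choice of the small parameter -/
theorem choose_delta {q₁ q₂ : ℕ} (h₁ : 3 ≤ q₁) (h₂ : 3 ≤ q₂) {α β ε : ℝ} (hα : 0 ≤ α)
    (hβ : 0 ≤ β) (hε : 0 < ε) : ∃ δ : ℝ, 0 < δ ∧ δ ≤ 1 ∧
      Real.sqrt (rate q₁ α * rate q₂ β) - ε ≤
        Real.sqrt (rate q₁ (max 0 (α - δ) / (1 + δ)) * rate q₂ (max 0 (β - δ) / (1 + δ))) := by
  set f : ℝ → ℝ := fun δ =>
    Real.sqrt (rate q₁ (max 0 (α - δ) / (1 + δ)) * rate q₂ (max 0 (β - δ) / (1 + δ))) with hf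
  have hc : ContinuousAt f 0 := by
    have e1 : ∀ γ : ℝ, ContinuousAt (fun δ : ℝ => max 0 (γ - δ) / (1 + δ)) 0 := by
      intro γ
      refine ContinuousAt.div ?_ ?_ (by norm_num)
      · exact (continuous_const.max (continuous_const.sub continuous_id)).continuousAt
      · exact (continuous_const.add continuous_id).continuousAt
    refine Real.continuous_sqrt.continuousAt.comp ?_
    exact (ContinuousAt.comp (f := fun δ : ℝ => max 0 (α - δ) / (1 + δ)) (g := rate q₁)
      (rate_continuous q₁ h₁).continuousAt (e1 α)).mul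
      (ContinuousAt.comp (f := fun δ : ℝ => max 0 (β - δ) / (1 + δ)) (g := rate q₂)
      (rate_continuous q₂ h₂).continuousAt (e1 β))
  have hf0 : f 0 = Real.sqrt (rate q₁ α * rate q₂ β) := by
    rw [hf]
    simp [max_eq_right hα, max_eq_right hβ]
  have hev : ∀ᶠ δ in nhds (0 : ℝ), f 0 - ε < f δ :=
    hc.eventually_const_lt (by linarith)
  rw [Metric.eventually_nhds_iff] at hev
  obtain ⟨ρ, hρ, h⟩ := hev
  refine ⟨min (ρ / 2) 1, by positivity, min_le_right _ _, ?_⟩
  have h3 := h (y := min (ρ / 2) 1) (by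
    rw [Real.dist_eq, sub_zero, abs_of_pos (by positivity)]
    have := min_le_left (ρ / 2) 1
    linarith)
  rw [hf0] at h3
  exact h3.le

/-- the weight of a set of primes -/
noncomputable def wt (A : Finset ℕ) (n : ℕ) : ℝ := if n ∈ A then lam n else 0

theorem wt_nonneg (A : Finset ℕ) (n : ℕ) : 0 ≤ wt A n := by
  unfold wt
  split_ifs
  · exact lam_nonneg n
  · exact le_rfl

theorem wt_le (A : Finset ℕ) (n : ℕ) : wt A n ≤ lam n := by
  unfold wt
  split_ifs
  · exact le_rfl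
  · exact lam_nonneg n

/-- the logarithmic mass of a set of primes -/
theorem mass_lower {α δ : ℝ} (hα : 0 ≤ α) (hδ : 0 < δ) : ∃ X₀ : ℕ, ∀ X : ℕ, X₀ ≤ X →
    ∀ A : Finset ℕ, (∀ p ∈ A, p.Prime ∧ p ≤ X) → α * (Nat.primeCounting X : ℝ) ≤ A.card →
    (α - δ) * X ≤ ∑ p ∈ A, Real.log p := by
  set κ : ℝ := min (1 / 2) (δ / 4) with hκ
  have hκ0 : 0 < κ := by positivity
  have hκ1 : κ < 1 := lt_of_le_of_lt (min_le_left _ _) (by norm_num)
  have hκδ : κ ≤ δ / 4 := min_le_right _ _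
  obtain ⟨X₁, hX₁⟩ := rpow_log_small hκ0 (show 0 < δ / 2 by positivity)
  obtain ⟨X₂, hX₂⟩ := pi_lower' hκ0
  refine ⟨max (max X₁ X₂) 2, fun X hX A hA hcard => ?_⟩
  have hXa := hX₁ X ((le_max_left _ _).trans ((le_max_left _ _).trans hX))
  have hXb := hX₂ X ((le_max_right _ _).trans ((le_max_left _ _).trans hX))
  have hX2 : 2 ≤ X := (le_max_right _ _).trans hX
  have hXR : (2 : ℝ) ≤ X := by exact_mod_cast hX2
  have hlog : 0 < Real.log X := Real.log_pos (by linarith)
  -- `α ≤ 1`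
  have hpi : 0 < (Nat.primeCounting X : ℝ) := by
    have : 0 < (Nat.primeCounting X : ℝ) * Real.log X :=
      lt_of_lt_of_le (mul_pos (by linarith) (by linarith)) hXb
    exact pos_of_mul_pos_left this hlog.le
  have hAle : (A.card : ℝ) ≤ Nat.primeCounting X := by
    rw [primeCounting_eq_card]
    exact_mod_cast Finset.card_le_card fun p hp => by
      rw [Finset.mem_filter, Finset.mem_Icc]
      exact ⟨⟨(hA p hp).1.one_le, (hA p hp).2⟩, (hA p hp).1⟩
  have hα1 : α ≤ 1 := by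
    by_contra! hc
    have : 1 * (Nat.primeCounting X : ℝ) < α * Nat.primeCounting X :=
      mul_lt_mul_of_pos_right hc hpi
    linarith
  have h1 := card_mul_log_le hκ0 hκ1 (by omega : 1 ≤ X) A hA
  have h2 : (1 - κ) * (α * ((1 - κ) * X)) ≤ (1 - κ) * (A.card : ℝ) * Real.log X := by
    have h3 : α * ((1 - κ) * X) ≤ A.card * Real.log X := by
      calc α * ((1 - κ) * X) ≤ α * (Nat.primeCounting X * Real.log X) :=
            mul_le_mul_of_nonneg_left hXb hα
        _ = (α * Nat.primeCounting X) * Real.log X := by ring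
        _ ≤ _ := mul_le_mul_of_nonneg_right hcard hlog.le
    calc (1 - κ) * (α * ((1 - κ) * X)) ≤ (1 - κ) * (A.card * Real.log X) :=
          mul_le_mul_of_nonneg_left h3 (by linarith)
      _ = _ := by ring
  have h4 : (α - 2 * κ) * X ≤ (1 - κ) * (α * ((1 - κ) * X)) := by
    have h5 : α - 2 * κ ≤ (1 - κ) * (α * (1 - κ)) := by
      nlinarith [mul_nonneg hα (sq_nonneg κ), mul_le_mul_of_nonneg_right hα1 hκ0.le]
    calc (α - 2 * κ) * X ≤ ((1 - κ) * (α * (1 - κ))) * X :=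
          mul_le_mul_of_nonneg_right h5 (by linarith)
      _ = _ := by ring
  have h6 : (α - δ) * X ≤ (α - 2 * κ) * X - δ / 2 * X := by
    have : 2 * κ ≤ δ / 2 := by linarith
    nlinarith
  linarith

/-- sum of the class masses -/
theorem sum_classes {K X : ℕ} (A : Finset ℕ) (hA : ∀ p ∈ A, p.Prime ∧ p ≤ X) :
    ∑ p ∈ A, Real.log p - ∑ p ∈ pr K, Real.log p ≤ ∑ u ∈ un K, ms (wt A) (Wp K) u 0 X := by
  classical
  have h1 : ∑ u ∈ un K, ms (wt A) (Wp K) u 0 X =
      ∑ x ∈ (Finset.Ioc 0 X).filter (fun x => x % Wp K ∈ un K), wt A x := by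
    unfold ms
    have h2 := Finset.sum_fiberwise_of_maps_to
      (s := (Finset.Ioc 0 X).filter (fun x => x % Wp K ∈ un K)) (t := un K)
      (g := fun x => x % Wp K) (fun x hx => (Finset.mem_filter.1 hx).2) (wt A)
    rw [← h2]
    refine Finset.sum_congr rfl fun u hu => ?_
    refine Finset.sum_congr ?_ fun _ _ => rfl
    ext x
    simp only [Finset.mem_filter]
    constructor
    · rintro ⟨h3, h4⟩
      exact ⟨⟨h3, h4 ▸ hu⟩, h4⟩
    · rintro ⟨⟨h3, _⟩, h4⟩
      exact ⟨h3, h4⟩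
  rw [h1]
  have h2 : ∑ p ∈ A, Real.log p ≤ ∑ p ∈ A.filter (fun p => p ∉ pr K), Real.log p +
      ∑ p ∈ pr K, Real.log p := by
    rw [← Finset.sum_filter_add_sum_filter_not A (fun p => p ∉ pr K)]
    refine add_le_add le_rfl ?_
    refine Finset.sum_le_sum_of_subset_of_nonneg ?_ fun p _ _ => Real.log_natCast_nonneg p
    intro p hp
    rw [Finset.mem_filter, not_not] at hp
    exact hp.2
  have h3 : ∑ p ∈ A.filter (fun p => p ∉ pr K), Real.log p ≤
      ∑ x ∈ (Finset.Ioc 0 X).filter (fun x => x % Wp K ∈ un K), wt A x := by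
    have h4 : ∑ p ∈ A.filter (fun p => p ∉ pr K), Real.log p =
        ∑ p ∈ A.filter (fun p => p ∉ pr K), wt A p := by
      refine Finset.sum_congr rfl fun p hp => ?_
      rw [Finset.mem_filter] at hp
      unfold wt lam
      rw [if_pos hp.1, if_pos (hA p hp.1).1]
    rw [h4]
    refine Finset.sum_le_sum_of_subset_of_nonneg ?_ fun p _ _ => wt_nonneg A p
    intro p hp
    rw [Finset.mem_filter] at hp
    rw [Finset.mem_filter, Finset.mem_Ioc, mem_un]
    refine ⟨⟨(hA p hp.1).1.pos, (hA p hp.1).2⟩, Nat.mod_lt _ (Wp_pos K), fun r hr hr' => ?_⟩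
    rw [Nat.mod_mod_of_dvd _ (dvd_Wp hr)] at hr'
    have h5 := (Nat.prime_dvd_prime_iff_eq (mem_pr.1 hr).2 (hA p hp.1).1).1
      (Nat.dvd_of_mod_eq_zero hr')
    exact hp.2 (h5 ▸ hr)
  linarith

/-- from the convolution to the number of representations -/
theorem cv_le_card {X : ℕ} (hX : 1 ≤ X) (A B : Finset ℕ) (hA : ∀ p ∈ A, p.Prime ∧ p ≤ X)
    (hB : ∀ p ∈ B, p.Prime ∧ p ≤ X) (N : ℕ) :
    cv (wt A) (wt B) N ≤ Real.log X ^ 2 *
      ((((A ×ˢ B).filter (fun x => x.1 ≠ x.2 ∧ x.1 + x.2 = N)).card : ℝ) + 1) := by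
  classical
  have hXR : (1 : ℝ) ≤ X := by exact_mod_cast hX
  have hlog : 0 ≤ Real.log X := Real.log_nonneg hXR
  have hw : ∀ (C : Finset ℕ), (∀ p ∈ C, p.Prime ∧ p ≤ X) → ∀ n, wt C n ≤ if n ∈ C then Real.log X else 0 := by
    intro C hC n
    unfold wt
    split_ifs with h
    · refine (lam_le_log n).trans (Real.log_le_log ?_ (by exact_mod_cast (hC n h).2))
      exact_mod_cast (hC n h).1.pos
    · exact le_rfl
  set T := (Finset.HasAntidiagonal.antidiagonal N).filter (fun p => p.1 ∈ A ∧ p.2 ∈ B) with hT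
  have h1 : cv (wt A) (wt B) N ≤ T.card * Real.log X ^ 2 := by
    rw [cv_eq_antidiagonal, ← nsmul_eq_mul, ← Finset.sum_const, hT, Finset.sum_filter]
    refine Finset.sum_le_sum fun p _ => ?_
    have ha := hw A hA p.1
    have hb := hw B hB p.2
    have ha0 := wt_nonneg A p.1
    have hb0 := wt_nonneg B p.2
    by_cases hpA : p.1 ∈ A
    · by_cases hpB : p.2 ∈ B
      · rw [if_pos ⟨hpA, hpB⟩]
        rw [if_pos hpA] at ha
        rw [if_pos hpB] at hb
        calc wt A p.1 * wt B p.2 ≤ Real.log X * Real.log X := mul_le_mul ha hb hb0 hlog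
          _ = _ := by ring
      · rw [if_neg (fun h => hpB h.2)]
        rw [if_neg hpB] at hb
        have : wt B p.2 = 0 := le_antisymm hb hb0
        rw [this, mul_zero]
    · rw [if_neg (fun h => hpA h.1)]
      rw [if_neg hpA] at ha
      have : wt A p.1 = 0 := le_antisymm ha ha0
      rw [this, zero_mul]
  have h2 : T.card ≤ ((A ×ˢ B).filter (fun x => x.1 ≠ x.2 ∧ x.1 + x.2 = N)).card + 1 := by
    have h3 : T ⊆ insert (N / 2, N / 2)
        ((A ×ˢ B).filter (fun x => x.1 ≠ x.2 ∧ x.1 + x.2 = N)) := by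
      intro p hp
      rw [hT, Finset.mem_filter, Finset.HasAntidiagonal.mem_antidiagonal] at hp
      rw [Finset.mem_insert, Finset.mem_filter, Finset.mem_product]
      by_cases h : p.1 = p.2
      · left
        ext
        · simp only
          omega
        · simp only
          omega
      · exact Or.inr ⟨hp.2, h, hp.1⟩
    exact (Finset.card_le_card h3).trans (Finset.card_insert_le _ _)
  have h2R : (T.card : ℝ) ≤
      (((A ×ˢ B).filter (fun x => x.1 ≠ x.2 ∧ x.1 + x.2 = N)).card : ℝ) + 1 := by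
    exact_mod_cast h2
  calc cv (wt A) (wt B) N ≤ T.card * Real.log X ^ 2 := h1
    _ ≤ _ := by
        rw [mul_comm]
        exact mul_le_mul_of_nonneg_left h2R (sq_nonneg _)

theorem card_even {K : ℕ} (hK : 2 ≤ K) :
    (((range (Wp K)).filter (fun c => c % 2 = 0)).card : ℝ) = (Wp K : ℝ) / 2 := by
  have h2 : 2 ∣ Wp K := dvd_Wp (mem_pr.2 ⟨hK, Nat.prime_two⟩)
  obtain ⟨m, hm⟩ := h2
  rw [hm]
  have : ((range (2 * m)).filter (fun c => c % 2 = 0)).card = m := by
    clear hm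
    induction m with
    | zero => simp
    | succ m ih =>
      rw [show 2 * (m + 1) = 2 * m + 1 + 1 by ring, Finset.range_add_one, Finset.range_add_one,
        Finset.filter_insert, Finset.filter_insert, if_neg (by omega), if_pos (by omega),
        Finset.card_insert_of_notMem (by simp), ih]
  rw [this]
  push_cast
  ring

/-- **Lower bound for the number of even numbers that are sums of two sets of primes.** -/
theorem main_lower {q₁ q₂ : ℕ} (hq₁ : q₁.Prime) (h₁ : q₁ ≠ 2) (hq₂ : q₂.Prime) (h₂ : q₂ ≠ 2)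
    {α β : ℝ} (hα : 0 ≤ α) (hβ : 0 ≤ β) {ε : ℝ} (hε : 0 < ε) :
    ∃ c : ℝ, 0 < c ∧ ∃ X₀ : ℕ, ∀ X : ℕ, X₀ ≤ X → ∀ A B : Finset ℕ,
      (∀ p ∈ A, p.Prime ∧ p ≤ X) → (∀ p ∈ B, p.Prime ∧ p ≤ X) →
      α * (Nat.primeCounting X : ℝ) ≤ A.card → β * (Nat.primeCounting X : ℝ) ≤ B.card →
      (Real.sqrt (rate q₁ α * rate q₂ β) - ε) * X ≤
        (((range (2 * X + 1)).filter (fun N => N % 2 = 0 ∧ c * X / Real.log X ^ 2 ≤
          (((A ×ˢ B).filter (fun x => x.1 ≠ x.2 ∧ x.1 + x.2 = N)).card : ℝ))).card : ℝ) := by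
  classical
  have h₁3 := prime_three hq₁ h₁
  have h₂3 := prime_three hq₂ h₂
  obtain ⟨δ, hδ0, hδ1, hδ⟩ := choose_delta h₁3 h₂3 hα hβ (show 0 < ε / 2 by positivity)
  set ε' : ℝ := min ε 1 with hε'
  have hε'0 : 0 < ε' := by positivity
  have hε'ε : ε' ≤ ε := min_le_left _ _
  obtain ⟨K₀, hK₀⟩ := pair_small ε' hε'0 (min_le_right _ _)
  obtain ⟨K, hK⟩ : ∃ K, K = max K₀ (max q₁ q₂) := ⟨_, rfl⟩
  have hKa : K₀ ≤ K := hK ▸ le_max_left _ _
  have hKq₁ : q₁ ≤ K := hK ▸ (le_max_left _ _).trans (le_max_right _ _)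
  have hKq₂ : q₂ ≤ K := hK ▸ (le_max_right _ _).trans (le_max_right _ _)
  have hK2 : 2 ≤ K := hq₁.two_le.trans hKq₁
  obtain ⟨κ, hκ0, X₁, hX₁⟩ := hK₀ K hKa
  have hVW := VW_pos K
  have hWR : (0 : ℝ) < Wp K := by exact_mod_cast Wp_pos K
  obtain ⟨X₂, hX₂⟩ := window_mass K hK2 (δ / (V K * (Wp K : ℝ))) (by positivity)
  obtain ⟨X₃, hX₃⟩ := mass_lower hα (show 0 < δ / 2 by positivity)
  obtain ⟨X₄, hX₄⟩ := mass_lower hβ (show 0 < δ / 2 by positivity)
  obtain ⟨X₅, hX₅⟩ : ∃ X₅ : ℕ, 2 * (∑ p ∈ pr K, Real.log p) / δ ≤ X₅ := exists_nat_ge _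
  obtain ⟨X₆, hX₆⟩ : ∃ X₆ : ℕ, ∀ X : ℕ, X₆ ≤ X → Real.log X ^ 2 ≤ κ / 2 * X := by
    have h := (isLittleO_log_rpow_atTop (show (0 : ℝ) < 1 / 2 by norm_num)).tendsto_div_nhds_zero
    have h6 := (h.comp tendsto_natCast_atTop_atTop).eventually_lt_const
      (show (0 : ℝ) < Real.sqrt (κ / 2) by positivity)
    obtain ⟨N₀, hN₀⟩ := Filter.eventually_atTop.mp h6
    refine ⟨max N₀ 1, fun X hX => ?_⟩
    have h7 := hN₀ X ((le_max_left _ _).trans hX)
    have hX1 : (1 : ℝ) ≤ X := by exact_mod_cast (le_max_right _ _).trans hX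
    simp only [Function.comp] at h7
    rw [div_lt_iff₀ (by positivity)] at h7
    have h8 : 0 ≤ Real.log X := Real.log_nonneg hX1
    calc Real.log X ^ 2 ≤ (Real.sqrt (κ / 2) * (X : ℝ) ^ (1 / 2 : ℝ)) ^ 2 :=
          pow_le_pow_left₀ h8 h7.le 2
      _ = κ / 2 * X := by
          rw [mul_pow, Real.sq_sqrt (by positivity), ← Real.sqrt_eq_rpow,
            Real.sq_sqrt (by linarith)]
  refine ⟨κ / 2, by positivity, max (max (max X₁ X₂) (max X₃ X₄)) (max (max X₅ X₆) 3),
    fun X hX A B hA hB hcA hcB => ?_⟩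
  have hXa : X₁ ≤ X := (le_max_left _ _).trans ((le_max_left _ _).trans ((le_max_left _ _).trans hX))
  have hXb : X₂ ≤ X := (le_max_right _ _).trans ((le_max_left _ _).trans ((le_max_left _ _).trans hX))
  have hXc : X₃ ≤ X := (le_max_left _ _).trans ((le_max_right _ _).trans ((le_max_left _ _).trans hX))
  have hXd : X₄ ≤ X := (le_max_right _ _).trans ((le_max_right _ _).trans ((le_max_left _ _).trans hX))
  have hXe : X₅ ≤ X := (le_max_left _ _).trans ((le_max_left _ _).trans ((le_max_right _ _).trans hX))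
  have hXf : X₆ ≤ X := (le_max_right _ _).trans ((le_max_left _ _).trans ((le_max_right _ _).trans hX))
  have hX3 : 3 ≤ X := (le_max_right _ _).trans ((le_max_right _ _).trans hX)
  have hXR : (3 : ℝ) ≤ X := by exact_mod_cast hX3
  have hlog : 0 < Real.log X := Real.log_pos (by linarith)
  set W := Wp K with hW
  set R := RR K X with hR
  have hRdef : R = X / (V K * (W : ℝ)) := rfl
  have hR0 : 0 < R := by rw [hRdef]; positivity
  -- class densities
  have hdens : ∀ (C : Finset ℕ) (u : ℕ), u ∈ un K → ms (wt C) W u 0 X / R ≤ 1 + δ := by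
    intro C u hu
    have hu' := mem_un.1 hu
    rw [div_le_iff₀ hR0]
    have h1 := hX₂ X hXb 0 X u (Nat.zero_le _) le_rfl hu'.2
    rw [Nat.mod_eq_of_lt hu'.1] at h1
    have h2 := (abs_le.1 h1).2
    have h3 : δ / (V K * (W : ℝ)) * X = δ * R := by
      rw [hRdef]
      field_simp
    have h4 : ((X : ℝ) - (0 : ℕ)) / (V K * (W : ℝ)) = R := by
      rw [hRdef]
      simp
    rw [h3, h4] at h2
    have h5 := ms_le_lam (wt_le C) W u 0 X
    have h6 : ms lam W u 0 X = ∑ x ∈ (Finset.Ioc 0 X).filter (fun x => x % W = u), lam x := rfl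
    rw [← h6] at h2
    linarith
  have hsumC : ∀ (C : Finset ℕ) (γ : ℝ), (∀ p ∈ C, p.Prime ∧ p ≤ X) →
      (γ - δ / 2) * X ≤ ∑ p ∈ C, Real.log p →
      max 0 (γ - δ) / (1 + δ) * (V K * (W : ℝ)) ≤
        ∑ u ∈ un K, min 1 (ms (wt C) W u 0 X / R) := by
    intro C γ hC hγ
    have hmin0 : ∀ u, 0 ≤ min 1 (ms (wt C) W u 0 X / R) := fun u =>
      le_min zero_le_one (div_nonneg (ms_nonneg (wt_nonneg C) _ _ _ _) hR0.le)
    rcases le_or_gt (γ - δ) 0 with h | h
    · rw [max_eq_left h, zero_div, zero_mul]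
      exact Finset.sum_nonneg fun u _ => hmin0 u
    · rw [max_eq_right h.le]
      have h1 := sum_classes (K := K) C hC
      have h2 : ∑ p ∈ pr K, Real.log p ≤ δ / 2 * X := by
        rw [div_le_iff₀ hδ0] at hX₅
        have : (X₅ : ℝ) ≤ X := by exact_mod_cast hXe
        nlinarith
      have h3 : (γ - δ) * X ≤ ∑ u ∈ un K, ms (wt C) W u 0 X := by
        have : (γ - δ) * X = (γ - δ / 2) * X - δ / 2 * X := by ring
        linarith
      have h4 : ∀ u ∈ un K, ms (wt C) W u 0 X / R / (1 + δ) ≤ min 1 (ms (wt C) W u 0 X / R) := by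
        intro u hu
        have h5 := hdens C u hu
        have h6 : 0 ≤ ms (wt C) W u 0 X / R := div_nonneg (ms_nonneg (wt_nonneg C) _ _ _ _) hR0.le
        refine le_min ?_ ?_
        · rw [div_le_one (by linarith)]
          exact h5
        · exact div_le_self h6 (by linarith)
      refine le_trans ?_ (Finset.sum_le_sum h4)
      rw [← Finset.sum_div, ← Finset.sum_div]
      rw [div_mul_eq_mul_div]
      refine div_le_div_of_nonneg_right ?_ (by linarith)
      rw [le_div_iff₀ hR0]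
      calc (γ - δ) * (V K * (W : ℝ)) * R = (γ - δ) * X := by
            have hVK := (V_pos K).ne'
            rw [hRdef]
            field_simp
        _ ≤ _ := h3
  have hsA := hsumC A α hA (hX₃ X hXc A hA hcA)
  have hsB := hsumC B β hB (hX₄ X hXd B hB hcB)
  -- the counting function
  set cnt : ℕ → ℝ := fun c => (((range (2 * X + 1)).filter (fun N => N % W = c ∧
    κ * X ≤ cv (wt A) (wt B) N)).card : ℝ) with hcnt
  have hcnt0 : ∀ c, 0 ≤ cnt c := fun c => Nat.cast_nonneg _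
  have hloc := loc hq₁ h₁ hKq₁ hq₂ h₂ hKq₂ (α := max 0 (α - δ) / (1 + δ))
    (β := max 0 (β - δ) / (1 + δ)) (div_nonneg (le_max_left _ _) (by linarith))
    (div_nonneg (le_max_left _ _) (by linarith)) (fun u => min 1 (ms (wt A) W u 0 X / R))
    (fun u => min 1 (ms (wt B) W u 0 X / R)) (fun c => (cnt c * W / X + ε') / 2)
    (fun u => le_min zero_le_one (div_nonneg (ms_nonneg (wt_nonneg A) _ _ _ _) hR0.le))
    (fun u => min_le_left _ _)
    (fun u => le_min zero_le_one (div_nonneg (ms_nonneg (wt_nonneg B) _ _ _ _) hR0.le))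
    (fun u => min_le_left _ _)
    (fun c => by have := hcnt0 c; positivity) hsA hsB (by
      intro u hu v hv
      have h1 := hX₁ X hXa (wt A) (wt B) (wt_nonneg A) (wt_le A) (wt_nonneg B) (wt_le B) u hu v hv
      have h2 : Real.sqrt (min 1 (ms (wt A) W u 0 X / R)) *
          Real.sqrt (min 1 (ms (wt B) W v 0 X / R)) ≤
          Real.sqrt (ms (wt A) W u 0 X / R) * Real.sqrt (ms (wt B) W v 0 X / R) :=
        mul_le_mul (Real.sqrt_le_sqrt (min_le_right _ _)) (Real.sqrt_le_sqrt (min_le_right _ _))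
          (Real.sqrt_nonneg _) (Real.sqrt_nonneg _)
      refine h2.trans ?_
      have h3 : (X : ℝ) / W * (2 * (Real.sqrt (ms (wt A) W u 0 X / R) *
          Real.sqrt (ms (wt B) W v 0 X / R)) - ε') ≤ cnt ((u + v) % W) := h1
      have h4 := mul_le_mul_of_nonneg_right h3 (show 0 ≤ (W : ℝ) / X by positivity)
      have h5 : (X : ℝ) / W * (2 * (Real.sqrt (ms (wt A) W u 0 X / R) *
          Real.sqrt (ms (wt B) W v 0 X / R)) - ε') * (W / X) =
          2 * (Real.sqrt (ms (wt A) W u 0 X / R) *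
          Real.sqrt (ms (wt B) W v 0 X / R)) - ε' := by
        have : (X : ℝ) ≠ 0 := by linarith
        field_simp
      rw [h5] at h4
      have h6 : cnt ((u + v) % W) * (W / X) = cnt ((u + v) % W) * W / X := by ring
      rw [h6] at h4
      linarith)
  -- total
  have htot : ∑ c ∈ (range W).filter (fun c => c % 2 = 0), cnt c ≤
      (((range (2 * X + 1)).filter (fun N => N % 2 = 0 ∧
        κ * X ≤ cv (wt A) (wt B) N)).card : ℝ) := by
    rw [hcnt]
    rw [← Nat.cast_sum]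
    have h2W : 2 ∣ W := dvd_Wp (mem_pr.2 ⟨hK2, Nat.prime_two⟩)
    rw [← Finset.card_biUnion]
    · exact_mod_cast Finset.card_le_card fun N hN => by
        rw [Finset.mem_biUnion] at hN
        obtain ⟨c, hc, hN⟩ := hN
        rw [Finset.mem_filter] at hc hN ⊢
        refine ⟨hN.1, ?_, hN.2.2⟩
        rw [← Nat.mod_mod_of_dvd N h2W, hN.2.1]
        exact hc.2
    · intro c _ c' _ hcc'
      rw [Function.onFun, Finset.disjoint_left]
      intro N hN hN'
      rw [Finset.mem_filter] at hN hN'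
      exact hcc' (hN.2.1.symm.trans hN'.2.1)
  have hsumS : ∑ c ∈ (range W).filter (fun c => c % 2 = 0), (cnt c * W / X + ε') / 2 =
      W / (2 * X) * (∑ c ∈ (range W).filter (fun c => c % 2 = 0), cnt c) + W / 2 * (ε' / 2) := by
    have h1 : ∀ c, (cnt c * W / X + ε') / 2 = W / (2 * X) * cnt c + ε' / 2 := by
      intro c
      have : (X : ℝ) ≠ 0 := by linarith
      field_simp
    simp only [h1]
    rw [Finset.sum_add_distrib, ← Finset.mul_sum, Finset.sum_const, nsmul_eq_mul, card_even hK2]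
  rw [hsumS] at hloc
  set S := ∑ c ∈ (range W).filter (fun c => c % 2 = 0), cnt c with hS
  set Q := Real.sqrt (rate q₁ (max 0 (α - δ) / (1 + δ)) * rate q₂ (max 0 (β - δ) / (1 + δ))) with hQ
  have h7 : (Q - ε' / 2) * X ≤ S := by
    have hXne : (X : ℝ) ≠ 0 := by linarith
    have h8 : (W : ℝ) / 2 * (Q - ε' / 2) ≤ W / (2 * X) * S := by
      have : (W : ℝ) / 2 * (Q - ε' / 2) = W / 2 * Q - W / 2 * (ε' / 2) := by ring
      linarith
    have h9 := mul_le_mul_of_nonneg_right h8 (show 0 ≤ 2 * (X : ℝ) / W by positivity)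
    have h10 : (W : ℝ) / 2 * (Q - ε' / 2) * (2 * X / W) = (Q - ε' / 2) * X := by
      field_simp
    have h11 : (W : ℝ) / (2 * X) * S * (2 * X / W) = S := by
      field_simp
    rwa [h10, h11] at h9
  have h8 : (Real.sqrt (rate q₁ α * rate q₂ β) - ε) * X ≤ (Q - ε' / 2) * X :=
    mul_le_mul_of_nonneg_right (by linarith) (by linarith)
  refine h8.trans (h7.trans (htot.trans ?_))
  exact_mod_cast Finset.card_le_card fun N hN => by
    rw [Finset.mem_filter] at hN ⊢
    refine ⟨hN.1, hN.2.1, ?_⟩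
    have h9 := hN.2.2.trans (cv_le_card (by omega : 1 ≤ X) A B hA hB N)
    rw [div_le_iff₀ (by positivity)]
    have h10 := hX₆ X hXf
    nlinarith

end Pool.Agent.Lib.MP_7b7e48_nt.SP
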