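import Pool.Agent.Lib.MP_7b7e48_nt.SP.Mixed
import Pool.Agent.Lib.MP_7b7e48_nt.GT.RobustLocal

/-! # The local theorem for residue classes modulo a primorial -/

set_option autoImplicit false

namespace Pool.Agent.Lib.MP_7b7e48_nt.SP

open Finset Pool.Agent.Lib.GT Pool.Agent.Lib.GT.LA Pool.Agent.Lib.GT.Robust

/-- the odd primes below `q` -/
def op (q : ℕ) : Finset ℕ := (range q).filter fun p => p.Prime ∧ p ≠ 2

/-- `(1 / m) (φ(m) α) ^ (log q / log (q - 1))`, where `m` is the product of the odd primes `< q` -/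
noncomputable def rate (q : ℕ) (α : ℝ) : ℝ :=
  (∏ p ∈ op q, 1 / (p : ℝ)) *
    ((∏ p ∈ op q, ((p : ℝ) - 1)) * α) ^ (Real.log q / Real.log ((q : ℝ) - 1))

/-- unit residues modulo `Wp K` -/
def un (K : ℕ) : Finset ℕ := (range (Wp K)).filter fun u => ∀ p ∈ pr K, u % p ≠ 0

theorem mem_un {K u : ℕ} : u ∈ un K ↔ u < Wp K ∧ ∀ p ∈ pr K, u % p ≠ 0 := by
  unfold un
  rw [Finset.mem_filter, Finset.mem_range]

/-- the list of the odd primes below `n` -/
def ol (n : ℕ) : List ℕ := (List.range n).filter fun p => p.Prime ∧ p ≠ 2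

theorem mem_ol {n p : ℕ} : p ∈ ol n ↔ p < n ∧ p.Prime ∧ p ≠ 2 := by
  unfold ol
  rw [List.mem_filter, List.mem_range]
  simp

theorem ol_pairwise (n : ℕ) : (ol n).Pairwise (· < ·) := by
  unfold ol
  exact List.Pairwise.filter _ (List.pairwise_lt_range)

theorem ol_split {K q : ℕ} (hq : q.Prime) (h2 : q ≠ 2) (hK : q ≤ K) :
    ∃ L₂, ol (K + 1) = ol q ++ q :: L₂ := by
  obtain ⟨k, rfl⟩ : ∃ k, K = q + k := ⟨K - q, by omega⟩
  refine ⟨(((List.range k).map Nat.succ).map (q + ·)).filter fun p => p.Prime ∧ p ≠ 2, ?_⟩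
  unfold ol
  rw [show q + k + 1 = q + (k + 1) by ring, List.range_add, List.filter_append,
    List.range_succ_eq_map, List.map_cons, List.filter_cons]
  simp [hq, h2]

theorem ol_prod (n : ℕ) (f : ℕ → ℝ) : ((ol n).map f).prod = ∏ p ∈ op n, f p := by
  have h1 : op n = (ol n).toFinset := by
    ext p
    rw [List.mem_toFinset, mem_ol]
    unfold op
    rw [Finset.mem_filter, Finset.mem_range]
  rw [h1, List.prod_toFinset f ((ol_pairwise n).imp fun h => ne_of_lt h)]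

theorem prime_three {p : ℕ} (h : p.Prime) (h2 : p ≠ 2) : 3 ≤ p := by
  have := h.two_le
  omega

theorem pr_eq_insert {K : ℕ} (hK : 2 ≤ K) : pr K = insert 2 (op (K + 1)) := by
  ext p
  rw [mem_pr, Finset.mem_insert]
  unfold op
  rw [Finset.mem_filter, Finset.mem_range]
  constructor
  · rintro ⟨h1, h2⟩
    by_cases h3 : p = 2
    · exact Or.inl h3
    · exact Or.inr ⟨by omega, h2, h3⟩
  · rintro (rfl | ⟨h1, h2, h3⟩)
    · exact ⟨hK, Nat.prime_two⟩
    · exact ⟨by omega, h2⟩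

theorem two_not_op (n : ℕ) : 2 ∉ op n := by
  unfold op
  rw [Finset.mem_filter]
  tauto

theorem Wp_eq {K : ℕ} (hK : 2 ≤ K) : (Wp K : ℝ) = 2 * ((ol (K + 1)).prod : ℝ) := by
  have h := ol_prod (K + 1) (fun p => (p : ℝ))
  have h1 : ((ol (K + 1)).map (fun p : ℕ => (p : ℝ))).prod = ((ol (K + 1)).prod : ℝ) := by
    rw [Nat.cast_list_prod]
  rw [← h1, h]
  unfold Wp
  rw [pr_eq_insert hK, Finset.prod_insert (two_not_op _)]
  push_cast
  rfl

theorem VW_eq {K : ℕ} (hK : 2 ≤ K) : V K * (Wp K : ℝ) = ph (ol (K + 1)) := by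
  unfold ph
  rw [ol_prod]
  unfold V Wp
  rw [Nat.cast_prod, ← Finset.prod_mul_distrib, pr_eq_insert hK,
    Finset.prod_insert (two_not_op _)]
  have h1 : (1 - 1 / ((2 : ℕ) : ℝ)) * ((2 : ℕ) : ℝ) = 1 := by norm_num
  rw [h1, one_mul]
  refine Finset.prod_congr rfl fun p hp => ?_
  unfold op at hp
  rw [Finset.mem_filter] at hp
  have : (p : ℝ) ≠ 0 := by exact_mod_cast hp.2.1.ne_zero
  field_simp

/-- lower bound of the mixed norm in terms of `rate` -/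
theorem norm_rate {K q : ℕ} (hq : q.Prime) (h2 : q ≠ 2) (hK : q ≤ K) {α : ℝ} (hα : 0 ≤ α)
    (a : ℕ → ℝ) (ha0 : ∀ n, 0 ≤ a n) (ha1 : ∀ n, a n ≤ 1)
    (hsum : α * (V K * (Wp K : ℝ)) ≤ ∑ u ∈ un K, a u) (hI : Inj (ol (K + 1)) (un K))
    (hU : Unt (ol (K + 1)) (un K)) :
    Real.sqrt (rate q α) ≤ Nrm (ol (K + 1)) (un K) fun u => Real.sqrt (a u) := by
  obtain ⟨L₂, hL₂⟩ := ol_split hq h2 hK
  have hq3 := prime_three hq h2
  have hall : ∀ p ∈ ol (K + 1), 3 ≤ p := fun p hp => by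
    rw [mem_ol] at hp
    exact prime_three hp.2.1 hp.2.2
  have hsort : (ol (K + 1)).Pairwise (· ≤ ·) := (ol_pairwise _).imp le_of_lt
  have hlow := VW_eq (K := K) (hq.two_le.trans hK)
  rw [hL₂] at hall hsort hI hU hlow ⊢
  have key := Nrm_ge q L₂ (ol q) hsort hall (un K) hI hU a ha0 ha1
  refine le_trans ?_ key
  have hqL : ∀ x ∈ q :: L₂, 3 ≤ x := fun x hx => hall x (by
    rw [List.mem_append]
    exact Or.inr hx)
  have hph := ph_pos hqL
  have hsplit : ph (ol q ++ q :: L₂) = ph (ol q) * ph (q :: L₂) := by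
    unfold ph
    rw [List.map_append, List.prod_append]
  have hq0 : ∀ x ∈ ol q, 3 ≤ x := fun x hx => by
    rw [mem_ol] at hx
    exact prime_three hx.2.1 hx.2.2
  have hphq := ph_pos hq0
  have h1 : ph (ol q) * α ≤ (∑ u ∈ un K, a u) / ph (q :: L₂) := by
    rw [le_div_iff₀ hph]
    calc ph (ol q) * α * ph (q :: L₂) = α * (ph (ol q) * ph (q :: L₂)) := by ring
      _ = α * (V K * (Wp K : ℝ)) := by rw [hlow, hsplit]
      _ ≤ _ := hsum
  have hP : (0 : ℝ) < (ol q).prod := prod_pos' hq0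
  have h3 : Real.sqrt (rate q α) =
      (((ol q).prod : ℝ)⁻¹) ^ (1 / 2 : ℝ) * (ph (ol q) * α) ^ (1 / rr q) := by
    have e1 : ∏ p ∈ op q, 1 / (p : ℝ) = (((ol q).prod : ℝ)⁻¹) := by
      rw [Nat.cast_list_prod, ol_prod q (fun p => (p : ℝ)), ← Finset.prod_inv_distrib]
      simp
    have e2 : ∏ p ∈ op q, ((p : ℝ) - 1) = ph (ol q) := by
      unfold ph
      rw [ol_prod]
    unfold rate
    rw [e1, e2, ← two_div_rr hq3, Real.sqrt_eq_rpow, Real.mul_rpow (inv_nonneg.2 hP.le)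
      (Real.rpow_nonneg (by positivity) _), ← Real.rpow_mul (by positivity)]
    congr 2
    ring
  rw [h3]
  refine mul_le_mul_of_nonneg_left ?_ (Real.rpow_nonneg (inv_nonneg.2 hP.le) _)
  have := rr_pos hq3
  exact Real.rpow_le_rpow (by positivity) h1 (by positivity)

theorem rate_nonneg {q : ℕ} {α : ℝ} (hα : 0 ≤ α) : 0 ≤ rate q α := by
  unfold rate
  refine mul_nonneg (Finset.prod_nonneg fun p _ => by positivity) (Real.rpow_nonneg ?_ _)
  refine mul_nonneg (Finset.prod_nonneg fun p hp => ?_) hα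
  unfold op at hp
  rw [Finset.mem_filter] at hp
  have : (1 : ℝ) ≤ p := by exact_mod_cast hp.2.1.one_le
  linarith

/-- **The local theorem.** -/
theorem loc {K q₁ q₂ : ℕ} (hq₁ : q₁.Prime) (h₁ : q₁ ≠ 2) (hK₁ : q₁ ≤ K) (hq₂ : q₂.Prime)
    (h₂ : q₂ ≠ 2) (hK₂ : q₂ ≤ K) {α β : ℝ} (hα : 0 ≤ α) (hβ : 0 ≤ β) (a b S : ℕ → ℝ)
    (ha0 : ∀ n, 0 ≤ a n) (ha1 : ∀ n, a n ≤ 1) (hb0 : ∀ n, 0 ≤ b n) (hb1 : ∀ n, b n ≤ 1)
    (hS : ∀ n, 0 ≤ S n) (hsa : α * (V K * (Wp K : ℝ)) ≤ ∑ u ∈ un K, a u)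
    (hsb : β * (V K * (Wp K : ℝ)) ≤ ∑ u ∈ un K, b u)
    (h : ∀ u ∈ un K, ∀ v ∈ un K, Real.sqrt (a u) * Real.sqrt (b v) ≤ S ((u + v) % Wp K)) :
    (Wp K : ℝ) / 2 * Real.sqrt (rate q₁ α * rate q₂ β) ≤
      ∑ c ∈ (range (Wp K)).filter (fun c => c % 2 = 0), S c := by
  have hK2 : 2 ≤ K := hq₁.two_le.trans hK₁
  have h2K : 2 ∈ pr K := mem_pr.2 ⟨hK2, Nat.prime_two⟩
  have hmem : ∀ p ∈ ol (K + 1), p ∈ pr K := fun p hp => by
    rw [mem_ol] at hp
    exact mem_pr.2 ⟨by omega, hp.2.1⟩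
  have hall : ∀ p ∈ ol (K + 1), p.Prime ∧ 3 ≤ p := fun p hp => by
    rw [mem_ol] at hp
    exact ⟨hp.2.1, prime_three hp.2.1 hp.2.2⟩
  have hI : Inj (ol (K + 1)) (un K) := by
    intro u hu u' hu' hh
    rw [mem_un] at hu hu'
    have h3 : u % Wp K = u' % Wp K := by
      apply eq_of_mod_pr
      intro p hp
      rw [pr_eq_insert hK2, Finset.mem_insert] at hp
      rcases hp with rfl | hp
      · have h4 := hu.2 2 h2K
        have h5 := hu'.2 2 h2K
        omega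
      · refine hh p ?_
        unfold op at hp
        rw [Finset.mem_filter, Finset.mem_range] at hp
        rw [mem_ol]
        exact hp
    rwa [Nat.mod_eq_of_lt hu.1, Nat.mod_eq_of_lt hu'.1] at h3
  have hU : Unt (ol (K + 1)) (un K) := by
    intro u hu p hp
    rw [mem_un] at hu
    exact hu.2 p (hmem p hp)
  have key := mean_ge (ol (K + 1)) hall (un K) (un K)
    ((range (Wp K)).filter (fun c => c % 2 = 0)) (fun u => Real.sqrt (a u))
    (fun u => Real.sqrt (b u)) S (fun u => Real.sqrt_nonneg _) (fun u => Real.sqrt_nonneg _) hS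
    hI hI hU hU (by
      intro u hu v hv
      refine ⟨(u + v) % Wp K, ?_, fun p hp => ?_, h u hu v hv⟩
      · rw [Finset.mem_filter, Finset.mem_range]
        refine ⟨Nat.mod_lt _ (Wp_pos K), ?_⟩
        rw [Nat.mod_mod_of_dvd _ (dvd_Wp h2K)]
        rw [mem_un] at hu hv
        have h4 := hu.2 2 h2K
        have h5 := hv.2 2 h2K
        omega
      · exact Nat.mod_mod_of_dvd _ (dvd_Wp (hmem p hp)))
  refine le_trans ?_ key
  rw [Wp_eq hK2, Real.sqrt_mul (rate_nonneg hα)]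
  have e : (2 : ℝ) * ((ol (K + 1)).prod : ℝ) / 2 = ((ol (K + 1)).prod : ℝ) := by ring
  rw [e]
  refine mul_le_mul_of_nonneg_left ?_ (Nat.cast_nonneg _)
  refine mul_le_mul (norm_rate hq₁ h₁ hK₁ hα a ha0 ha1 hsa hI hU)
    (norm_rate hq₂ h₂ hK₂ hβ b hb0 hb1 hsb hI hU) (Real.sqrt_nonneg _) ?_
  exact Nrm_nonneg _ (fun p hp => (hall p hp).2) _ _ fun u => Real.sqrt_nonneg _

end Pool.Agent.Lib.MP_7b7e48_nt.SP
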