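import Pool.Agent.Lib.MP_7b7e48_nt.SP.Sharp
import Pool.Agent.Lib.MP_7b7e48_nt.GT.PNTAP

/-! # The logarithmic mass of the primes of a residue class in a window -/

namespace Pool.Agent.Lib.MP_7b7e48_nt.SP

open Finset Pool.Agent.Lib.GT Pool.Agent.Lib.GT.LA Pool.Agent.Lib.GT.Robust

namespace WindowAux

theorem class_bound (W a : ℕ) (hW : 0 < W) (h : a.Coprime W) {η : ℝ} (hη : 0 < η) :
    ∃ D : ℝ, 0 ≤ D ∧ ∀ N : ℕ, |∑ n ∈ Finset.Icc 1 N with n % W = a % W, lam n -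
      (N : ℝ) / W.totient| ≤ η * N + D := by
  have h1 := pnt_ap W a hW h
  rw [Metric.tendsto_atTop] at h1
  obtain ⟨N0, hN0⟩ := h1 η hη
  refine ⟨∑ N ∈ Finset.range N0, |∑ n ∈ Finset.Icc 1 N with n % W = a % W, lam n -
      (N : ℝ) / W.totient|, Finset.sum_nonneg fun _ _ => abs_nonneg _, fun N => ?_⟩
  by_cases hN : N < N0
  · have h2 := Finset.single_le_sum (f := fun N : ℕ => |∑ n ∈ Finset.Icc 1 N with n % W = a % W,
      lam n - (N : ℝ) / W.totient|) (fun _ _ => abs_nonneg _) (Finset.mem_range.2 hN)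
    have h3 : 0 ≤ η * N := by positivity
    linarith
  · have h2 := hN0 N (by omega)
    have h3 : 0 ≤ ∑ N ∈ Finset.range N0, |∑ n ∈ Finset.Icc 1 N with n % W = a % W, lam n -
      (N : ℝ) / W.totient| := Finset.sum_nonneg fun _ _ => abs_nonneg _
    by_cases hN0' : N = 0
    · subst hN0'
      simp only [Nat.cast_zero, zero_div, mul_zero, zero_add, sub_zero]
      have : Finset.Icc 1 0 = (∅ : Finset ℕ) := rfl
      rw [this, Finset.filter_empty, Finset.sum_empty, abs_zero]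
      exact h3
    · have hNR : (0 : ℝ) < N := by exact_mod_cast Nat.pos_of_ne_zero hN0'
      rw [Real.dist_eq] at h2
      have h4 : (∑ n ∈ Finset.Icc 1 N with n % W = a % W, lam n - (N : ℝ) / W.totient) =
          ((∑ n ∈ Finset.Icc 1 N with n % W = a % W, lam n) / N - 1 / (W.totient : ℝ)) * N := by
        field_simp
      rw [h4, abs_mul, abs_of_pos hNR]
      have h5 := mul_le_mul_of_nonneg_right h2.le hNR.le
      linarith

theorem totient_Wp (K : ℕ) : ((Wp K).totient : ℝ) = V K * (Wp K : ℝ) := by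
  have hp : ∀ p ∈ pr K, p.Prime := fun p hp => (mem_pr.1 hp).2
  unfold Wp V
  rw [SharpAux.totient_prod _ hp, Nat.cast_prod, ← Finset.prod_mul_distrib]
  refine Finset.prod_congr rfl fun p hpp => ?_
  have : (p : ℝ) ≠ 0 := by exact_mod_cast (hp p hpp).ne_zero
  field_simp

theorem coprime_Wp {K u : ℕ} (h : ∀ p ∈ pr K, u % p ≠ 0) : u.Coprime (Wp K) := by
  unfold Wp
  refine Nat.Coprime.prod_right fun p hp => ?_
  rw [Nat.coprime_comm, Nat.Prime.coprime_iff_not_dvd (mem_pr.1 hp).2]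
  intro hd
  exact h p hp (Nat.mod_eq_zero_of_dvd hd)

theorem Wp_pos (K : ℕ) : 0 < Wp K := by
  unfold Wp
  exact Finset.prod_pos fun p hp => (mem_pr.1 hp).2.pos

end WindowAux

/-- the logarithmic mass of the primes of a unit class in a window -/
theorem window_mass (K : ℕ) (hK : 2 ≤ K) : ∀ δ : ℝ, 0 < δ → ∃ X0 : ℕ, ∀ X : ℕ, X0 ≤ X →
    ∀ s t u : ℕ, s ≤ t → t ≤ X → (∀ p ∈ pr K, u % p ≠ 0) →
      |∑ x ∈ (Ioc s t).filter (fun x => x % Wp K = u % Wp K), lam x -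
        ((t : ℝ) - s) / (V K * (Wp K : ℝ))| ≤ δ * X := by
  classical
  intro δ hδ
  have _ := hK
  have hW := WindowAux.Wp_pos K
  have hδ4 : 0 < δ / 4 := by positivity
  have key : ∀ a : ℕ, ∃ D : ℝ, 0 ≤ D ∧ (a.Coprime (Wp K) → ∀ N : ℕ,
      |∑ n ∈ Finset.Icc 1 N with n % Wp K = a % Wp K, lam n - (N : ℝ) / (Wp K).totient| ≤
        δ / 4 * N + D) := by
    intro a
    by_cases ha : a.Coprime (Wp K)
    · obtain ⟨D, hD, h⟩ := WindowAux.class_bound (Wp K) a hW ha hδ4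
      exact ⟨D, hD, fun _ => h⟩
    · exact ⟨0, le_rfl, fun h => absurd h ha⟩
  choose D hD hD' using key
  obtain ⟨T, hT⟩ : ∃ T, T = ∑ a ∈ Finset.range (Wp K), D a := ⟨_, rfl⟩
  refine ⟨⌈4 * T / δ⌉₊, fun X hX s t u hst htX hu => ?_⟩
  have hX' : 4 * T / δ ≤ X := (Nat.le_ceil _).trans (by exact_mod_cast hX)
  rw [div_le_iff₀ hδ] at hX'
  have hcop := WindowAux.coprime_Wp hu
  have hcop' : (u % Wp K).Coprime (Wp K) := by
    have h1 : Nat.gcd (u % Wp K) (Wp K) = Nat.gcd u (Wp K) := (Nat.mod_modEq u (Wp K)).gcd_eq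
    unfold Nat.Coprime
    rw [h1]
    exact hcop
  have hDT : D (u % Wp K) ≤ T := by
    rw [hT]
    exact Finset.single_le_sum (fun a _ => hD a) (Finset.mem_range.2 (Nat.mod_lt _ hW))
  have hN : ∀ N : ℕ, N ≤ X → |∑ n ∈ Finset.Icc 1 N with n % Wp K = u % Wp K, lam n -
      (N : ℝ) / (Wp K).totient| ≤ δ / 2 * X := by
    intro N hNX
    have h1 := hD' (u % Wp K) hcop' N
    rw [Nat.mod_mod] at h1
    have h2 : (N : ℝ) ≤ X := by exact_mod_cast hNX
    have h3 : δ / 4 * N ≤ δ / 4 * X := mul_le_mul_of_nonneg_left h2 hδ4.le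
    linarith
  have hsum : ∑ x ∈ (Ioc s t).filter (fun x => x % Wp K = u % Wp K), lam x =
      ∑ n ∈ Finset.Icc 1 t with n % Wp K = u % Wp K, lam n -
        ∑ n ∈ Finset.Icc 1 s with n % Wp K = u % Wp K, lam n := by
    rw [eq_sub_iff_add_eq', Finset.sum_filter, Finset.sum_filter, Finset.sum_filter]
    have hI : ∀ N : ℕ, Finset.Icc 1 N = Finset.Ioc 0 N := fun N => by
      ext x
      rw [Finset.mem_Icc, Finset.mem_Ioc]
      omega
    rw [hI, hI]
    exact Finset.sum_Ioc_consecutive _ (Nat.zero_le s) hst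
  rw [hsum, ← WindowAux.totient_Wp]
  have h1 := hN t htX
  have h2 := hN s (hst.trans htX)
  rw [abs_le] at h1 h2 ⊢
  rw [sub_div]
  constructor <;> linarith [h1.1, h1.2, h2.1, h2.2]

end Pool.Agent.Lib.MP_7b7e48_nt.SP
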