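import Pool.Agent.Lib.MP_7b7e48_nt.SP.Excess
import Pool.Agent.Lib.MP_7b7e48_nt.SP.WindowMass

/-! # Popular sums of two classes -/

set_option autoImplicit false

namespace Pool.Agent.Lib.MP_7b7e48_nt.SP

open Finset Pool.Agent.Lib.GT Pool.Agent.Lib.GT.LA Pool.Agent.Lib.GT.Robust

theorem cv_eq_antidiagonal (f g : ℕ → ℝ) (N : ℕ) :
    cv f g N = ∑ p ∈ Finset.HasAntidiagonal.antidiagonal N, f p.1 * g p.2 := by
  unfold cv
  rw [Finset.Nat.sum_antidiagonal_eq_sum_range_succ_mk]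

theorem cv_comm (f g : ℕ → ℝ) (N : ℕ) : cv f g N = cv g f N := by
  rw [cv_eq_antidiagonal, cv_eq_antidiagonal, ← Finset.Nat.sum_antidiagonal_swap]
  refine Finset.sum_congr rfl fun p _ => ?_
  simp [mul_comm]

theorem cv_total {X : ℕ} {f g : ℕ → ℝ} (hf : ∀ n, X < n → f n = 0) (hg : ∀ n, X < n → g n = 0) :
    ∑ N ∈ range (2 * X + 1), cv f g N =
      (∑ x ∈ range (X + 1), f x) * ∑ x ∈ range (X + 1), g x := by
  classical
  rw [Finset.sum_mul_sum, ← Finset.sum_product' (range (X + 1)) (range (X + 1))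
    (fun x y => f x * g y)]
  rw [← Finset.sum_fiberwise_of_maps_to (s := range (X + 1) ×ˢ range (X + 1))
    (t := range (2 * X + 1)) (g := fun p => p.1 + p.2) (by
      intro p hp
      rw [Finset.mem_product, Finset.mem_range, Finset.mem_range] at hp
      rw [Finset.mem_range]
      omega)]
  refine Finset.sum_congr rfl fun N _ => ?_
  rw [cv_eq_antidiagonal]
  symm
  apply Finset.sum_subset
  · intro p hp
    rw [Finset.mem_filter] at hp
    rw [Finset.HasAntidiagonal.mem_antidiagonal]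
    exact hp.2
  · intro p hp hp'
    rw [Finset.HasAntidiagonal.mem_antidiagonal] at hp
    rw [Finset.mem_filter, Finset.mem_product, Finset.mem_range, Finset.mem_range] at hp'
    by_cases h1 : X < p.1
    · rw [hf _ h1, zero_mul]
    · by_cases h2 : X < p.2
      · rw [hg _ h2, mul_zero]
      · exact absurd ⟨⟨by omega, by omega⟩, hp⟩ hp'

theorem sum_range_Icc {X : ℕ} {f : ℕ → ℝ} (h0 : f 0 = 0) :
    ∑ x ∈ range (X + 1), f x = ∑ x ∈ Finset.Icc 1 X, f x := by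
  symm
  apply Finset.sum_subset
  · intro n hn
    rw [Finset.mem_Icc] at hn
    rw [Finset.mem_range]
    omega
  · intro n hn hn'
    rw [Finset.mem_range] at hn
    rw [Finset.mem_Icc] at hn'
    have : n = 0 := by omega
    rw [this, h0]

theorem le_lam_zero {f : ℕ → ℝ} (hf0 : ∀ n, 0 ≤ f n) (hfl : ∀ n, f n ≤ lam n) : f 0 = 0 := by
  refine le_antisymm ?_ (hf0 0)
  have h5 := hfl 0
  have h6 : lam 0 = 0 := by
    unfold lam
    rw [if_neg Nat.not_prime_zero]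
  linarith

/-- counting popular sums of a weight `f` in a class with a weight `g` in a class -/
theorem half {K : ℕ} (hK : 2 ≤ K) : ∃ X₀ : ℕ, ∀ X : ℕ, X₀ ≤ X → ∀ u v : ℕ, ∀ f g : ℕ → ℝ,
    (∀ n, 0 ≤ f n) → (∀ n, f n ≤ lam n) → (∀ n, f n ≠ 0 → n ≤ X ∧ n % Wp K = u) →
    (∀ n, 0 ≤ g n) → (∀ n, g n ≤ lam n) → (∀ n, g n ≠ 0 → n ≤ X ∧ n % Wp K = v) →
    ∀ (c : ℝ), 0 ≤ c → ∀ T : Finset ℕ, T ⊆ range (2 * X + 1) →
    (∀ N ∈ range (2 * X + 1), N ∉ T → cv f g N ≤ c) →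
    (∑ x ∈ Finset.Icc 1 X, f x) * (∑ x ∈ Finset.Icc 1 X, g x) ≤
      (2 * X + 1) * c + T.card * ((V K)⁻¹ * ∑ x ∈ Finset.Icc 1 X, f x) +
        139 / Real.sqrt K * RR K X ^ 2 := by
  classical
  obtain ⟨X₀, hX₀⟩ := excess hK
  refine ⟨X₀, fun X hX u v f g hf0 hfl hfu hg0 hgl hgv c hc T hT h => ?_⟩
  have hex := hX₀ X hX u v f g hf0 hfl hfu hg0 hgl hgv
  have hfX : ∀ n, X < n → f n = 0 := by
    intro n hn
    by_contra h1
    have := (hfu n h1).1
    omega
  have hgX : ∀ n, X < n → g n = 0 := by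
    intro n hn
    by_contra h1
    have := (hgv n h1).1
    omega
  have htot := cv_total hfX hgX
  rw [sum_range_Icc (le_lam_zero hf0 hfl), sum_range_Icc (le_lam_zero hg0 hgl)] at htot
  rw [← htot]
  set F := ∑ x ∈ Finset.Icc 1 X, f x with hF
  have hF0 : 0 ≤ F := Finset.sum_nonneg fun x _ => hf0 x
  have hV : 0 ≤ (V K)⁻¹ := inv_nonneg.2 (V_pos K).le
  have h1 : ∀ N ∈ range (2 * X + 1), cv f g N ≤ c + (if N ∈ T then (V K)⁻¹ * F else 0) +
      max 0 (cv f g N - (V K)⁻¹ * F) := by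
    intro N hN
    by_cases hNT : N ∈ T
    · rw [if_pos hNT]
      have := le_max_right 0 (cv f g N - (V K)⁻¹ * F)
      linarith
    · rw [if_neg hNT]
      have h2 := h N hN hNT
      have := le_max_left 0 (cv f g N - (V K)⁻¹ * F)
      linarith
  refine (Finset.sum_le_sum h1).trans ?_
  rw [Finset.sum_add_distrib, Finset.sum_add_distrib, Finset.sum_const, Finset.card_range,
    ← Finset.sum_filter, Finset.sum_const, nsmul_eq_mul, nsmul_eq_mul]
  have h2 : (range (2 * X + 1)).filter (fun N => N ∈ T) = T := by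
    ext N
    rw [Finset.mem_filter]
    exact ⟨fun h => h.2, fun h => ⟨hT h, h⟩⟩
  rw [h2]
  push_cast
  linarith

/-- mass of `a` in a class and an interval -/
noncomputable def ms (a : ℕ → ℝ) (W u s t : ℕ) : ℝ :=
  ∑ x ∈ (Finset.Ioc s t).filter (fun x => x % W = u), a x

/-- restriction to a class and an interval -/
noncomputable def rs (a : ℕ → ℝ) (W u s t n : ℕ) : ℝ :=
  if (s < n ∧ n ≤ t) ∧ n % W = u then a n else 0

theorem sum_rs (a : ℕ → ℝ) (W u : ℕ) {s t X : ℕ} (ht : t ≤ X) :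
    ∑ x ∈ Finset.Icc 1 X, rs a W u s t x = ms a W u s t := by
  unfold ms rs
  rw [← Finset.sum_filter]
  refine Finset.sum_congr ?_ fun _ _ => rfl
  ext n
  rw [Finset.mem_filter, Finset.mem_filter, Finset.mem_Icc, Finset.mem_Ioc]
  constructor
  · rintro ⟨_, h1, h2⟩
    exact ⟨h1, h2⟩
  · rintro ⟨h1, h2⟩
    exact ⟨by omega, h1, h2⟩

theorem ms_nonneg {a : ℕ → ℝ} (ha : ∀ n, 0 ≤ a n) (W u s t : ℕ) : 0 ≤ ms a W u s t :=
  Finset.sum_nonneg fun x _ => ha x

theorem ms_add (a : ℕ → ℝ) (W u : ℕ) {s t r : ℕ} (hst : s ≤ t) (htr : t ≤ r) :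
    ms a W u s t + ms a W u t r = ms a W u s r := by
  unfold ms
  rw [Finset.sum_filter, Finset.sum_filter, Finset.sum_filter,
    Finset.sum_Ioc_consecutive _ hst htr]

theorem ms_le_lam {a : ℕ → ℝ} (ha : ∀ n, a n ≤ lam n) (W u s t : ℕ) :
    ms a W u s t ≤ ms lam W u s t :=
  Finset.sum_le_sum fun x _ => ha x

theorem ms_windows (a : ℕ → ℝ) (W u : ℕ) (σ : ℕ → ℕ) (hσ : Monotone σ) (i : ℕ) :
    ∀ j, i ≤ j → ∑ k ∈ Finset.Ico i j, ms a W u (σ k) (σ (k + 1)) = ms a W u (σ i) (σ j) := by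
  intro j hj
  induction j, hj using Nat.le_induction with
  | base => simp [ms]
  | succ j hj ih =>
    rw [Finset.sum_Ico_succ_top hj, ih, ms_add a W u (hσ hj) (hσ (Nat.le_succ j))]

theorem rs_nonneg {a : ℕ → ℝ} (ha : ∀ n, 0 ≤ a n) (W u s t n : ℕ) : 0 ≤ rs a W u s t n := by
  unfold rs
  split_ifs
  · exact ha n
  · exact le_rfl

theorem rs_le {a : ℕ → ℝ} (ha : ∀ n, 0 ≤ a n) (W u s t n : ℕ) : rs a W u s t n ≤ a n := by
  unfold rs
  split_ifs
  · exact le_rfl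
  · exact ha n

theorem rs_ne {a : ℕ → ℝ} {W u s t n : ℕ} (h : rs a W u s t n ≠ 0) :
    (s < n ∧ n ≤ t) ∧ n % W = u := by
  unfold rs at h
  by_contra h1
  rw [if_neg h1] at h
  exact h rfl

theorem cv_mono {f g f' g' : ℕ → ℝ} (hf0 : ∀ n, 0 ≤ f n) (hg0 : ∀ n, 0 ≤ g' n)
    (hf : ∀ n, f n ≤ f' n) (hg : ∀ n, g n ≤ g' n) (N : ℕ) : cv f g N ≤ cv f' g' N := by
  unfold cv
  refine Finset.sum_le_sum fun x _ => ?_
  exact (mul_le_mul_of_nonneg_left (hg _) (hf0 _)).trans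
    (mul_le_mul_of_nonneg_right (hf _) (hg0 _))

theorem cv_ne {f g : ℕ → ℝ} {N : ℕ} (h : cv f g N ≠ 0) : ∃ x ≤ N, f x ≠ 0 ∧ g (N - x) ≠ 0 := by
  unfold cv at h
  obtain ⟨x, hx, h1⟩ := Finset.exists_ne_zero_of_sum_ne_zero h
  rw [Finset.mem_range] at hx
  exact ⟨x, by omega, left_ne_zero_of_mul h1, right_ne_zero_of_mul h1⟩

/-- one half of the pair estimate -/
theorem half_use {K X : ℕ} {F G R t ε' q B : ℝ} {n : ℝ} (hR : 0 < R) (hV : 0 < V K)
    (hF : t * R ≤ F) (ht : 0 < t) (h : F * G ≤ B * R ^ 2 + n * ((V K)⁻¹ * F))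
    (hB : B ≤ ε' * t) (hB0 : 0 ≤ B) (hG : q * R ≤ G) : V K * R * (q - ε') ≤ n := by
  have hF0 : 0 < F := lt_of_lt_of_le (mul_pos ht hR) hF
  have h1 : B * R ^ 2 ≤ ε' * R * F := by
    calc B * R ^ 2 ≤ (ε' * t) * R ^ 2 := mul_le_mul_of_nonneg_right hB (sq_nonneg _)
      _ = (ε' * R) * (t * R) := by ring
      _ ≤ (ε' * R) * F := by
          refine mul_le_mul_of_nonneg_left hF (mul_nonneg ?_ hR.le)
          by_contra! hc
          have : ε' * t < 0 := mul_neg_of_neg_of_pos hc ht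
          linarith
      _ = _ := by ring
  have h2 : F * G ≤ F * (ε' * R + n * (V K)⁻¹) := by
    calc F * G ≤ ε' * R * F + n * ((V K)⁻¹ * F) := by linarith
      _ = _ := by ring
  have h3 : G ≤ ε' * R + n * (V K)⁻¹ := le_of_mul_le_mul_left h2 hF0
  have h4 : (q - ε') * R ≤ n * (V K)⁻¹ := by linarith
  have h5 := mul_le_mul_of_nonneg_left h4 hV.le
  calc V K * R * (q - ε') = V K * ((q - ε') * R) := by ring
    _ ≤ V K * (n * (V K)⁻¹) := h5
    _ = n := by field_simp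

theorem am_gm {A B ε : ℝ} (hε : 0 ≤ ε) (hA : 0 ≤ A) (hB : 0 ≤ B) :
    2 * (Real.sqrt A * Real.sqrt B) - ε ≤ (B - 4 * ε / 16 - ε / 16) + (A - 4 * ε / 16 - ε / 16) := by
  have h1 := Real.sq_sqrt hA
  have h2 := Real.sq_sqrt hB
  nlinarith [sq_nonneg (Real.sqrt A - Real.sqrt B)]

/-- **Popular sums of two classes.** -/
theorem pair_small (ε : ℝ) (hε : 0 < ε) (hε1 : ε ≤ 1) : ∃ K₀ : ℕ, ∀ K : ℕ, K₀ ≤ K →
    ∃ κ : ℝ, 0 < κ ∧ ∃ X₀ : ℕ, ∀ X : ℕ, X₀ ≤ X → ∀ a b : ℕ → ℝ,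
    (∀ n, 0 ≤ a n) → (∀ n, a n ≤ lam n) → (∀ n, 0 ≤ b n) → (∀ n, b n ≤ lam n) →
    ∀ u ∈ un K, ∀ v ∈ un K,
    (X : ℝ) / Wp K * (2 * (Real.sqrt (ms a (Wp K) u 0 X / RR K X) *
      Real.sqrt (ms b (Wp K) v 0 X / RR K X)) - ε) ≤
      (((range (2 * X + 1)).filter (fun N => N % Wp K = (u + v) % Wp K ∧
        κ * X ≤ cv a b N)).card : ℝ) := by
  classical
  obtain ⟨T, hT⟩ : ∃ T : ℕ, 16 / ε ≤ T := exists_nat_ge _
  have hTR : (0 : ℝ) < T := lt_of_lt_of_le (by positivity) hT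
  have hT0 : 0 < T := by exact_mod_cast hTR
  have hT1 : 1 / (T : ℝ) ≤ ε / 16 := by
    rw [div_le_div_iff₀ hTR (by norm_num), one_mul]
    rw [div_le_iff₀ hε] at hT
    linarith
  set η : ℝ := ε ^ 2 / 16 with hη
  have hη0 : 0 < η := by positivity
  have hηε : η ≤ ε / 16 := by
    rw [hη]
    nlinarith
  obtain ⟨K₁, hK₁⟩ : ∃ K₁ : ℕ, (2240 * T / (η * ε)) ^ 2 ≤ K₁ := exists_nat_ge _
  refine ⟨max K₁ 2, fun K hK => ?_⟩
  have hKa : K₁ ≤ K := (le_max_left _ _).trans hK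
  have hK2 : 2 ≤ K := (le_max_right _ _).trans hK
  have hKR : (2 : ℝ) ≤ K := by exact_mod_cast hK2
  have hsK : 0 < Real.sqrt K := Real.sqrt_pos.2 (by linarith)
  have hsK2 : 2240 * T / (η * ε) ≤ Real.sqrt K := by
    apply Real.le_sqrt_of_sq_le
    exact hK₁.trans (by exact_mod_cast hKa)
  have hVW := VW_pos K
  have hV := V_pos K
  have hW0 : 0 < Wp K := Wp_pos K
  have hWR : (0 : ℝ) < Wp K := by exact_mod_cast hW0
  set κ : ℝ := 1 / (3 * Real.sqrt K * (V K * (Wp K : ℝ)) ^ 2) with hκ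
  have hκ0 : 0 < κ := by positivity
  obtain ⟨X₁, hX₁⟩ := half hK2
  obtain ⟨X₂, hX₂⟩ := window_mass K hK2 (ε / (16 * (V K * (Wp K : ℝ)))) (by positivity)
  obtain ⟨X₃, hX₃⟩ : ∃ X₃ : ℕ, 16 / ε ≤ X₃ := exists_nat_ge _
  refine ⟨κ, hκ0, max (max X₁ X₂) (max X₃ 1), fun X hX a b ha0 hal hb0 hbl u hu v hv => ?_⟩
  have hXa : X₁ ≤ X := (le_max_left _ _).trans ((le_max_left _ _).trans hX)
  have hXb : X₂ ≤ X := (le_max_right _ _).trans ((le_max_left _ _).trans hX)
  have hXc : X₃ ≤ X := (le_max_left _ _).trans ((le_max_right _ _).trans hX)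
  have hX1 : 1 ≤ X := (le_max_right _ _).trans ((le_max_right _ _).trans hX)
  have hXR : (1 : ℝ) ≤ X := by exact_mod_cast hX1
  have hXε : 16 / ε ≤ X := hX₃.trans (by exact_mod_cast hXc)
  rw [div_le_iff₀ hε] at hXε
  set W := Wp K with hW
  set R := RR K X with hR
  have hRdef : R = X / (V K * (W : ℝ)) := rfl
  have hR0 : 0 < R := by rw [hRdef]; positivity
  have hRX : R * (V K * (W : ℝ)) = X := by rw [hRdef]; field_simp
  have hu' := mem_un.1 hu
  have hv' := mem_un.1 hv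
  have humod : u % W = u := Nat.mod_eq_of_lt hu'.1
  have hvmod : v % W = v := Nat.mod_eq_of_lt hv'.1
  -- mass of an interval in a class
  have hwin : ∀ z, z < W → (∀ p ∈ pr K, z % p ≠ 0) → ∀ s t, s ≤ t → t ≤ X →
      ms lam W z s t ≤ ((t : ℝ) - s) / (V K * (W : ℝ)) + ε / 16 * R := by
    intro z hz hz' s t hst htX
    have h1 := hX₂ X hXb s t z hst htX hz'
    rw [Nat.mod_eq_of_lt hz] at h1
    have h2 := (abs_le.1 h1).2
    have h3 : ε / (16 * (V K * (W : ℝ))) * X = ε / 16 * R := by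
      rw [hRdef]
      field_simp
    rw [h3] at h2
    unfold ms
    linarith
  -- total mass is at most `2 R`
  have htot : ∀ z, z < W → (∀ p ∈ pr K, z % p ≠ 0) → ms lam W z 0 X ≤ 2 * R := by
    intro z hz hz'
    have h1 := hwin z hz hz' 0 X (Nat.zero_le _) le_rfl
    have h2 : ((X : ℝ) - (0 : ℕ)) / (V K * (W : ℝ)) = R := by
      rw [hRdef]
      simp
    rw [h2] at h1
    nlinarith
  set A : ℝ := ms a W u 0 X / R with hA
  set B : ℝ := ms b W v 0 X / R with hB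
  have hAm : ms a W u 0 X = A * R := by rw [hA]; field_simp
  have hBm : ms b W v 0 X = B * R := by rw [hB]; field_simp
  have hA0 : 0 ≤ A := div_nonneg (ms_nonneg ha0 _ _ _ _) hR0.le
  have hB0 : 0 ≤ B := div_nonneg (ms_nonneg hb0 _ _ _ _) hR0.le
  have hA2 : A ≤ 2 := by
    rw [hA, div_le_iff₀ hR0]
    exact (ms_le_lam hal W u 0 X).trans (htot u hu'.1 hu'.2)
  have hB2 : B ≤ 2 := by
    rw [hB, div_le_iff₀ hR0]
    exact (ms_le_lam hbl W v 0 X).trans (htot v hv'.1 hv'.2)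
  have hVR : V K * R = X / W := by rw [hRdef]; field_simp
  -- trivial case
  by_cases hsmall : A ≤ η ∨ B ≤ η
  · have h1 : A * B ≤ 2 * η := by
      rcases hsmall with h | h
      · calc A * B ≤ η * 2 := mul_le_mul h hB2 hB0 hη0.le
          _ = _ := by ring
      · exact mul_le_mul hA2 h hB0 (by norm_num)
    have h2 : Real.sqrt A * Real.sqrt B ≤ ε / 2 := by
      rw [← Real.sqrt_mul hA0]
      apply Real.sqrt_le_iff.2 ⟨by positivity, ?_⟩
      rw [hη] at h1
      nlinarith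
    refine le_trans ?_ (Nat.cast_nonneg _)
    apply mul_nonpos_of_nonneg_of_nonpos (by positivity)
    linarith
  push Not at hsmall
  obtain ⟨hAη, hBη⟩ := hsmall
  -- windows
  set σ : ℕ → ℕ := fun i => i * X / T with hσ
  have hσm : Monotone σ := fun i j hij => Nat.div_le_div_right (Nat.mul_le_mul_right X hij)
  have hσ0 : σ 0 = 0 := by simp [hσ]
  have hσT : σ T = X := by
    simp only [hσ]
    exact Nat.mul_div_cancel_left X hT0
  have hσX : ∀ i, i ≤ T → σ i ≤ X := fun i hi => (hσm hi).trans hσT.le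
  have hσw : ∀ i, ((σ (i + 1) : ℝ) - σ i) ≤ X / T + 1 := by
    intro i
    have h1 : (σ (i + 1) : ℝ) ≤ ((i + 1) * X : ℝ) / T := by
      simp only [hσ]
      have := Nat.cast_div_le (α := ℝ) (m := (i + 1) * X) (n := T)
      push_cast at this
      exact this
    have h2 : (i * X : ℝ) / T ≤ σ i + 1 := by
      simp only [hσ]
      rw [div_le_iff₀ hTR]
      have h3 := Nat.lt_div_mul_add (a := i * X) hT0
      have h4 : i * X ≤ (i * X / T + 1) * T := by
        rw [add_mul, one_mul]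
        exact h3.le
      exact_mod_cast h4
    have h3 : ((i + 1) * X : ℝ) / T = (i * X : ℝ) / T + X / T := by ring
    linarith
  have hwinm : ∀ z, z < W → (∀ p ∈ pr K, z % p ≠ 0) → ∀ i, i < T →
      ms lam W z (σ i) (σ (i + 1)) ≤ 3 * ε / 16 * R := by
    intro z hz hz' i hi
    have h1 := hwin z hz hz' (σ i) (σ (i + 1)) (hσm (Nat.le_succ i)) (hσX _ hi)
    have h2 : ((σ (i + 1) : ℝ) - σ i) / (V K * (W : ℝ)) ≤ ε / 8 * R := by
      rw [div_le_iff₀ hVW]
      have h3 : (X : ℝ) / T ≤ ε / 16 * X := by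
        calc (X : ℝ) / T = 1 / T * X := by ring
          _ ≤ ε / 16 * X := mul_le_mul_of_nonneg_right hT1 (by linarith)
      have h4 := hσw i
      calc (σ (i + 1) : ℝ) - σ i ≤ ε / 8 * X := by linarith
        _ = ε / 8 * R * (V K * (W : ℝ)) := by rw [mul_assoc, hRX]
    linarith
  -- the first window of `a`
  have hexI : ∀ (f : ℕ → ℝ) (z : ℕ), η * R < ms f W z 0 X →
      ((range T).filter (fun i => η * R / T ≤ ms f W z (σ i) (σ (i + 1)))).Nonempty := by
    intro f z hf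
    by_contra hne
    rw [Finset.not_nonempty_iff_eq_empty, Finset.filter_eq_empty_iff] at hne
    have h1 := ms_windows f W z σ hσm 0 T (Nat.zero_le _)
    rw [hσ0, hσT] at h1
    have h2 : ∑ k ∈ Finset.Ico 0 T, ms f W z (σ k) (σ (k + 1)) ≤ ∑ _k ∈ Finset.Ico 0 T, η * R / T := by
      refine Finset.sum_le_sum fun k hk => ?_
      rw [Finset.mem_Ico] at hk
      have := hne (Finset.mem_range.2 hk.2)
      exact (not_le.1 this).le
    rw [Finset.sum_const, Nat.card_Ico, Nat.sub_zero, nsmul_eq_mul] at h2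
    have h3 : (T : ℝ) * (η * R / T) = η * R := by field_simp
    linarith
  have hI := hexI a u (by rw [hAm]; exact mul_lt_mul_of_pos_right hAη hR0)
  have hJ := hexI b v (by rw [hBm]; exact mul_lt_mul_of_pos_right hBη hR0)
  set i := Finset.min' _ hI with hi
  set j := Finset.max' _ hJ with hj
  have hiI := Finset.min'_mem _ hI
  have hjJ := Finset.max'_mem _ hJ
  rw [← hi, Finset.mem_filter, Finset.mem_range] at hiI
  rw [← hj, Finset.mem_filter, Finset.mem_range] at hjJ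
  -- mass of `a` to the left of window `i`
  have hleft : ms a W u 0 (σ i) ≤ η * R := by
    have h1 := ms_windows a W u σ hσm 0 i (Nat.zero_le _)
    rw [hσ0] at h1
    rw [← h1]
    have h2 : ∑ k ∈ Finset.Ico 0 i, ms a W u (σ k) (σ (k + 1)) ≤ ∑ _k ∈ Finset.Ico 0 i, η * R / T := by
      refine Finset.sum_le_sum fun k hk => ?_
      rw [Finset.mem_Ico] at hk
      by_contra! hc
      have h3 : k ∈ (range T).filter (fun i => η * R / T ≤ ms a W u (σ i) (σ (i + 1))) := by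
        rw [Finset.mem_filter, Finset.mem_range]
        exact ⟨hk.2.trans hiI.1, hc.le⟩
      have := Finset.min'_le _ k h3
      rw [← hi] at this
      omega
    refine h2.trans ?_
    rw [Finset.sum_const, Nat.card_Ico, Nat.sub_zero, nsmul_eq_mul]
    have h3 : (i : ℝ) ≤ T := by exact_mod_cast hiI.1.le
    calc (i : ℝ) * (η * R / T) ≤ T * (η * R / T) := mul_le_mul_of_nonneg_right h3 (by positivity)
      _ = _ := by field_simp
  have hright : ms b W v (σ (j + 1)) X ≤ η * R := by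
    have h1 := ms_windows b W v σ hσm (j + 1) T hjJ.1
    rw [hσT] at h1
    rw [← h1]
    have h2 : ∑ k ∈ Finset.Ico (j + 1) T, ms b W v (σ k) (σ (k + 1)) ≤
        ∑ _k ∈ Finset.Ico (j + 1) T, η * R / T := by
      refine Finset.sum_le_sum fun k hk => ?_
      rw [Finset.mem_Ico] at hk
      by_contra! hc
      have h3 : k ∈ (range T).filter (fun i => η * R / T ≤ ms b W v (σ i) (σ (i + 1))) := by
        rw [Finset.mem_filter, Finset.mem_range]
        exact ⟨hk.2, hc.le⟩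
      have := Finset.le_max' _ k h3
      rw [← hj] at this
      omega
    refine h2.trans ?_
    rw [Finset.sum_const, Nat.card_Ico, nsmul_eq_mul]
    have h3 : ((T - (j + 1) : ℕ) : ℝ) ≤ T := by exact_mod_cast Nat.sub_le _ _
    calc ((T - (j + 1) : ℕ) : ℝ) * (η * R / T) ≤ T * (η * R / T) :=
          mul_le_mul_of_nonneg_right h3 (by positivity)
      _ = _ := by field_simp
  have hwa : ms a W u (σ i) (σ (i + 1)) ≤ 3 * ε / 16 * R :=
    (ms_le_lam hal W u _ _).trans (hwinm u hu'.1 hu'.2 i hiI.1)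
  have hwb : ms b W v (σ j) (σ (j + 1)) ≤ 3 * ε / 16 * R :=
    (ms_le_lam hbl W v _ _).trans (hwinm v hv'.1 hv'.2 j hjJ.1)
  have hG1 : (B - 4 * ε / 16) * R ≤ ms b W v 0 (σ j) := by
    have h1 := ms_add b W v (Nat.zero_le (σ j)) (hσX j hjJ.1.le)
    have h2 := ms_add b W v (hσm (Nat.le_succ j)) (hσX (j + 1) hjJ.1)
    have h3 := mul_le_mul_of_nonneg_right hηε hR0.le
    linarith
  have hG2 : (A - 4 * ε / 16) * R ≤ ms a W u (σ (i + 1)) X := by
    have h1 := ms_add a W u (Nat.zero_le (σ (i + 1))) (hσX (i + 1) hiI.1)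
    have h2 := ms_add a W u (Nat.zero_le (σ i)) (hσm (Nat.le_succ i))
    have h3 := mul_le_mul_of_nonneg_right hηε hR0.le
    linarith
  -- the two sets of sums
  set m := σ (i + 1) + σ j with hm
  set S := (range (2 * X + 1)).filter (fun N => N % W = (u + v) % W ∧ κ * X ≤ cv a b N) with hS
  set T₁ := S.filter (fun N => N ≤ m) with hT₁
  set T₂ := S.filter (fun N => ¬ N ≤ m) with hT₂
  have hcard : T₁.card + T₂.card = S.card := Finset.card_filter_add_card_filter_not _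
  have hsubS : S ⊆ range (2 * X + 1) := Finset.filter_subset _ _
  have hκX : 0 ≤ κ * X := by positivity
  have hlin : ∀ (z : ℕ) (f : ℕ → ℝ) (s t : ℕ), (∀ n, 0 ≤ f n) → (∀ n, f n ≤ lam n) → t ≤ X →
      (∀ n, 0 ≤ rs f W z s t n) ∧ (∀ n, rs f W z s t n ≤ lam n) ∧
      (∀ n, rs f W z s t n ≠ 0 → n ≤ X ∧ n % W = z) := by
    intro z f s t hf0 hfl htX
    refine ⟨fun n => rs_nonneg hf0 _ _ _ _ _, fun n => (rs_le hf0 _ _ _ _ _).trans (hfl n),
      fun n hn => ?_⟩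
    have := rs_ne hn
    exact ⟨this.1.2.trans htX, this.2⟩
  have herr : (2 * (X : ℝ) + 1) * (κ * X) ≤ 1 / Real.sqrt K * R ^ 2 := by
    have h1 : (2 * (X : ℝ) + 1) * (κ * X) ≤ 3 * X * (κ * X) :=
      mul_le_mul_of_nonneg_right (by linarith) hκX
    refine h1.trans (le_of_eq ?_)
    rw [hκ, hRdef]
    field_simp
  -- first half
  obtain ⟨p1, p2, p3⟩ := hlin u a (σ i) (σ (i + 1)) ha0 hal (hσX _ hiI.1)
  obtain ⟨q1, q2, q3⟩ := hlin v b 0 (σ j) hb0 hbl (hσX _ hjJ.1.le)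
  have half1 := hX₁ X hXa u v _ _ p1 p2 p3 q1 q2 q3 (κ * X) hκX T₁
    ((Finset.filter_subset _ _).trans hsubS) (by
      intro N hN hNT
      by_contra! hc
      apply hNT
      obtain ⟨x, hxN, hx1, hx2⟩ := cv_ne (ne_of_gt (lt_of_le_of_lt hκX hc))
      have h1 := rs_ne hx1
      have h2 := rs_ne hx2
      rw [hT₁, Finset.mem_filter, hS, Finset.mem_filter]
      refine ⟨⟨hN, ?_, ?_⟩, ?_⟩
      · have h3 : N = x + (N - x) := by omega
        rw [h3, Nat.add_mod, h1.2, h2.2]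
      · exact hc.le.trans (cv_mono p1 hb0 (fun n => rs_le ha0 _ _ _ _ _)
          (fun n => rs_le hb0 _ _ _ _ _) N)
      · have h3 := h1.1.2
        have h4 := h2.1.2
        omega)
  rw [sum_rs a W u (hσX _ hiI.1), sum_rs b W v (hσX _ hjJ.1.le)] at half1
  obtain ⟨r1, r2, r3⟩ := hlin v b (σ j) (σ (j + 1)) hb0 hbl (hσX _ hjJ.1)
  obtain ⟨s1, s2, s3⟩ := hlin u a (σ (i + 1)) X ha0 hal le_rfl
  have half2 := hX₁ X hXa v u _ _ r1 r2 r3 s1 s2 s3 (κ * X) hκX T₂
    ((Finset.filter_subset _ _).trans hsubS) (by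
      intro N hN hNT
      by_contra! hc
      apply hNT
      obtain ⟨x, hxN, hx1, hx2⟩ := cv_ne (ne_of_gt (lt_of_le_of_lt hκX hc))
      have h1 := rs_ne hx1
      have h2 := rs_ne hx2
      rw [hT₂, Finset.mem_filter, hS, Finset.mem_filter]
      refine ⟨⟨hN, ?_, ?_⟩, ?_⟩
      · have h3 : N = x + (N - x) := by omega
        rw [h3, Nat.add_mod, h1.2, h2.2, add_comm]
      · rw [cv_comm a b]
        exact hc.le.trans (cv_mono r1 ha0 (fun n => rs_le hb0 _ _ _ _ _)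
          (fun n => rs_le ha0 _ _ _ _ _) N)
      · have h3 := h1.1.1
        have h4 := h2.1.1
        omega)
  rw [sum_rs b W v (hσX _ hjJ.1), sum_rs a W u le_rfl] at half2
  have hBB : 140 / Real.sqrt K ≤ ε / 16 * (η / T) := by
    rw [div_le_iff₀ hsK]
    have h1 : 140 = ε / 16 * (η / T) * (2240 * T / (η * ε)) := by
      field_simp
      norm_num
    calc (140 : ℝ) = ε / 16 * (η / T) * (2240 * T / (η * ε)) := h1
      _ ≤ _ := mul_le_mul_of_nonneg_left hsK2 (by positivity)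
  have hB0' : (0 : ℝ) ≤ 140 / Real.sqrt K := by positivity
  have hsplit : 140 / Real.sqrt K * R ^ 2 = 1 / Real.sqrt K * R ^ 2 + 139 / Real.sqrt K * R ^ 2 := by
    ring
  have c1 := half_use (K := K) (X := X) (F := ms a W u (σ i) (σ (i + 1))) (G := ms b W v 0 (σ j))
    (R := R) (t := η / T) (ε' := ε / 16) (q := B - 4 * ε / 16) (B := 140 / Real.sqrt K)
    (n := T₁.card) hR0 hV (by
      calc η / T * R = η * R / T := by ring
        _ ≤ _ := hiI.2) (by positivity) (by linarith) hBB hB0' hG1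
  have c2 := half_use (K := K) (X := X) (F := ms b W v (σ j) (σ (j + 1)))
    (G := ms a W u (σ (i + 1)) X)
    (R := R) (t := η / T) (ε' := ε / 16) (q := A - 4 * ε / 16) (B := 140 / Real.sqrt K)
    (n := T₂.card) hR0 hV (by
      calc η / T * R = η * R / T := by ring
        _ ≤ _ := hjJ.2) (by positivity) (by linarith) hBB hB0' hG2
  rw [hVR] at c1 c2
  have hfin : (X : ℝ) / W * (2 * (Real.sqrt A * Real.sqrt B) - ε) ≤
      X / W * (B - 4 * ε / 16 - ε / 16) + X / W * (A - 4 * ε / 16 - ε / 16) := by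
    rw [← mul_add]
    exact mul_le_mul_of_nonneg_left (am_gm hε.le hA0 hB0) (by positivity)
  calc (X : ℝ) / W * (2 * (Real.sqrt A * Real.sqrt B) - ε) ≤ (T₁.card : ℝ) + T₂.card := by
        linarith
    _ = (S.card : ℝ) := by exact_mod_cast hcard

end Pool.Agent.Lib.MP_7b7e48_nt.SP
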