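import Pool.Agent.Lib.MP_7b7e48_nt.SP.Second
import Pool.Agent.Lib.MP_7b7e48_nt.GT.Transfer
import Pool.Agent.Lib.MP_7b7e48_nt.GT.UniformFinal
import Pool.Agent.Lib.MP_7b7e48_nt.GT.ClassUniform

/-! # The number of representations is almost never too large -/

set_option autoImplicit false

namespace Pool.Agent.Lib.MP_7b7e48_nt.SP

open Finset Pool.Agent.Lib.GT Pool.Agent.Lib.GT.LA Pool.Agent.Lib.GT.Robust

/-- convolution -/
noncomputable def cv (f g : ℕ → ℝ) (N : ℕ) : ℝ := ∑ x ∈ range (N + 1), f x * g (N - x)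

/-- For weights `f, g` below `lam` in unit classes, `f * g` exceeds `(V K)⁻¹ ∑ f` only little on
average. -/
theorem excess {K : ℕ} (hK : 2 ≤ K) : ∃ X₀ : ℕ, ∀ X : ℕ, X₀ ≤ X → ∀ u v : ℕ, ∀ f g : ℕ → ℝ,
    (∀ n, 0 ≤ f n) → (∀ n, f n ≤ lam n) → (∀ n, f n ≠ 0 → n ≤ X ∧ n % Wp K = u) →
    (∀ n, 0 ≤ g n) → (∀ n, g n ≤ lam n) → (∀ n, g n ≠ 0 → n ≤ X ∧ n % Wp K = v) →
    ∑ N ∈ range (2 * X + 1), max 0 (cv f g N - (V K)⁻¹ * ∑ x ∈ Finset.Icc 1 X, f x) ≤
      139 / Real.sqrt K * RR K X ^ 2 := by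
  classical
  obtain ⟨C, hC, hun⟩ := uniform
  have hW0 : 0 < Wp K := Wp_pos K
  have hVW := VW_pos K
  have hV := V_pos K
  have hKR : (2 : ℝ) ≤ K := by exact_mod_cast hK
  have hsK : 0 < Real.sqrt K := Real.sqrt_pos.2 (by linarith)
  set ε₁ : ℝ := 1 / (Real.sqrt K * (V K * (Wp K : ℝ)) ^ 2) with hε₁
  have hε₁0 : 0 < ε₁ := by positivity
  set K₁ : ℝ := 2 * (Wp K : ℝ) * (C + 1) with hK₁
  obtain ⟨w₀, htr⟩ := transfer K₁ ε₁ hε₁0
  obtain ⟨w, hw⟩ : ∃ w, w = max w₀ K := ⟨_, rfl⟩
  have hww : w₀ ≤ w := hw ▸ le_max_left _ _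
  have hwK : K ≤ w := hw ▸ le_max_right _ _
  have hw2 : 2 ≤ w := hK.trans hwK
  have hwpos : (0 : ℝ) < (w : ℝ) ^ (-(1 / 3) : ℝ) := by
    have : (0 : ℝ) < w := by exact_mod_cast (by omega : 0 < w)
    positivity
  obtain ⟨X₁, hX₁⟩ := hun w hw2 ((w : ℝ) ^ (-(1 / 3) : ℝ)) hwpos
  obtain ⟨X₂, hX₂⟩ := htr w hww
  obtain ⟨X₃, hX₃⟩ := second hK hwK
  refine ⟨max (max X₁ X₂) X₃, fun X hX u v f g hf0 hfl hfu hg0 hgl hgv => ?_⟩
  have hXa : X₁ ≤ X := (le_max_left _ _).trans ((le_max_left _ _).trans hX)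
  have hXb : X₂ ≤ X := (le_max_right _ _).trans ((le_max_left _ _).trans hX)
  have hXc : X₃ ≤ X := (le_max_right _ _).trans hX
  -- the function `h`
  set om : ℕ → ℝ := fun n => if n % Wp K = v then 1 else 0 with hom
  set h : ℕ → ℝ := fun n => if 1 ≤ n ∧ n ≤ X then om n * (lam n - Lw w n) else 0 with hh
  set Lv : ℕ → ℝ := fun n => if 1 ≤ n ∧ n ≤ X then om n * Lw w n else 0 with hLv
  have hom1 : ∀ n, |om n| ≤ 1 := by
    intro n
    rw [hom]
    simp only
    split_ifs <;> simp
  have hom0 : ∀ n, 0 ≤ om n := by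
    intro n
    rw [hom]
    simp only
    split_ifs <;> simp
  have homper : ∀ n, om (n + Wp K) = om n := by
    intro n
    rw [hom]
    simp
  have hhabs : ∀ n, |h n| ≤ lam n + Lw w n := by
    intro n
    rw [hh]
    simp only
    have h1 := lam_nonneg n
    have h2 := Lw_nonneg w n
    split_ifs
    · rw [abs_mul]
      calc |om n| * |lam n - Lw w n| ≤ 1 * |lam n - Lw w n| :=
            mul_le_mul_of_nonneg_right (hom1 n) (abs_nonneg _)
        _ = |lam n - Lw w n| := one_mul _
        _ ≤ |lam n| + |Lw w n| := abs_sub _ _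
        _ = _ := by rw [abs_of_nonneg h1, abs_of_nonneg h2]
    · rw [abs_zero]
      linarith
  have hfourier : ∀ α : ℝ, ‖∑ n ∈ Finset.Icc 1 X, (h n : ℂ) * e (α * n)‖ ≤
      K₁ * (w : ℝ) ^ (-(1 / 3) : ℝ) * X := by
    intro α
    have h1 := class_uniform hW0 (X := X) (E := (C * (w : ℝ) ^ (-(1 / 3) : ℝ) +
      (w : ℝ) ^ (-(1 / 3) : ℝ)) * X) (g := fun n => lam n - Lw w n)
      (fun Y hY α => hX₁ X hXa Y hY α) homper (B := 1) hom1 (Nat.zero_le X) le_rfl α
    have h2 : ∑ n ∈ Finset.Icc 1 X, (h n : ℂ) * e (α * n) =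
        ∑ n ∈ Finset.Ioc 0 X, ((om n * (lam n - Lw w n) : ℝ) : ℂ) * e (α * n) := by
      have h3 : Finset.Icc 1 X = Finset.Ioc 0 X := by
        ext n
        rw [Finset.mem_Icc, Finset.mem_Ioc]
        omega
      rw [h3]
      refine Finset.sum_congr rfl fun n hn => ?_
      rw [Finset.mem_Ioc] at hn
      rw [hh]
      simp only
      rw [if_pos ⟨by omega, hn.2⟩]
    rw [h2]
    refine h1.trans (le_of_eq ?_)
    rw [hK₁]
    ring
  have htrans := hX₂ X hXb f h (fun n => by rw [abs_of_nonneg (hf0 n)]; exact hfl n) hhabs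
    (fun n hn => ⟨by
      by_contra h1
      exact absurd (hfu n h1).1 (by omega), by
      rw [hh]
      simp only
      rw [if_neg (by omega)]⟩) hfourier
  have hsec := hX₃ X hXc u ((u + v) % Wp K) f hf0 hfl (fun n hn => (hfu n hn).2)
  set F : ℝ := ∑ x ∈ Finset.Icc 1 X, f x with hF
  have hF0 : 0 ≤ F := Finset.sum_nonneg fun x _ => hf0 x
  have hVinv : 0 ≤ (V K)⁻¹ := inv_nonneg.2 hV.le
  -- pointwise
  have hgle : ∀ n, g n ≤ Lv n + h n := by
    intro n
    by_cases hn : g n = 0
    · rw [hn, hLv, hh]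
      simp only
      split_ifs with h1
      · have := mul_nonneg (hom0 n) (lam_nonneg n)
        linarith
      · simp
    · obtain ⟨h1, h2⟩ := hgv n hn
      have h3 : 1 ≤ n := by
        by_contra h4
        have : n = 0 := by omega
        apply hn
        rw [this]
        refine le_antisymm ?_ (hg0 0)
        have h5 := hgl 0
        have h6 : lam 0 = 0 := by
          unfold lam
          rw [if_neg Nat.not_prime_zero]
        linarith
      rw [hLv, hh]
      simp only
      rw [if_pos ⟨h3, h1⟩, if_pos ⟨h3, h1⟩, hom]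
      simp only
      rw [if_pos h2]
      have := hgl n
      linarith
  have hcvle : ∀ N, cv f g N ≤ cv f Lv N + cv f h N := by
    intro N
    unfold cv
    rw [← Finset.sum_add_distrib]
    refine Finset.sum_le_sum fun x _ => ?_
    rw [← mul_add]
    exact mul_le_mul_of_nonneg_left (hgle _) (hf0 x)
  have hLvle : ∀ N, cv f Lv N ≤ (V K)⁻¹ * ∑ x ∈ Finset.Icc 1 X, f x * ell (prI K w) N x := by
    intro N
    unfold cv
    rw [Finset.mul_sum]
    have hPp : ∀ p ∈ prI K w, 2 ≤ p := fun p hp => (mem_prI.1 hp).2.2.two_le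
    have h1 : ∀ x ∈ range (N + 1), f x * Lv (N - x) ≤
        (if x ∈ Finset.Icc 1 X then (V K)⁻¹ * (f x * ell (prI K w) N x) else 0) := by
      intro x hx
      rw [Finset.mem_range] at hx
      by_cases hfx : f x = 0
      · rw [hfx]
        split_ifs <;> simp
      · obtain ⟨h2, h3⟩ := hfu x hfx
        have h4 : 1 ≤ x := by
          by_contra h5
          have : x = 0 := by omega
          apply hfx
          rw [this]
          refine le_antisymm ?_ (hf0 0)
          have h5 := hfl 0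
          have h6 : lam 0 = 0 := by
            unfold lam
            rw [if_neg Nat.not_prime_zero]
          linarith
        rw [if_pos (Finset.mem_Icc.2 ⟨h4, h2⟩)]
        have h5 : Lv (N - x) ≤ Lw w (N - x) := by
          rw [hLv]
          simp only
          have h6 := Lw_nonneg w (N - x)
          split_ifs
          · rw [hom]
            simp only
            split_ifs
            · rw [one_mul]
            · rw [zero_mul]
              exact h6
          · exact h6
        have h6 := Lw_le_ell (K := K) hwK (show x ≤ N by omega)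
        calc f x * Lv (N - x) ≤ f x * ((V K)⁻¹ * ell (prI K w) N x) :=
              mul_le_mul_of_nonneg_left (h5.trans h6) (hf0 x)
          _ = _ := by ring
    refine (Finset.sum_le_sum h1).trans ?_
    rw [← Finset.sum_filter]
    refine Finset.sum_le_sum_of_subset_of_nonneg ?_ fun x _ _ => ?_
    · intro x hx
      rw [Finset.mem_filter] at hx
      exact hx.2
    · exact mul_nonneg hVinv (mul_nonneg (hf0 x) (ell_nonneg hPp N x))
  have hLvzero : ∀ N, N % Wp K ≠ (u + v) % Wp K → cv f Lv N = 0 := by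
    intro N hN
    unfold cv
    refine Finset.sum_eq_zero fun x hx => ?_
    rw [Finset.mem_range] at hx
    by_cases hfx : f x = 0
    · rw [hfx, zero_mul]
    · obtain ⟨h2, h3⟩ := hfu x hfx
      have h4 : Lv (N - x) = 0 := by
        rw [hLv]
        simp only
        split_ifs
        · rw [hom]
          simp only
          rw [if_neg, zero_mul]
          intro h5
          apply hN
          have : N = x + (N - x) := by omega
          rw [this, Nat.add_mod, h3, h5]
        · rfl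
      rw [h4, mul_zero]
  set g₂ : ℕ → ℝ := fun N => |∑ x ∈ Finset.Icc 1 X, f x * ell (prI K w) N x - F| with hg₂
  have hpt : ∀ N, max 0 (cv f g N - (V K)⁻¹ * F) ≤
      (if N % Wp K = (u + v) % Wp K then (V K)⁻¹ * g₂ N else 0) + |cv f h N| := by
    intro N
    have h1 := hcvle N
    have h2 := le_abs_self (cv f h N)
    have h3 := abs_nonneg (cv f h N)
    refine max_le ?_ ?_
    · split_ifs
      · have : 0 ≤ (V K)⁻¹ * g₂ N := mul_nonneg hVinv (abs_nonneg _)
        linarith
      · linarith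
    · split_ifs with h4
      · have h5 := hLvle N
        have h6 : (V K)⁻¹ * (∑ x ∈ Finset.Icc 1 X, f x * ell (prI K w) N x) - (V K)⁻¹ * F ≤
            (V K)⁻¹ * g₂ N := by
          rw [← mul_sub]
          exact mul_le_mul_of_nonneg_left (le_abs_self _) hVinv
        linarith
      · have h5 := hLvzero N h4
        have h6 : 0 ≤ (V K)⁻¹ * F := mul_nonneg hVinv hF0
        linarith
  have hRX : RR K X * (V K * (Wp K : ℝ)) = X := by
    unfold RR
    field_simp
  calc ∑ N ∈ range (2 * X + 1), max 0 (cv f g N - (V K)⁻¹ * F)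
      ≤ ∑ N ∈ range (2 * X + 1), ((if N % Wp K = (u + v) % Wp K then (V K)⁻¹ * g₂ N else 0) +
          |cv f h N|) := Finset.sum_le_sum fun N _ => hpt N
    _ = (V K)⁻¹ * ∑ N ∈ (range (2 * X + 1)).filter (fun N => N % Wp K = (u + v) % Wp K), g₂ N +
          ∑ N ∈ range (2 * X + 1), |cv f h N| := by
        rw [Finset.sum_add_distrib, ← Finset.sum_filter, Finset.mul_sum]
    _ ≤ (V K)⁻¹ * (138 / Real.sqrt K * RR K X * (X / Wp K)) + ε₁ * X ^ 2 :=
        add_le_add (mul_le_mul_of_nonneg_left hsec hVinv) htrans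
    _ = 139 / Real.sqrt K * RR K X ^ 2 := by
        have hWR : (0 : ℝ) < Wp K := by exact_mod_cast hW0
        rw [hε₁]
        conv_lhs => rw [← hRX]
        field_simp
        ring

end Pool.Agent.Lib.MP_7b7e48_nt.SP
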