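import Mathlib

/-! # Functional Cauchy-Davenport inequality on the nonzero residues modulo `p ≥ 5` -/

set_option autoImplicit false

namespace Pool.Agent.Lib.MP_7b7e48_nt.SP

open Finset

/-- indicator of `l ≤ x` -/
noncomputable def ind (x l : ℝ) : ℝ := if l ≤ x then 1 else 0

theorem ind_integrable (x : ℝ) : IntervalIntegrable (ind x) MeasureTheory.volume 0 1 := by
  have h : ind x = Set.indicator (Set.Iic x) (fun _ => (1 : ℝ)) := by
    funext l
    simp [ind, Set.indicator]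
  rw [h, intervalIntegrable_iff]
  exact MeasureTheory.Integrable.indicator (MeasureTheory.integrableOn_const (by simp)) measurableSet_Iic

theorem int_ind {x : ℝ} (h0 : 0 ≤ x) (h1 : x ≤ 1) : ∫ l in (0 : ℝ)..1, ind x l = x := by
  have h : ind x = Set.indicator {l | l ≤ x} (fun _ => (1 : ℝ)) := by
    funext l
    simp [ind, Set.indicator]
  rw [h, intervalIntegral.integral_indicator ⟨h0, h1⟩]
  simp

/-- combinatorial part -/
theorem comb {p a b a' b' H : ℕ} (hp : 3 ≤ p) (ha : a < p) (hb : b < p) (ha' : a' ≤ a)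
    (hb' : b' ≤ b) (hHa : a ≤ H) (hHb : b ≤ H) (h0 : 1 ≤ a') (h0' : 1 ≤ b')
    (hH : min p (a' + b' - 1) ≤ H) :
    ((p : ℝ) - 3) * (((a : ℝ) + b) / 2) + ((a' : ℝ) + b') - 1 ≤ ((p : ℝ) - 2) * H := by
  have hpR : (3 : ℝ) ≤ p := by exact_mod_cast hp
  obtain ⟨N, hN⟩ : ∃ N, N = max a b := ⟨_, rfl⟩
  have hNa : a ≤ N := hN ▸ le_max_left _ _
  have hNb : b ≤ N := hN ▸ le_max_right _ _
  have hNH : N ≤ H := hN ▸ max_le hHa hHb
  have hNp : N + 1 ≤ p := by omega
  have hNaR : (a : ℝ) ≤ N := by exact_mod_cast hNa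
  have hNbR : (b : ℝ) ≤ N := by exact_mod_cast hNb
  have hNHR : (N : ℝ) ≤ H := by exact_mod_cast hNH
  have hNpR : (N : ℝ) + 1 ≤ p := by exact_mod_cast hNp
  have h1 : ((p : ℝ) - 3) * (((a : ℝ) + b) / 2) ≤ ((p : ℝ) - 3) * N :=
    mul_le_mul_of_nonneg_left (by linarith) (by linarith)
  rcases le_or_gt (a' + b' - 1) p with h | h
  · have h2 : a' + b' ≤ H + 1 := by
      rw [min_eq_right h] at hH
      omega
    have h2R : (a' : ℝ) + b' ≤ H + 1 := by exact_mod_cast h2
    have h3 : ((p : ℝ) - 3) * N ≤ ((p : ℝ) - 3) * H := mul_le_mul_of_nonneg_left hNHR (by linarith)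
    linarith
  · have h2 : p ≤ H := by
      rw [min_eq_left h.le] at hH
      exact hH
    have h2R : (p : ℝ) ≤ H := by exact_mod_cast h2
    have h3 : a' + b' ≤ 2 * N := by omega
    have h3R : (a' : ℝ) + b' ≤ 2 * N := by exact_mod_cast h3
    have h4 : ((p : ℝ) - 2) * p ≤ ((p : ℝ) - 2) * H := mul_le_mul_of_nonneg_left h2R (by linarith)
    nlinarith

open scoped Pointwise in
/-- the linear lower bound for the sup-convolution -/
theorem linear_bound (p : ℕ) [Fact p.Prime] (hp : 3 ≤ p) (f g F : ZMod p → ℝ)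
    (hf : ∀ u, 0 ≤ f u) (hg : ∀ u, 0 ≤ g u) (hF : ∀ u, 0 ≤ F u) (f0 : f 0 = 0) (g0 : g 0 = 0)
    (f1 : ∀ u, f u ≤ 1) (g1 : ∀ u, g u ≤ 1) (fm : ∃ u, f u = 1) (gm : ∃ v, g v = 1)
    (h : ∀ u v, f u * g v ≤ F (u + v)) :
    ((p : ℝ) - 3) * ((∑ u, f u + ∑ u, g u) / 2) + (∑ u, f u ^ 2 + ∑ u, g u ^ 2) - 1 ≤
      ((p : ℝ) - 2) * ∑ z, F z := by
  classical
  have hprime : p.Prime := Fact.out
  have hpR : (3 : ℝ) ≤ p := by exact_mod_cast hp
  obtain ⟨u₁, hu₁⟩ := fm
  obtain ⟨v₁, hv₁⟩ := gm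
  have hint : ∀ (G : ZMod p → ℝ), IntervalIntegrable (fun l => ∑ u, ind (G u) l)
      MeasureTheory.volume 0 1 := by
    intro G
    have : (fun l => ∑ u, ind (G u) l) = ∑ u, ind (G u) := by
      funext l
      simp
    rw [this]
    exact IntervalIntegrable.sum _ fun u _ => ind_integrable (G u)
  have hval : ∀ (G : ZMod p → ℝ), (∀ u, 0 ≤ G u) → (∀ u, G u ≤ 1) →
      ∫ l in (0 : ℝ)..1, ∑ u, ind (G u) l = ∑ u, G u := by
    intro G h0 h1
    rw [intervalIntegral.integral_finsetSum fun u _ => ind_integrable (G u)]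
    exact Finset.sum_congr rfl fun u _ => int_ind (h0 u) (h1 u)
  have hcard : ∀ (G : ZMod p → ℝ) (l : ℝ), ∑ u, ind (G u) l = ((univ.filter fun u => l ≤ G u).card : ℝ) := by
    intro G l
    unfold ind
    rw [Finset.sum_boole]
  -- the pointwise inequality
  have hpt : ∀ l ∈ Set.Icc (0 : ℝ) 1, 0 < l →
      ((p : ℝ) - 3) * ((∑ u, ind (f u) l + ∑ u, ind (g u) l) / 2) +
        (∑ u, ind (f u ^ 2) l + ∑ u, ind (g u ^ 2) l) - 1 ≤
      ((p : ℝ) - 2) * ∑ z, ind (min (F z) 1) l := by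
    intro l hl hl0
    rw [hcard f, hcard g, hcard (fun u => f u ^ 2), hcard (fun u => g u ^ 2),
      hcard (fun z => min (F z) 1)]
    have hlt : ∀ G : ZMod p → ℝ, G 0 = 0 → (univ.filter fun u => l ≤ G u).card < p := by
      intro G hG
      have h1 : (univ.filter fun u => l ≤ G u) ⊂ univ := by
        rw [Finset.ssubset_univ_iff]
        intro h2
        have : (0 : ZMod p) ∈ univ.filter fun u => l ≤ G u := by rw [h2]; simp
        rw [Finset.mem_filter, hG] at this
        linarith [this.2]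
      have h2 := Finset.card_lt_card h1
      rwa [Finset.card_univ, ZMod.card] at h2
    have hsub : ∀ G : ZMod p → ℝ, (∀ u, 0 ≤ G u) → (∀ u, G u ≤ 1) →
        (univ.filter fun u => l ≤ G u ^ 2).card ≤ (univ.filter fun u => l ≤ G u).card := by
      intro G h0 h1
      refine Finset.card_le_card fun u hu => ?_
      rw [Finset.mem_filter] at hu ⊢
      refine ⟨hu.1, hu.2.trans ?_⟩
      have := h0 u
      have := h1 u
      nlinarith
    refine comb hp (hlt f f0) (hlt g g0) (hsub f hf f1) (hsub g hg g1) ?_ ?_ ?_ ?_ ?_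
    · refine Finset.card_le_card_of_injOn (fun u => u + v₁) ?_ fun x _ y _ hxy => by simpa using hxy
      intro u hu
      rw [Finset.mem_coe, Finset.mem_filter] at hu ⊢
      refine ⟨Finset.mem_univ _, le_min ?_ hl.2⟩
      have := h u v₁
      rw [hv₁, mul_one] at this
      exact hu.2.trans this
    · refine Finset.card_le_card_of_injOn (fun v => u₁ + v) ?_ fun x _ y _ hxy => by simpa using hxy
      intro v hv
      rw [Finset.mem_coe, Finset.mem_filter] at hv ⊢
      refine ⟨Finset.mem_univ _, le_min ?_ hl.2⟩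
      have := h u₁ v
      rw [hu₁, one_mul] at this
      exact hv.2.trans this
    · refine Finset.card_pos.2 ⟨u₁, ?_⟩
      rw [Finset.mem_filter, hu₁]
      exact ⟨Finset.mem_univ _, by simpa using hl.2⟩
    · refine Finset.card_pos.2 ⟨v₁, ?_⟩
      rw [Finset.mem_filter, hv₁]
      exact ⟨Finset.mem_univ _, by simpa using hl.2⟩
    · have hcd := ZMod.cauchy_davenport hprime (s := univ.filter fun u => l ≤ f u ^ 2)
        (t := univ.filter fun u => l ≤ g u ^ 2)
        ⟨u₁, by rw [Finset.mem_filter, hu₁]; exact ⟨Finset.mem_univ _, by simpa using hl.2⟩⟩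
        ⟨v₁, by rw [Finset.mem_filter, hv₁]; exact ⟨Finset.mem_univ _, by simpa using hl.2⟩⟩
      refine hcd.trans (Finset.card_le_card ?_)
      intro z hz
      rw [Finset.mem_add] at hz
      obtain ⟨u, hu, v, hv, rfl⟩ := hz
      rw [Finset.mem_filter] at hu hv ⊢
      refine ⟨Finset.mem_univ _, le_min ?_ hl.2⟩
      refine le_trans ?_ (h u v)
      have h1 : l ^ 2 ≤ (f u * g v) ^ 2 := by
        rw [mul_pow, sq]
        exact mul_le_mul hu.2 hv.2 hl0.le (sq_nonneg _)
      exact le_of_sq_le_sq h1 (mul_nonneg (hf u) (hg v))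
  have hmono := intervalIntegral.integral_mono_on_of_le_Ioo (a := (0 : ℝ)) (b := 1) zero_le_one
    (f := fun l => ((p : ℝ) - 3) * ((∑ u, ind (f u) l + ∑ u, ind (g u) l) / 2) +
        (∑ u, ind (f u ^ 2) l + ∑ u, ind (g u ^ 2) l) - 1)
    (g := fun l => ((p : ℝ) - 2) * ∑ z, ind (min (F z) 1) l)
    (((((hint f).add (hint g)).div_const 2).const_mul _).add
      ((hint fun u => f u ^ 2).add (hint fun u => g u ^ 2)) |>.sub intervalIntegrable_const)
    ((hint fun z => min (F z) 1).const_mul _)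
    (fun l hl => hpt l ⟨hl.1.le, hl.2.le⟩ hl.1)
  rw [intervalIntegral.integral_sub, intervalIntegral.integral_add,
    intervalIntegral.integral_const_mul, intervalIntegral.integral_const_mul,
    intervalIntegral.integral_div, intervalIntegral.integral_add (hint f) (hint g),
    intervalIntegral.integral_add (hint fun u => f u ^ 2) (hint fun u => g u ^ 2),
    hval f hf f1, hval g hg g1, hval (fun u => f u ^ 2) (fun u => sq_nonneg _)
      (fun u => pow_le_one₀ (hf u) (f1 u)), hval (fun u => g u ^ 2) (fun u => sq_nonneg _)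
      (fun u => pow_le_one₀ (hg u) (g1 u)), hval (fun z => min (F z) 1)
      (fun z => le_min (hF z) zero_le_one) (fun z => min_le_right _ _)] at hmono
  · simp only [intervalIntegral.integral_const, sub_zero, smul_eq_mul, mul_one] at hmono
    refine hmono.trans (mul_le_mul_of_nonneg_left ?_ (by linarith))
    exact Finset.sum_le_sum fun z _ => min_le_left _ _
  · exact (((hint f).add (hint g)).div_const 2).const_mul _
  · exact (hint fun u => f u ^ 2).add (hint fun u => g u ^ 2)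
  · exact ((((hint f).add (hint g)).div_const 2).const_mul _).add
      ((hint fun u => f u ^ 2).add (hint fun u => g u ^ 2))
  · exact intervalIntegrable_const

/-- log-convexity of the norms -/
theorem holder_sum {ι : Type*} (s : Finset ι) (f : ι → ℝ) (hf : ∀ i, 0 ≤ f i) {r : ℝ}
    (h1 : 1 < r) (h2 : r < 2) :
    ∑ i ∈ s, f i ^ r ≤ (∑ i ∈ s, f i) ^ (2 - r) * (∑ i ∈ s, f i ^ 2) ^ (r - 1) := by
  have ha : 0 < 2 - r := by linarith
  have hb : 0 < r - 1 := by linarith
  have hpq : (1 / (2 - r)).HolderConjugate (1 / (r - 1)) := by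
    rw [Real.holderConjugate_iff]
    refine ⟨?_, ?_⟩
    · rw [lt_div_iff₀ ha]
      linarith
    · rw [one_div, one_div, inv_inv, inv_inv]
      ring
  have h := Real.inner_le_Lp_mul_Lq_of_nonneg (s := s) (f := fun i => f i ^ (2 - r))
    (g := fun i => f i ^ (2 * (r - 1))) hpq (fun i _ => Real.rpow_nonneg (hf i) _)
    (fun i _ => Real.rpow_nonneg (hf i) _)
  have e1 : ∀ i, f i ^ (2 - r) * f i ^ (2 * (r - 1)) = f i ^ r := by
    intro i
    rw [← Real.rpow_add_of_nonneg (hf i) ha.le (by linarith)]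
    congr 1
    ring
  have e2 : ∀ i, (f i ^ (2 - r)) ^ (1 / (2 - r)) = f i := by
    intro i
    rw [← Real.rpow_mul (hf i), mul_one_div_cancel ha.ne', Real.rpow_one]
  have e3 : ∀ i, (f i ^ (2 * (r - 1))) ^ (1 / (r - 1)) = f i ^ 2 := by
    intro i
    rw [← Real.rpow_mul (hf i), mul_assoc, mul_one_div_cancel hb.ne', mul_one]
    norm_num
  simp only [e1, e2, e3, one_div_one_div] at h
  exact h

/-- the real inequality behind the norm bound -/
theorem rpow_part {n δ A Z : ℝ} (hn : 4 ≤ n) (hδ0 : 0 < δ) (hδ : n ^ δ = 1 + 1 / n)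
    (hZ1 : 1 ≤ Z) (hZA : Z ≤ A) (hZn : Z ≤ n) :
    (n - 1) * (A ^ (2 * δ) * Z ^ (1 - δ)) ≤ (n - 2) * A + 2 * Z - 1 := by
  have hn0 : 0 < n := by linarith
  have hZ0 : 0 < Z := by linarith
  have hA0 : 0 < A := by linarith
  -- `δ` is small
  have hδ4 : δ * Real.log n ≤ 1 / n := by
    have h1 : δ * Real.log n = Real.log (1 + 1 / n) := by
      rw [← hδ, Real.log_rpow hn0]
    rw [h1]
    have := Real.log_le_sub_one_of_pos (show 0 < 1 + 1 / n by positivity)
    linarith
  have hlog : 1.386 ≤ Real.log n := by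
    have h1 : Real.log 4 ≤ Real.log n := Real.log_le_log (by norm_num) hn
    have h2 : Real.log 4 = 2 * Real.log 2 := by
      rw [show (4 : ℝ) = 2 ^ (2 : ℕ) by norm_num, Real.log_pow]
      norm_num
    have := Real.log_two_gt_d9
    linarith
  have hn4 : 1 / n ≤ 1 / 4 := one_div_le_one_div_of_le (by norm_num) hn
  have hδ5 : δ ≤ 0.19 := by
    by_contra! hc
    have : 0.19 * 1.386 < δ * Real.log n := by nlinarith
    norm_num at this
    linarith
  -- Bernoulli
  have hB : (A / Z) ^ (2 * δ) ≤ 1 + 2 * δ * (A / Z - 1) := by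
    have := rpow_one_add_le_one_add_mul_self (s := A / Z - 1) (p := 2 * δ) (by
      have : 0 < A / Z := by positivity
      linarith) (by linarith) (by linarith)
    rwa [add_sub_cancel] at this
  have hsplit : A ^ (2 * δ) * Z ^ (1 - δ) = Z ^ (1 + δ) * (A / Z) ^ (2 * δ) := by
    rw [Real.div_rpow hA0.le hZ0.le, mul_div_assoc', eq_div_iff (by positivity)]
    have : Z ^ (1 - δ) * Z ^ (2 * δ) = Z ^ (1 + δ) := by
      rw [← Real.rpow_add hZ0]
      congr 1
      ring
    calc A ^ (2 * δ) * Z ^ (1 - δ) * Z ^ (2 * δ) = (Z ^ (1 - δ) * Z ^ (2 * δ)) * A ^ (2 * δ) := by ring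
      _ = _ := by rw [this]
  have hZδ : Z ^ δ ≤ 1 + 1 / n := by
    rw [← hδ]
    exact Real.rpow_le_rpow hZ0.le hZn hδ0.le
  have hZ1δ : Z ^ (1 + δ) = Z ^ δ * Z := by
    rw [add_comm, Real.rpow_add_one hZ0.ne']
  -- convexity
  have hconv : (n - 1) * Z ^ (1 + δ) ≤ n * Z - 1 := by
    have hc := (convexOn_rpow (show (1 : ℝ) ≤ 1 + δ by linarith)).2 (Set.mem_Ici.2 zero_le_one)
      (Set.mem_Ici.2 hn0.le) (show 0 ≤ (n - Z) / (n - 1) by
        apply div_nonneg <;> linarith) (show 0 ≤ (Z - 1) / (n - 1) by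
        apply div_nonneg <;> linarith) (by
        rw [← add_div, div_eq_one_iff_eq (by linarith)]
        ring)
    simp only [smul_eq_mul, mul_one, Real.one_rpow] at hc
    have e1 : (n - Z) / (n - 1) + (Z - 1) / (n - 1) * n = Z := by
      rw [div_mul_eq_mul_div, ← add_div, div_eq_iff (by linarith)]
      ring
    have e2 : n ^ (1 + δ) = n + 1 := by
      rw [add_comm, Real.rpow_add_one hn0.ne', hδ]
      field_simp
    rw [e1, e2] at hc
    have h3 : (n - 1) * Z ^ (1 + δ) ≤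
        (n - 1) * ((n - Z) / (n - 1) + (Z - 1) / (n - 1) * (n + 1)) :=
      mul_le_mul_of_nonneg_left hc (by linarith)
    refine h3.trans (le_of_eq ?_)
    have : n - 1 ≠ 0 := by linarith
    field_simp
    ring
  have hstep : A ^ (2 * δ) * Z ^ (1 - δ) ≤ Z ^ (1 + δ) + 2 * δ * (1 + 1 / n) * (A - Z) := by
    rw [hsplit]
    calc Z ^ (1 + δ) * (A / Z) ^ (2 * δ) ≤ Z ^ (1 + δ) * (1 + 2 * δ * (A / Z - 1)) :=
          mul_le_mul_of_nonneg_left hB (by positivity)
      _ = Z ^ (1 + δ) + 2 * δ * (Z ^ δ) * (A - Z) := by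
          rw [hZ1δ]
          field_simp
      _ ≤ _ := by
          have : 0 ≤ A - Z := by linarith
          have h1 : 2 * δ * Z ^ δ ≤ 2 * δ * (1 + 1 / n) :=
            mul_le_mul_of_nonneg_left hZδ (by linarith)
          have := mul_le_mul_of_nonneg_right h1 this
          linarith
  have hfin : (n - 1) * (2 * δ * (1 + 1 / n)) ≤ n - 2 := by
    have h1 : 2 * δ * (1 + 1 / n) ≤ 2 * 0.19 * (1 + 1 / 4) := by
      have : 0 < 1 / n := by positivity
      nlinarith
    have h2 : (n - 1) * (2 * δ * (1 + 1 / n)) ≤ (n - 1) * (2 * 0.19 * (1 + 1 / 4)) :=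
      mul_le_mul_of_nonneg_left h1 (by linarith)
    have h3 : (n - 1) * (2 * 0.19 * (1 + 1 / 4)) ≤ n - 2 := by
      norm_num
      linarith
    exact h2.trans h3
  have h4 : (n - 1) * (2 * δ * (1 + 1 / n)) * (A - Z) ≤ (n - 2) * (A - Z) :=
    mul_le_mul_of_nonneg_right hfin (by linarith)
  have h5 : (n - 1) * (A ^ (2 * δ) * Z ^ (1 - δ)) ≤
      (n - 1) * (Z ^ (1 + δ) + 2 * δ * (1 + 1 / n) * (A - Z)) :=
    mul_le_mul_of_nonneg_left hstep (by linarith)
  nlinarith

end Pool.Agent.Lib.MP_7b7e48_nt.SP
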