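import Pool.Agent.Lib.MP_7b7e48_nt.SP.Prime

/-! # The mixed norm over a list of primes -/

set_option autoImplicit false

namespace Pool.Agent.Lib.MP_7b7e48_nt.SP

open Finset

/-- the elements of `U` congruent to `a` modulo `p` -/
def fib (U : Finset ℕ) (p a : ℕ) : Finset ℕ := U.filter fun u => u % p = a

theorem mem_fib {U : Finset ℕ} {p a u : ℕ} : u ∈ fib U p a ↔ u ∈ U ∧ u % p = a := by
  unfold fib
  rw [Finset.mem_filter]

theorem sum_fib (U : Finset ℕ) {p : ℕ} (hp : 0 < p) (F : ℕ → ℝ) :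
    ∑ a ∈ range p, ∑ x ∈ fib U p a, F x = ∑ x ∈ U, F x :=
  Finset.sum_fiberwise_of_maps_to (fun x _ => Finset.mem_range.2 (Nat.mod_lt x hp)) F

/-- mixed norm: the primes of the list from the outside to the inside -/
noncomputable def Nrm : List ℕ → Finset ℕ → (ℕ → ℝ) → ℝ
  | [], U, f => ∑ u ∈ U, f u
  | (p :: L), U, f =>
    (((p : ℝ) - 1)⁻¹ * ∑ a ∈ range p, Nrm L (fib U p a) f ^ rr p) ^ (1 / rr p)

/-- the elements of `U` are determined by their residues -/
def Inj (L : List ℕ) (U : Finset ℕ) : Prop :=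
  ∀ u ∈ U, ∀ u' ∈ U, (∀ p ∈ L, u % p = u' % p) → u = u'

/-- the elements of `U` are units -/
def Unt (L : List ℕ) (U : Finset ℕ) : Prop := ∀ u ∈ U, ∀ p ∈ L, u % p ≠ 0

theorem Inj.fib {p : ℕ} {L : List ℕ} {U : Finset ℕ} (h : Inj (p :: L) U) (a : ℕ) :
    Inj L (fib U p a) := by
  intro u hu u' hu' h1
  rw [mem_fib] at hu hu'
  refine h u hu.1 u' hu'.1 fun q hq => ?_
  rcases List.mem_cons.1 hq with rfl | hq
  · rw [hu.2, hu'.2]
  · exact h1 q hq

theorem Unt.fib {p : ℕ} {L : List ℕ} {U : Finset ℕ} (h : Unt (p :: L) U) (a : ℕ) :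
    Unt L (fib U p a) := by
  intro u hu q hq
  rw [mem_fib] at hu
  exact h u hu.1 q (List.mem_cons_of_mem _ hq)

theorem Unt.fib_zero {p : ℕ} {L : List ℕ} {U : Finset ℕ} (h : Unt (p :: L) U) :
    SP.fib U p 0 = ∅ := by
  rw [Finset.eq_empty_iff_forall_notMem]
  intro u hu
  rw [mem_fib] at hu
  exact h u hu.1 p List.mem_cons_self hu.2

theorem Nrm_nonneg : ∀ (L : List ℕ), (∀ p ∈ L, 3 ≤ p) → ∀ (U : Finset ℕ) (f : ℕ → ℝ),
    (∀ n, 0 ≤ f n) → 0 ≤ Nrm L U f
  | [], _, U, f, hf => Finset.sum_nonneg fun u _ => hf u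
  | (p :: L), hL, U, f, hf => by
    have hp : (3 : ℝ) ≤ p := by exact_mod_cast hL p List.mem_cons_self
    refine Real.rpow_nonneg (mul_nonneg (inv_nonneg.2 (by linarith)) ?_) _
    refine Finset.sum_nonneg fun a _ => Real.rpow_nonneg ?_ _
    exact Nrm_nonneg L (fun q hq => hL q (List.mem_cons_of_mem _ hq)) _ f hf

theorem Nrm_empty : ∀ (L : List ℕ), (∀ p ∈ L, 3 ≤ p) → ∀ (f : ℕ → ℝ), Nrm L ∅ f = 0
  | [], _, f => by simp [Nrm]
  | (p :: L), hL, f => by
    have hr := rr_pos (hL p List.mem_cons_self)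
    have h1 : ∀ a, fib ∅ p a = ∅ := fun a => by simp [fib]
    have ih := Nrm_empty L (fun q hq => hL q (List.mem_cons_of_mem _ hq)) f
    simp only [Nrm, h1, ih, Real.zero_rpow hr.ne', Finset.sum_const_zero, mul_zero]
    exact Real.zero_rpow (by positivity)

theorem prod_pos' {L : List ℕ} (hL : ∀ p ∈ L, 3 ≤ p) : (0 : ℝ) < L.prod := by
  have : 0 < L.prod := List.prod_pos fun p hp => by
    have := hL p hp
    omega
  exact_mod_cast this

/-- the mean of a sup-convolution -/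
theorem mean_ge : ∀ (L : List ℕ), (∀ p ∈ L, p.Prime ∧ 3 ≤ p) → ∀ (U V C : Finset ℕ)
    (f g F : ℕ → ℝ), (∀ n, 0 ≤ f n) → (∀ n, 0 ≤ g n) → (∀ n, 0 ≤ F n) → Inj L U → Inj L V →
    Unt L U → Unt L V →
    (∀ u ∈ U, ∀ v ∈ V, ∃ c ∈ C, (∀ p ∈ L, c % p = (u + v) % p) ∧ f u * g v ≤ F c) →
    (L.prod : ℝ) * (Nrm L U f * Nrm L V g) ≤ ∑ c ∈ C, F c := by
  intro L
  induction L with
  | nil =>
    intro _ U V C f g F hf hg hF hU hV _ _ h
    have hone : ∀ S : Finset ℕ, Inj [] S → S = ∅ ∨ ∃ s, S = {s} := by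
      intro S hS
      rcases S.eq_empty_or_nonempty with h0 | ⟨s, hs⟩
      · exact Or.inl h0
      · right
        refine ⟨s, ?_⟩
        rw [Finset.eq_singleton_iff_unique_mem]
        exact ⟨hs, fun t ht => hS t ht s hs (by simp)⟩
    have hC0 : 0 ≤ ∑ c ∈ C, F c := Finset.sum_nonneg fun c _ => hF c
    simp only [List.prod_nil, Nat.cast_one, one_mul, Nrm]
    rcases hone U hU with rfl | ⟨u, rfl⟩
    · simpa using hC0
    rcases hone V hV with rfl | ⟨v, rfl⟩
    · simpa using hC0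
    obtain ⟨c, hc, -, h1⟩ := h u (Finset.mem_singleton_self u) v (Finset.mem_singleton_self v)
    rw [Finset.sum_singleton, Finset.sum_singleton]
    exact h1.trans (Finset.single_le_sum (fun c _ => hF c) hc)
  | cons p L ih =>
    intro hL U V C f g F hf hg hF hU hV hU0 hV0 h
    have hp := hL p List.mem_cons_self
    have hL' : ∀ q ∈ L, q.Prime ∧ 3 ≤ q := fun q hq => hL q (List.mem_cons_of_mem _ hq)
    have hL3 : ∀ q ∈ L, 3 ≤ q := fun q hq => (hL' q hq).2
    have hpR : (3 : ℝ) ≤ p := by exact_mod_cast hp.2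
    have hp0 : 0 < p := hp.1.pos
    have hr := rr_pos hp.2
    have hP := prod_pos' hL3
    have key := prime_ineq_nat p hp.1 hp.2 (fun a => Nrm L (fib U p a) f)
      (fun a => Nrm L (fib V p a) g) (fun c => (∑ x ∈ fib C p c, F x) / L.prod)
      (fun a => Nrm_nonneg L hL3 _ f hf) (fun a => Nrm_nonneg L hL3 _ g hg)
      (fun c => div_nonneg (Finset.sum_nonneg fun x _ => hF x) hP.le)
      (by simp only [hU0.fib_zero]; exact Nrm_empty L hL3 f)
      (by simp only [hV0.fib_zero]; exact Nrm_empty L hL3 g) (by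
        intro a _ b _
        rw [le_div_iff₀ hP, mul_comm]
        refine ih hL' (fib U p a) (fib V p b) (fib C p ((a + b) % p)) f g F hf hg hF (hU.fib a)
          (hV.fib b) (hU0.fib a) (hV0.fib b) ?_
        intro u hu v hv
        rw [mem_fib] at hu hv
        obtain ⟨c, hc, h1, h2⟩ := h u hu.1 v hv.1
        refine ⟨c, ?_, fun q hq => h1 q (List.mem_cons_of_mem _ hq), h2⟩
        rw [mem_fib]
        refine ⟨hc, ?_⟩
        rw [h1 p List.mem_cons_self, Nat.add_mod, hu.2, hv.2])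
    rw [← Finset.sum_div, sum_fib C hp0 F, le_div_iff₀ hP] at key
    have hsf : 0 ≤ ∑ a ∈ range p, Nrm L (fib U p a) f ^ rr p :=
      Finset.sum_nonneg fun a _ => Real.rpow_nonneg (Nrm_nonneg L hL3 _ f hf) _
    have hsg : 0 ≤ ∑ a ∈ range p, Nrm L (fib V p a) g ^ rr p :=
      Finset.sum_nonneg fun a _ => Real.rpow_nonneg (Nrm_nonneg L hL3 _ g hg) _
    have hinv : (0 : ℝ) ≤ ((p : ℝ) - 1)⁻¹ := inv_nonneg.2 (by linarith)
    have hc : (((p : ℝ) - 1)⁻¹) ^ (1 / rr p) * (((p : ℝ) - 1)⁻¹) ^ (1 / rr p) = (p : ℝ)⁻¹ := by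
      rw [← Real.rpow_add (inv_pos.2 (by linarith)), Real.inv_rpow (by linarith),
        show 1 / rr p + 1 / rr p = 2 / rr p by ring, pow_rr hp.2]
    have e1 : Nrm (p :: L) U f * Nrm (p :: L) V g = (p : ℝ)⁻¹ *
        ((∑ a ∈ range p, Nrm L (fib U p a) f ^ rr p) ^ (1 / rr p) *
          (∑ a ∈ range p, Nrm L (fib V p a) g ^ rr p) ^ (1 / rr p)) := by
      simp only [Nrm]
      rw [Real.mul_rpow hinv hsf, Real.mul_rpow hinv hsg, ← hc]
      ring
    rw [e1, List.prod_cons, Nat.cast_mul]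
    calc (p : ℝ) * L.prod * ((p : ℝ)⁻¹ *
        ((∑ a ∈ range p, Nrm L (fib U p a) f ^ rr p) ^ (1 / rr p) *
          (∑ a ∈ range p, Nrm L (fib V p a) g ^ rr p) ^ (1 / rr p)))
        = ((∑ a ∈ range p, Nrm L (fib U p a) f ^ rr p) ^ (1 / rr p) *
          (∑ a ∈ range p, Nrm L (fib V p a) g ^ rr p) ^ (1 / rr p)) * L.prod := by
          have : (p : ℝ) ≠ 0 := by linarith
          field_simp
      _ ≤ _ := key

/-- product of the `p - 1` -/
noncomputable def ph (L : List ℕ) : ℝ := (L.map fun p : ℕ => (p : ℝ) - 1).prod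

theorem ph_cons (p : ℕ) (L : List ℕ) : ph (p :: L) = ((p : ℝ) - 1) * ph L := by
  simp [ph]

theorem ph_pos : ∀ {L : List ℕ}, (∀ p ∈ L, 3 ≤ p) → 0 < ph L
  | [], _ => by simp [ph]
  | (p :: L), hL => by
    have hp : (3 : ℝ) ≤ p := by exact_mod_cast hL p List.mem_cons_self
    rw [ph_cons]
    exact mul_pos (by linarith) (ph_pos fun q hq => hL q (List.mem_cons_of_mem _ hq))

theorem card_le_ph : ∀ (L : List ℕ), (∀ p ∈ L, 3 ≤ p) → ∀ (U : Finset ℕ), Inj L U → Unt L U →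
    (U.card : ℝ) ≤ ph L
  | [], _, U, hU, _ => by
    have : U.card ≤ 1 := Finset.card_le_one.2 fun a ha b hb => hU a ha b hb (by simp)
    simpa [ph] using this
  | (p :: L), hL, U, hU, hU0 => by
    have hL3 : ∀ q ∈ L, 3 ≤ q := fun q hq => hL q (List.mem_cons_of_mem _ hq)
    have hp := hL p List.mem_cons_self
    have ih := card_le_ph L hL3
    have h1 := sum_fib U (show 0 < p by omega) (fun _ => (1 : ℝ))
    simp only [Finset.sum_const, nsmul_eq_mul, mul_one] at h1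
    rw [← h1, ← Finset.add_sum_erase _ _ (Finset.mem_range.2 (show 0 < p by omega)),
      hU0.fib_zero, Finset.card_empty, Nat.cast_zero, zero_add, ph_cons]
    refine (Finset.sum_le_card_nsmul _ _ (ph L) fun a _ => ih _ (hU.fib a) (hU0.fib a)).trans ?_
    rw [Finset.card_erase_of_mem (Finset.mem_range.2 (by omega)), Finset.card_range, nsmul_eq_mul,
      Nat.cast_sub (by omega)]
    push_cast
    exact le_rfl

/-- the plain lower bound of the mixed norm -/
theorem Nrm_ge_one : ∀ (L : List ℕ), L.Pairwise (· ≤ ·) → (∀ p ∈ L, 3 ≤ p) → ∀ (s : ℝ), 0 < s →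
    s ≤ 2 → (∀ p ∈ L, s ≤ rr p) → ∀ (U : Finset ℕ), Inj L U → Unt L U → ∀ (a : ℕ → ℝ),
    (∀ n, 0 ≤ a n) → (∀ n, a n ≤ 1) →
    ((∑ u ∈ U, a u) / ph L) ^ (1 / s) ≤ Nrm L U fun u => Real.sqrt (a u) := by
  intro L
  induction L with
  | nil =>
    intro _ _ s hs0 hs2 _ U hU _ a ha0 ha1
    simp only [ph, List.map_nil, List.prod_nil, div_one, Nrm]
    rcases U.eq_empty_or_nonempty with h0 | ⟨u, hu⟩
    · rw [h0, Finset.sum_empty, Finset.sum_empty, Real.zero_rpow (by positivity)]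
    · have : U = {u} := by
        rw [Finset.eq_singleton_iff_unique_mem]
        exact ⟨hu, fun t ht => hU t ht u hu (by simp)⟩
      rw [this, Finset.sum_singleton, Finset.sum_singleton, Real.sqrt_eq_rpow]
      rcases (ha0 u).eq_or_lt with h | h
      · rw [← h, Real.zero_rpow (by positivity), Real.zero_rpow (by norm_num)]
      · exact Real.rpow_le_rpow_of_exponent_ge h (ha1 u)
          (one_div_le_one_div_of_le hs0 hs2)
  | cons p L ih =>
    intro hsort hL s hs0 hs2 hs U hU hU0 a ha0 ha1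
    have hp := hL p List.mem_cons_self
    have hL3 : ∀ q ∈ L, 3 ≤ q := fun q hq => hL q (List.mem_cons_of_mem _ hq)
    have hpR : (3 : ℝ) ≤ p := by exact_mod_cast hp
    have hr := rr_pos hp
    rw [List.pairwise_cons] at hsort
    have hph := ph_pos hL3
    have hIH : ∀ c, (∑ u ∈ fib U p c, a u) / ph L ≤
        (Nrm L (fib U p c) fun u => Real.sqrt (a u)) ^ rr p := by
      intro c
      have h1 := ih hsort.2 hL3 (rr p) hr (rr_lt_two hp).le
        (fun q hq => rr_mono hp (hsort.1 q hq)) (fib U p c) (hU.fib c) (hU0.fib c) a ha0 ha1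
      have h0 : 0 ≤ (∑ u ∈ fib U p c, a u) / ph L :=
        div_nonneg (Finset.sum_nonneg fun u _ => ha0 u) hph.le
      have h2 := Real.rpow_le_rpow (Real.rpow_nonneg h0 _) h1 hr.le
      rwa [← Real.rpow_mul h0, one_div_mul_cancel hr.ne', Real.rpow_one] at h2
    have hsum : (∑ u ∈ U, a u) / ph L ≤
        ∑ c ∈ range p, (Nrm L (fib U p c) fun u => Real.sqrt (a u)) ^ rr p := by
      rw [← sum_fib U (show 0 < p by omega) a, Finset.sum_div]
      exact Finset.sum_le_sum fun c _ => hIH c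
    have hx0 : 0 ≤ (∑ u ∈ U, a u) / ph (p :: L) :=
      div_nonneg (Finset.sum_nonneg fun u _ => ha0 u) (ph_pos hL).le
    have hx1 : (∑ u ∈ U, a u) / ph (p :: L) ≤ 1 := by
      rw [div_le_one (ph_pos hL)]
      refine le_trans ?_ (card_le_ph (p :: L) hL U hU hU0)
      have : ∑ u ∈ U, a u ≤ ∑ u ∈ U, (1 : ℝ) := Finset.sum_le_sum fun u _ => ha1 u
      simpa using this
    have h3 : ((∑ u ∈ U, a u) / ph (p :: L)) ^ (1 / s) ≤
        ((∑ u ∈ U, a u) / ph (p :: L)) ^ (1 / rr p) := by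
      rcases hx0.eq_or_lt with h | h
      · rw [← h, Real.zero_rpow (by positivity), Real.zero_rpow (by positivity)]
      · exact Real.rpow_le_rpow_of_exponent_ge h hx1
          (one_div_le_one_div_of_le hs0 (hs p List.mem_cons_self))
    refine h3.trans ?_
    simp only [Nrm]
    refine Real.rpow_le_rpow hx0 ?_ (by positivity)
    rw [ph_cons]
    have hne : (p : ℝ) - 1 ≠ 0 := by linarith
    calc (∑ u ∈ U, a u) / (((p : ℝ) - 1) * ph L) = ((p : ℝ) - 1)⁻¹ * ((∑ u ∈ U, a u) / ph L) := by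
          field_simp
      _ ≤ _ := mul_le_mul_of_nonneg_left hsum (inv_nonneg.2 (by linarith))

theorem rpow_sum_le {ι : Type*} (s : Finset ι) (y : ι → ℝ) (hy : ∀ i, 0 ≤ y i) {t : ℝ}
    (ht0 : 0 < t) (ht1 : t ≤ 1) : (∑ i ∈ s, y i) ^ t ≤ ∑ i ∈ s, y i ^ t := by
  classical
  induction s using Finset.induction_on with
  | empty => simp [Real.zero_rpow ht0.ne']
  | insert i s hi ih =>
    rw [Finset.sum_insert hi, Finset.sum_insert hi]
    exact (Real.rpow_add_le_add_rpow (hy i) (Finset.sum_nonneg fun j _ => hy j) ht0.le ht1).trans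
      (add_le_add le_rfl ih)

/-- the sharp lower bound of the mixed norm -/
theorem Nrm_ge (q : ℕ) (L₂ : List ℕ) : ∀ (L₁ : List ℕ), (L₁ ++ q :: L₂).Pairwise (· ≤ ·) →
    (∀ p ∈ L₁ ++ q :: L₂, 3 ≤ p) → ∀ (U : Finset ℕ), Inj (L₁ ++ q :: L₂) U →
    Unt (L₁ ++ q :: L₂) U → ∀ (a : ℕ → ℝ), (∀ n, 0 ≤ a n) → (∀ n, a n ≤ 1) →
    ((L₁.prod : ℝ)⁻¹) ^ (1 / 2 : ℝ) * ((∑ u ∈ U, a u) / ph (q :: L₂)) ^ (1 / rr q) ≤
      Nrm (L₁ ++ q :: L₂) U fun u => Real.sqrt (a u) := by
  intro L₁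
  induction L₁ with
  | nil =>
    intro hsort hL U hU hU0 a ha0 ha1
    rw [List.nil_append] at *
    have hq := hL q List.mem_cons_self
    simp only [List.prod_nil, Nat.cast_one, inv_one, Real.one_rpow, one_mul]
    rw [List.pairwise_cons] at hsort
    refine Nrm_ge_one (q :: L₂) (List.pairwise_cons.2 hsort) hL (rr q) (rr_pos hq)
      (rr_lt_two hq).le (fun p hp => ?_) U hU hU0 a ha0 ha1
    rcases List.mem_cons.1 hp with rfl | hp
    · exact le_rfl
    · exact rr_mono hq (hsort.1 p hp)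
  | cons p L₁ ih =>
    intro hsort hL U hU hU0 a ha0 ha1
    rw [List.cons_append] at *
    have hp := hL p List.mem_cons_self
    have hL3 : ∀ x ∈ L₁ ++ q :: L₂, 3 ≤ x := fun x hx => hL x (List.mem_cons_of_mem _ hx)
    have hq : 3 ≤ q := hL3 q (by simp)
    have hpR : (3 : ℝ) ≤ p := by exact_mod_cast hp
    have hr := rr_pos hp
    have hrq := rr_pos hq
    rw [List.pairwise_cons] at hsort
    have hpq : rr p ≤ rr q := rr_mono hp (hsort.1 q (by simp))
    have hqL : ∀ x ∈ q :: L₂, 3 ≤ x := fun x hx => hL3 x (by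
      rw [List.mem_append]
      exact Or.inr hx)
    have hph := ph_pos hqL
    have hP : (0 : ℝ) < L₁.prod := prod_pos' fun x hx => hL3 x (by
      rw [List.mem_append]
      exact Or.inl hx)
    set κ : ℝ := ((L₁.prod : ℝ)⁻¹) ^ (1 / 2 : ℝ) with hκ
    have hκ0 : 0 < κ := Real.rpow_pos_of_pos (inv_pos.2 hP) _
    have hy0 : ∀ c, 0 ≤ (∑ u ∈ fib U p c, a u) / ph (q :: L₂) := fun c =>
      div_nonneg (Finset.sum_nonneg fun u _ => ha0 u) hph.le
    have hIH : ∀ c, κ ^ rr p * ((∑ u ∈ fib U p c, a u) / ph (q :: L₂)) ^ (1 / rr q * rr p) ≤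
        (Nrm (L₁ ++ q :: L₂) (fib U p c) fun u => Real.sqrt (a u)) ^ rr p := by
      intro c
      have h1 := ih hsort.2 hL3 (fib U p c) (hU.fib c) (hU0.fib c) a ha0 ha1
      have h2 := Real.rpow_le_rpow (mul_nonneg hκ0.le (Real.rpow_nonneg (hy0 c) _)) h1 hr.le
      rwa [Real.mul_rpow hκ0.le (Real.rpow_nonneg (hy0 c) _), ← Real.rpow_mul (hy0 c)] at h2
    have ht0 : 0 < 1 / rr q * rr p := by positivity
    have ht1 : 1 / rr q * rr p ≤ 1 := by
      rw [one_div, inv_mul_eq_div]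
      exact div_le_one_of_le₀ hpq hrq.le
    have hsum : κ ^ rr p * ((∑ u ∈ U, a u) / ph (q :: L₂)) ^ (1 / rr q * rr p) ≤
        ∑ c ∈ range p, (Nrm (L₁ ++ q :: L₂) (fib U p c) fun u => Real.sqrt (a u)) ^ rr p := by
      calc κ ^ rr p * ((∑ u ∈ U, a u) / ph (q :: L₂)) ^ (1 / rr q * rr p)
          = κ ^ rr p * (∑ c ∈ range p, (∑ u ∈ fib U p c, a u) / ph (q :: L₂)) ^
              (1 / rr q * rr p) := by
            rw [← sum_fib U (show 0 < p by omega) a, Finset.sum_div]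
        _ ≤ κ ^ rr p * ∑ c ∈ range p, ((∑ u ∈ fib U p c, a u) / ph (q :: L₂)) ^
              (1 / rr q * rr p) :=
            mul_le_mul_of_nonneg_left (rpow_sum_le _ _ hy0 ht0 ht1) (by positivity)
        _ = ∑ c ∈ range p, κ ^ rr p * ((∑ u ∈ fib U p c, a u) / ph (q :: L₂)) ^
              (1 / rr q * rr p) := by rw [Finset.mul_sum]
        _ ≤ _ := Finset.sum_le_sum fun c _ => hIH c
    have hx0 : 0 ≤ (∑ u ∈ U, a u) / ph (q :: L₂) :=
      div_nonneg (Finset.sum_nonneg fun u _ => ha0 u) hph.le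
    have hinv : (0 : ℝ) < ((p : ℝ) - 1)⁻¹ := inv_pos.2 (by linarith)
    have hc : (((p : ℝ) - 1)⁻¹) ^ (1 / rr p) = ((p : ℝ)⁻¹) ^ (1 / 2 : ℝ) := by
      rw [Real.inv_rpow (by linarith), Real.inv_rpow (by linarith)]
      congr 1
      have h5 := pow_rr hp
      conv_rhs => rw [← h5]
      rw [← Real.rpow_mul (by linarith)]
      congr 1
      ring
    simp only [Nrm, List.prod_cons]
    have h4 := Real.rpow_le_rpow (by positivity) (mul_le_mul_of_nonneg_left hsum hinv.le)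
      (show 0 ≤ 1 / rr p by positivity)
    refine le_trans (le_of_eq ?_) h4
    rw [Real.mul_rpow hinv.le (by positivity), Real.mul_rpow (by positivity)
      (Real.rpow_nonneg hx0 _), ← Real.rpow_mul hκ0.le, ← Real.rpow_mul hx0, hc,
      mul_one_div_cancel hr.ne', Real.rpow_one, mul_assoc (1 / rr q), mul_one_div_cancel hr.ne',
      mul_one, hκ]
    rw [Nat.cast_mul, mul_inv, Real.mul_rpow (inv_nonneg.2 (by linarith)) (inv_nonneg.2 hP.le)]
    ring

end Pool.Agent.Lib.MP_7b7e48_nt.SP
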