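import Pool.Agent.Lib.MP_7b7e48_nt.SP.TwoPoint
import Pool.Agent.Lib.MP_7b7e48_nt.SP.LocalP

/-! # The sharp functional inequality modulo a prime -/

set_option autoImplicit false

namespace Pool.Agent.Lib.MP_7b7e48_nt.SP

open Finset

/-- the exponent with `(p - 1) ^ (2 / rr p) = p` -/
noncomputable def rr (p : ℕ) : ℝ := 2 * Real.log ((p : ℝ) - 1) / Real.log p

theorem log_facts {p : ℕ} (hp : 3 ≤ p) :
    0 < Real.log ((p : ℝ) - 1) ∧ Real.log ((p : ℝ) - 1) < Real.log p ∧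
      Real.log p < 2 * Real.log ((p : ℝ) - 1) := by
  have hpR : (3 : ℝ) ≤ p := by exact_mod_cast hp
  refine ⟨Real.log_pos (by linarith), Real.log_lt_log (by linarith) (by linarith), ?_⟩
  have : 2 * Real.log ((p : ℝ) - 1) = Real.log (((p : ℝ) - 1) ^ 2) := by
    rw [Real.log_pow]
    norm_num
  rw [this]
  exact Real.log_lt_log (by linarith) (by nlinarith)

theorem rr_gt_one {p : ℕ} (hp : 3 ≤ p) : 1 < rr p := by
  obtain ⟨h1, h2, h3⟩ := log_facts hp
  unfold rr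
  rw [lt_div_iff₀ (h1.trans h2)]
  linarith

theorem rr_lt_two {p : ℕ} (hp : 3 ≤ p) : rr p < 2 := by
  obtain ⟨h1, h2, h3⟩ := log_facts hp
  unfold rr
  rw [div_lt_iff₀ (h1.trans h2)]
  linarith

theorem rr_pos {p : ℕ} (hp : 3 ≤ p) : 0 < rr p := zero_lt_one.trans (rr_gt_one hp)

theorem two_div_rr {p : ℕ} (hp : 3 ≤ p) : 2 / rr p = Real.log p / Real.log ((p : ℝ) - 1) := by
  obtain ⟨h1, h2, h3⟩ := log_facts hp
  have h4 := h1.trans h2
  unfold rr
  field_simp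

theorem pow_rr {p : ℕ} (hp : 3 ≤ p) : ((p : ℝ) - 1) ^ (2 / rr p) = p := by
  obtain ⟨h1, h2, h3⟩ := log_facts hp
  have hpR : (3 : ℝ) ≤ p := by exact_mod_cast hp
  rw [two_div_rr hp, Real.rpow_def_of_pos (by linarith), mul_div_cancel₀ _ h1.ne',
    Real.exp_log (by linarith)]

theorem rr_mono {p q : ℕ} (hp : 3 ≤ p) (hpq : p ≤ q) : rr p ≤ rr q := by
  have hq : 3 ≤ q := hp.trans hpq
  obtain ⟨h1, h2, h3⟩ := log_facts hp
  obtain ⟨k1, k2, k3⟩ := log_facts hq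
  have hpR : (3 : ℝ) ≤ p := by exact_mod_cast hp
  have hpqR : (p : ℝ) ≤ q := by exact_mod_cast hpq
  unfold rr
  rw [div_le_div_iff₀ (h1.trans h2) (k1.trans k2)]
  -- `log q - log (q - 1) ≤ log p - log (p - 1)`
  have h4 : Real.log q - Real.log ((q : ℝ) - 1) ≤ Real.log p - Real.log ((p : ℝ) - 1) := by
    rw [← Real.log_div (by linarith) (by linarith), ← Real.log_div (by linarith) (by linarith)]
    refine Real.log_le_log (div_pos (by linarith) (by linarith)) ?_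
    rw [div_le_div_iff₀ (by linarith) (by linarith)]
    nlinarith
  have h5 : Real.log ((p : ℝ) - 1) ≤ Real.log ((q : ℝ) - 1) :=
    Real.log_le_log (by linarith) (by linarith)
  have h6 : Real.log ((p : ℝ) - 1) * (Real.log q - Real.log ((q : ℝ) - 1)) ≤
      Real.log ((q : ℝ) - 1) * (Real.log p - Real.log ((p : ℝ) - 1)) :=
    mul_le_mul h5 h4 (by linarith) (by linarith)
  nlinarith

/-- normalised form, `p ≥ 5` -/
theorem prime_norm (p : ℕ) [Fact p.Prime] (hp : 5 ≤ p) (f g F : ZMod p → ℝ)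
    (hf : ∀ u, 0 ≤ f u) (hg : ∀ u, 0 ≤ g u) (hF : ∀ u, 0 ≤ F u) (f0 : f 0 = 0) (g0 : g 0 = 0)
    (f1 : ∀ u, f u ≤ 1) (g1 : ∀ u, g u ≤ 1) (fm : ∃ u, f u = 1) (gm : ∃ v, g v = 1)
    (h : ∀ u v, f u * g v ≤ F (u + v)) :
    (∑ u, f u ^ rr p) ^ (1 / rr p) * (∑ u, g u ^ rr p) ^ (1 / rr p) ≤ ∑ z, F z := by
  have h3 : 3 ≤ p := by omega
  have hpR : (5 : ℝ) ≤ p := by exact_mod_cast hp
  obtain ⟨l1, l2, l3⟩ := log_facts h3
  have hr1 := rr_gt_one h3
  have hr2 := rr_lt_two h3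
  have hr0 := rr_pos h3
  set r := rr p with hr
  set δ : ℝ := 2 / r - 1 with hδ
  have hδ0 : 0 < δ := by
    rw [hδ, sub_pos, lt_div_iff₀ hr0]
    linarith
  have hδ1 : δ < 1 := by
    rw [hδ, sub_lt_iff_lt_add, div_lt_iff₀ hr0]
    linarith
  have hpow : ((p : ℝ) - 1) ^ δ = 1 + 1 / ((p : ℝ) - 1) := by
    rw [hδ, Real.rpow_sub_one (by linarith), hr, pow_rr h3]
    have : (p : ℝ) - 1 ≠ 0 := by linarith
    field_simp
    ring
  have hlin := linear_bound p h3 f g F hf hg hF f0 g0 f1 g1 fm gm h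
  have hsf : ∀ G : ZMod p → ℝ, (∀ u, 0 ≤ G u) → (∀ u, G u ≤ 1) → ∑ u, G u ^ 2 ≤ ∑ u, G u := by
    intro G h0 h1
    refine Finset.sum_le_sum fun u _ => ?_
    have := h0 u
    have := h1 u
    nlinarith
  have hone : ∀ G : ZMod p → ℝ, (∀ u, 0 ≤ G u) → (∃ u, G u = 1) → 1 ≤ ∑ u, G u ^ 2 := by
    rintro G h0 ⟨u, hu⟩
    calc (1 : ℝ) = G u ^ 2 := by rw [hu]; norm_num
      _ ≤ _ := Finset.single_le_sum (f := fun u => G u ^ 2) (fun v _ => sq_nonneg _)
          (Finset.mem_univ u)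
  have hle : ∀ G : ZMod p → ℝ, G 0 = 0 → (∀ u, 0 ≤ G u) → (∀ u, G u ≤ 1) →
      ∑ u, G u ^ 2 ≤ (p : ℝ) - 1 := by
    intro G hG h0 h1
    rw [← Finset.add_sum_erase _ _ (Finset.mem_univ (0 : ZMod p)), hG]
    have h2 : ∑ u ∈ univ.erase (0 : ZMod p), G u ^ 2 ≤ ∑ u ∈ univ.erase (0 : ZMod p), (1 : ℝ) :=
      Finset.sum_le_sum fun u _ => pow_le_one₀ (h0 u) (h1 u)
    rw [Finset.sum_const, Finset.card_erase_of_mem (Finset.mem_univ _), Finset.card_univ,
      ZMod.card, nsmul_eq_mul, mul_one, Nat.cast_sub (by omega)] at h2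
    push_cast at h2
    linarith
  set a := ∑ u, f u with ha
  set b := ∑ u, g u with hb
  set x := ∑ u, f u ^ 2 with hx
  set y := ∑ u, g u ^ 2 with hy
  have hx1 : 1 ≤ x := hone f hf fm
  have hy1 : 1 ≤ y := hone g hg gm
  have hxa : x ≤ a := hsf f hf f1
  have hyb : y ≤ b := hsf g hg g1
  have hxp := hle f f0 hf f1
  have hyp := hle g g0 hg g1
  have hmain := rpow_part (n := (p : ℝ) - 1) (δ := δ) (A := (a + b) / 2) (Z := (x + y) / 2)
    (by linarith) hδ0 hpow (by linarith) (by linarith) (by linarith)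
  have hbound : ((a + b) / 2) ^ (2 * δ) * ((x + y) / 2) ^ (1 - δ) ≤ ∑ z, F z := by
    have h1 : ((p : ℝ) - 2) * (((a + b) / 2) ^ (2 * δ) * ((x + y) / 2) ^ (1 - δ)) ≤
        ((p : ℝ) - 2) * ∑ z, F z := by
      calc _ = (((p : ℝ) - 1) - 1) * (((a + b) / 2) ^ (2 * δ) * ((x + y) / 2) ^ (1 - δ)) := by ring
        _ ≤ _ := hmain
        _ ≤ _ := by linarith
    exact le_of_mul_le_mul_left h1 (by linarith)
  refine le_trans ?_ hbound
  have e1 : (2 - r) * (1 / r) = δ := by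
    rw [hδ]
    field_simp
  have e2 : (r - 1) * (1 / r) = (1 - δ) / 2 := by
    rw [hδ]
    field_simp
    ring
  have hnorm : ∀ G : ZMod p → ℝ, (∀ u, 0 ≤ G u) → (∑ u, G u ^ r) ^ (1 / r) ≤
      (∑ u, G u) ^ δ * (∑ u, G u ^ 2) ^ ((1 - δ) / 2) := by
    intro G h0
    have hs0 : 0 ≤ ∑ u, G u := Finset.sum_nonneg fun u _ => h0 u
    have hs2 : 0 ≤ ∑ u, G u ^ 2 := Finset.sum_nonneg fun u _ => sq_nonneg _
    have h1 := Real.rpow_le_rpow (Finset.sum_nonneg fun u _ => Real.rpow_nonneg (h0 u) r)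
      (holder_sum univ G h0 hr1 hr2) (show 0 ≤ 1 / r by positivity)
    rwa [Real.mul_rpow (Real.rpow_nonneg hs0 _) (Real.rpow_nonneg hs2 _), ← Real.rpow_mul hs0,
      ← Real.rpow_mul hs2, e1, e2] at h1
  have ha0 : 0 < a := by linarith
  have hb0 : 0 < b := by linarith
  calc (∑ u, f u ^ r) ^ (1 / r) * (∑ u, g u ^ r) ^ (1 / r)
      ≤ (a ^ δ * x ^ ((1 - δ) / 2)) * (b ^ δ * y ^ ((1 - δ) / 2)) :=
        mul_le_mul (hnorm f hf) (hnorm g hg)
          (Real.rpow_nonneg (Finset.sum_nonneg fun u _ => Real.rpow_nonneg (hg u) r) _)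
          (by positivity)
    _ = (a * b) ^ δ * (x * y) ^ ((1 - δ) / 2) := by
        rw [Real.mul_rpow ha0.le hb0.le, Real.mul_rpow (by linarith) (by linarith)]
        ring
    _ ≤ (((a + b) / 2) ^ 2) ^ δ * (((x + y) / 2) ^ 2) ^ ((1 - δ) / 2) := by
        refine mul_le_mul ?_ ?_ (by positivity) (by positivity)
        · exact Real.rpow_le_rpow (by positivity) (by nlinarith [sq_nonneg (a - b)]) hδ0.le
        · exact Real.rpow_le_rpow (by positivity) (by nlinarith [sq_nonneg (x - y)]) (by linarith)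
    _ = _ := by
        rw [← Real.rpow_natCast, ← Real.rpow_natCast, ← Real.rpow_mul (by positivity),
          ← Real.rpow_mul (by positivity)]
        congr 1
        · congr 1
          push_cast
          ring

/-- scaling -/
theorem norm_scale {ι : Type*} (s : Finset ι) (G : ι → ℝ) (hG : ∀ i, 0 ≤ G i) {r c : ℝ}
    (hr : 0 < r) (hc : 0 < c) :
    (∑ i ∈ s, (G i / c) ^ r) ^ (1 / r) = (∑ i ∈ s, G i ^ r) ^ (1 / r) / c := by
  have h1 : ∀ i, (G i / c) ^ r = G i ^ r / c ^ r := fun i => Real.div_rpow (hG i) hc.le r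
  simp only [h1]
  rw [← Finset.sum_div, Real.div_rpow (Finset.sum_nonneg fun i _ => Real.rpow_nonneg (hG i) r)
    (by positivity), ← Real.rpow_mul hc.le, mul_one_div_cancel hr.ne', Real.rpow_one]

theorem z3 : (1 : ZMod 3) + 1 = 2 ∧ (1 : ZMod 3) + 2 = 0 ∧ (2 : ZMod 3) + 1 = 0 ∧
    (2 : ZMod 3) + 2 = 1 := by decide

/-- the case `p = 3` -/
theorem three_ineq (f g F : ZMod 3 → ℝ)
    (hf : ∀ u, 0 ≤ f u) (hg : ∀ u, 0 ≤ g u) (f0 : f 0 = 0) (g0 : g 0 = 0)
    (h : ∀ u v, f u * g v ≤ F (u + v)) :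
    (∑ u, f u ^ rr 3) ^ (1 / rr 3) * (∑ u, g u ^ rr 3) ^ (1 / rr 3) ≤ ∑ z, F z := by
  have hr0 := rr_pos (p := 3) le_rfl
  have hrr : rr 3 = 2 * Real.log 2 / Real.log 3 := by
    unfold rr
    norm_num
  have key := two_point hrr (hf 1) (hf 2) (hg 1) (hg 2)
  have e : ∀ G : ZMod 3 → ℝ, ∑ u, G u = G 0 + G 1 + G 2 := fun G => Fin.sum_univ_three G
  rw [e, e, e, f0, g0, Real.zero_rpow hr0.ne', zero_add, zero_add]
  refine key.trans ?_
  have h11 := h 1 1
  have h12 := h 1 2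
  have h21 := h 2 1
  have h22 := h 2 2
  rw [z3.1] at h11
  rw [z3.2.1] at h12
  rw [z3.2.2.1] at h21
  rw [z3.2.2.2] at h22
  have := max_le h12 h21
  linarith

/-- the sharp functional inequality on the nonzero residues -/
theorem prime_ineq (p : ℕ) [Fact p.Prime] (hp : 3 ≤ p) (f g F : ZMod p → ℝ)
    (hf : ∀ u, 0 ≤ f u) (hg : ∀ u, 0 ≤ g u) (hF : ∀ u, 0 ≤ F u) (f0 : f 0 = 0) (g0 : g 0 = 0)
    (h : ∀ u v, f u * g v ≤ F (u + v)) :
    (∑ u, f u ^ rr p) ^ (1 / rr p) * (∑ u, g u ^ rr p) ^ (1 / rr p) ≤ ∑ z, F z := by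
  have hprime : p.Prime := Fact.out
  have hr0 := rr_pos hp
  rcases Nat.lt_or_ge p 5 with h5 | h5
  · have hp3 : p = 3 := by
      interval_cases p
      · rfl
      · exact absurd hprime (by norm_num)
    subst hp3
    exact three_ineq f g F hf hg f0 g0 h
  · obtain ⟨u₁, -, hu₁⟩ := Finset.exists_max_image univ f Finset.univ_nonempty
    obtain ⟨v₁, -, hv₁⟩ := Finset.exists_max_image univ g Finset.univ_nonempty
    have hzero : ∀ G : ZMod p → ℝ, (∀ u, 0 ≤ G u) → ∀ u₁, (∀ u, G u ≤ G u₁) → G u₁ = 0 →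
        (∑ u, G u ^ rr p) ^ (1 / rr p) = 0 := by
      intro G h0 u₁ hm h1
      have : ∀ u, G u = 0 := fun u => le_antisymm ((hm u).trans h1.le) (h0 u)
      simp only [this, Real.zero_rpow hr0.ne', Finset.sum_const_zero]
      exact Real.zero_rpow (by positivity)
    rcases (hf u₁).eq_or_lt with hc | hc
    · rw [hzero f hf u₁ (fun u => hu₁ u (Finset.mem_univ _)) hc.symm, zero_mul]
      exact Finset.sum_nonneg fun z _ => hF z
    rcases (hg v₁).eq_or_lt with hd | hd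
    · rw [hzero g hg v₁ (fun u => hv₁ u (Finset.mem_univ _)) hd.symm, mul_zero]
      exact Finset.sum_nonneg fun z _ => hF z
    have key := prime_norm p h5 (fun u => f u / f u₁) (fun u => g u / g v₁)
      (fun z => F z / (f u₁ * g v₁)) (fun u => div_nonneg (hf u) hc.le)
      (fun u => div_nonneg (hg u) hd.le) (fun z => div_nonneg (hF z) (by positivity))
      (by simp [f0]) (by simp [g0])
      (fun u => div_le_one_of_le₀ (hu₁ u (Finset.mem_univ _)) hc.le)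
      (fun u => div_le_one_of_le₀ (hv₁ u (Finset.mem_univ _)) hd.le)
      ⟨u₁, div_self hc.ne'⟩ ⟨v₁, div_self hd.ne'⟩ (fun u v => by
        rw [div_mul_div_comm]
        exact div_le_div_of_nonneg_right (h u v) (by positivity))
    rw [norm_scale univ f hf hr0 hc, norm_scale univ g hg hr0 hd, ← Finset.sum_div,
      div_mul_div_comm] at key
    exact (div_le_div_iff_of_pos_right (by positivity)).1 key

theorem sum_val {p : ℕ} [NeZero p] (G : ℕ → ℝ) : ∑ u : ZMod p, G u.val = ∑ a ∈ range p, G a := by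
  refine Finset.sum_bij (fun u _ => u.val) (fun u _ => Finset.mem_range.2 (ZMod.val_lt u))
    (fun u _ v _ huv => ZMod.val_injective p huv) (fun a ha => ?_) (fun u _ => rfl)
  exact ⟨(a : ZMod p), Finset.mem_univ _, ZMod.val_natCast_of_lt (Finset.mem_range.1 ha)⟩

/-- the same on natural numbers -/
theorem prime_ineq_nat (p : ℕ) (hprime : p.Prime) (hp : 3 ≤ p) (f g F : ℕ → ℝ)
    (hf : ∀ u, 0 ≤ f u) (hg : ∀ u, 0 ≤ g u) (hF : ∀ u, 0 ≤ F u) (f0 : f 0 = 0) (g0 : g 0 = 0)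
    (h : ∀ a < p, ∀ b < p, f a * g b ≤ F ((a + b) % p)) :
    (∑ u ∈ range p, f u ^ rr p) ^ (1 / rr p) * (∑ u ∈ range p, g u ^ rr p) ^ (1 / rr p) ≤
      ∑ z ∈ range p, F z := by
  have : Fact p.Prime := ⟨hprime⟩
  have := prime_ineq p hp (fun u => f u.val) (fun u => g u.val) (fun u => F u.val)
    (fun u => hf _) (fun u => hg _) (fun u => hF _) (by simpa using f0) (by simpa using g0)
    (fun u v => by
      rw [ZMod.val_add]
      exact h _ (ZMod.val_lt u) _ (ZMod.val_lt v))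
  rwa [sum_val (fun a => f a ^ rr p), sum_val (fun a => g a ^ rr p), sum_val F] at this

end Pool.Agent.Lib.MP_7b7e48_nt.SP
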