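import Pool.Agent.Lib.MP_7b7e48_nt.SP.Loc
import Pool.Agent.Lib.MP_7b7e48_nt.GT.RobustCount

/-! # Second moment of `∑ f x * ell (N - x)` in a residue class -/

set_option autoImplicit false

namespace Pool.Agent.Lib.MP_7b7e48_nt.SP

open Finset Pool.Agent.Lib.GT Pool.Agent.Lib.GT.LA Pool.Agent.Lib.GT.Robust

/-- expected mass of one unit class modulo `Wp K` -/
noncomputable def RR (K X : ℕ) : ℝ := X / (V K * (Wp K : ℝ))

theorem VW_pos (K : ℕ) : 0 < V K * (Wp K : ℝ) := by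
  have h1 := V_pos K
  have h2 : (0 : ℝ) < Wp K := by exact_mod_cast Wp_pos K
  positivity

theorem RR_nonneg (K X : ℕ) : 0 ≤ RR K X := div_nonneg (Nat.cast_nonneg _) (VW_pos K).le

theorem prod_pr_sub (K : ℕ) : ∏ p ∈ pr K, (1 / ((p : ℝ) - 1)) = 1 / (V K * (Wp K : ℝ)) := by
  unfold V Wp
  rw [Nat.cast_prod, ← Finset.prod_mul_distrib, one_div, ← Finset.prod_inv_distrib]
  refine Finset.prod_congr rfl fun p hp => ?_
  have hp2 : (2 : ℝ) ≤ p := by exact_mod_cast (mem_pr.1 hp).2.two_le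
  have : (p : ℝ) ≠ 0 := by linarith
  have h3 : (p : ℝ) - 1 ≠ 0 := by linarith
  field_simp

/-- class bound inside a residue class modulo `Wp K` -/
theorem class_bound_un (K w : ℕ) (hKw : K ≤ w) : ∃ X₀ : ℕ, ∀ X : ℕ, X₀ ≤ X → ∀ u : ℕ,
    ∀ f : ℕ → ℝ, (∀ n, 0 ≤ f n) → (∀ n, f n ≤ lam n) → (∀ n, f n ≠ 0 → n % Wp K = u) →
    ∀ D ⊆ prI K w, ∀ t : ℕ → ℕ, ∑ x ∈ Finset.Icc 1 X with ∀ p ∈ D, x % p = t p, f x ≤
      2 * RR K X * ∏ p ∈ D, (1 / ((p : ℝ) - 1)) := by
  classical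
  obtain ⟨X₀, hX₀⟩ := class_bound (pr w) (fun p hp => (mem_pr.1 hp).2)
  refine ⟨X₀, fun X hX u f hf0 hfl hfu D hD t => ?_⟩
  have hsub : pr K ∪ D ⊆ pr w := by
    intro p hp
    rw [Finset.mem_union] at hp
    rcases hp with hp | hp
    · rw [mem_pr] at hp ⊢
      exact ⟨hp.1.trans hKw, hp.2⟩
    · have := mem_prI.1 (hD hp)
      exact mem_pr.2 ⟨this.2.1, this.2.2⟩
  have hdisj : Disjoint (pr K) D := by
    rw [Finset.disjoint_left]
    intro p hp hp'
    have h1 := (mem_pr.1 hp).1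
    have h2 := (mem_prI.1 (hD hp')).1
    omega
  have key := hX₀ X hX (pr K ∪ D) hsub (fun p => if p ∈ pr K then u % p else t p)
  have h1 : ∑ x ∈ Finset.Icc 1 X with ∀ p ∈ D, x % p = t p, f x ≤
      ∑ x ∈ Finset.Icc 1 X with ∀ p ∈ pr K ∪ D, x % p = (if p ∈ pr K then u % p else t p),
        lam x := by
    have h2 : ∑ x ∈ Finset.Icc 1 X with ∀ p ∈ D, x % p = t p, f x =
        ∑ x ∈ (Finset.Icc 1 X).filter (fun x => ∀ p ∈ D, x % p = t p) with f x ≠ 0, f x := by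
      rw [Finset.sum_filter_ne_zero]
    rw [h2]
    refine (Finset.sum_le_sum_of_subset_of_nonneg (t := (Finset.Icc 1 X).filter
      (fun x => ∀ p ∈ pr K ∪ D, x % p = (if p ∈ pr K then u % p else t p))) ?_
      fun x _ _ => hf0 x).trans (Finset.sum_le_sum fun x _ => hfl x)
    intro x hx
    rw [Finset.mem_filter, Finset.mem_filter] at hx
    rw [Finset.mem_filter]
    refine ⟨hx.1.1, fun p hp => ?_⟩
    rw [Finset.mem_union] at hp
    split_ifs with h3
    · rw [← hfu x hx.2, Nat.mod_mod_of_dvd _ (dvd_Wp h3)]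
    · rcases hp with hp | hp
      · exact absurd hp h3
      · exact hx.1.2 p hp
  refine h1.trans (key.trans (le_of_eq ?_))
  rw [Finset.prod_union hdisj, prod_pr_sub]
  unfold RR
  ring

theorem ell_sum {P : Finset ℕ} (hP : ∀ p ∈ P, p.Prime) (x : ℕ) :
    ∑ N ∈ range (∏ p ∈ P, p), ell P N x = ((∏ p ∈ P, p : ℕ) : ℝ) := by
  have h := sum_prod_period P hP (fun p a => if a = x % p then (0 : ℝ) else (1 - 1 / (p : ℝ))⁻¹)
  unfold ell el
  rw [h, Nat.cast_prod]
  refine Finset.prod_congr rfl fun p hp => ?_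
  have hp0 := (hP p hp).pos
  have h1 : ∀ a ∈ range p, (if a = x % p then (0 : ℝ) else (1 - 1 / (p : ℝ))⁻¹) =
      (1 - 1 / (p : ℝ))⁻¹ - (if a = x % p then (1 - 1 / (p : ℝ))⁻¹ else 0) := by
    intro a _
    split_ifs <;> simp
  rw [Finset.sum_congr rfl h1, Finset.sum_sub_distrib, Finset.sum_const, Finset.card_range,
    nsmul_eq_mul, Finset.sum_ite_eq', if_pos (Finset.mem_range.2 (Nat.mod_lt _ hp0))]
  have h2 := one_sub_inv_pos (hP p hp).two_le
  have h3 : (p : ℝ) ≠ 0 := by exact_mod_cast hp0.ne'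
  have h4 : (1 : ℝ) - 1 / p ≠ 0 := h2.ne'
  have h5 : (p : ℝ) - 1 ≠ 0 := by
    intro h6
    apply h4
    have : (p : ℝ) = 1 := by linarith
    rw [this]
    norm_num
  field_simp

/-- variance over a full period -/
theorem var_period {P : Finset ℕ} (hP : ∀ p ∈ P, p.Prime) {s : Finset ℕ} {f : ℕ → ℝ}
    (hf : ∀ x ∈ s, 0 ≤ f x) {Y : ℝ}
    (hY : ∀ T : ℕ → Finset ℕ, (∀ p ∈ P, T p ⊆ range p ∧ (T p).card ≤ 2) →
      ∑ x ∈ s, f x * ∏ p ∈ P, (if x % p ∈ T p then (1 - 1 / (p : ℝ))⁻¹ else 1) ≤ Y) :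
    ∑ N ∈ range (∏ p ∈ P, p), (∑ x ∈ s, f x * ell P N x - ∑ x ∈ s, f x) ^ 2 ≤
      (Y ^ 2 - (∑ x ∈ s, f x) ^ 2) * ((∏ p ∈ P, p : ℕ) : ℝ) := by
  have h1 := moment_period hP hf hY
  have h2 : ∑ N ∈ range (∏ p ∈ P, p), ∑ x ∈ s, f x * ell P N x =
      (∑ x ∈ s, f x) * ((∏ p ∈ P, p : ℕ) : ℝ) := by
    rw [Finset.sum_comm, Finset.sum_mul]
    refine Finset.sum_congr rfl fun x _ => ?_
    rw [← Finset.mul_sum, ell_sum hP]
  have h3 : ∑ N ∈ range (∏ p ∈ P, p), (∑ x ∈ s, f x * ell P N x - ∑ x ∈ s, f x) ^ 2 =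
      ∑ N ∈ range (∏ p ∈ P, p), (∑ x ∈ s, f x * ell P N x) ^ 2 -
        2 * (∑ x ∈ s, f x) * ∑ N ∈ range (∏ p ∈ P, p), ∑ x ∈ s, f x * ell P N x +
        (∑ x ∈ s, f x) ^ 2 * ((∏ p ∈ P, p : ℕ) : ℝ) := by
    rw [Finset.mul_sum, ← Finset.sum_sub_distrib]
    have h4 : (∑ x ∈ s, f x) ^ 2 * ((∏ p ∈ P, p : ℕ) : ℝ) =
        ∑ _N ∈ range (∏ p ∈ P, p), (∑ x ∈ s, f x) ^ 2 := by
      rw [Finset.sum_const, Finset.card_range, nsmul_eq_mul]
      ring
    rw [h4, ← Finset.sum_add_distrib]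
    refine Finset.sum_congr rfl fun N _ => ?_
    ring
  rw [h3, h2]
  nlinarith

/-- sums over a residue class in an interval, for a periodic function -/
theorem class_interval {W Q : ℕ} (hW : 0 < W) (hQ : 0 < Q) (hc : Nat.Coprime W Q) {G : ℕ → ℝ}
    (hG : ∀ n, 0 ≤ G n) (hper : ∀ n, G (n % Q) = G n) (c : ℕ) {X : ℕ} (hX : W * Q ≤ X) :
    ∑ N ∈ (range (2 * X + 1)).filter (fun N => N % W = c), G N ≤
      3 * X / (W * Q) * ∑ N ∈ range Q, G N := by
  classical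
  set H : ℕ → ℝ := fun n => if n % W = c then G n else 0 with hH
  have hH0 : ∀ n, 0 ≤ H n := by
    intro n
    rw [hH]
    simp only
    split_ifs
    · exact hG n
    · exact le_rfl
  have hHper : ∀ n, H (n + W * Q) = H n := by
    intro n
    rw [hH]
    simp only
    rw [Nat.add_mul_mod_self_left, ← hper (n + W * Q), Nat.add_mul_mod_self_right, hper]
  have hblock : ∀ A', ∑ x ∈ Finset.Ico A' (A' + W * Q), H x = ∑ x ∈ range (W * Q), H x :=
    fun A' => sum_block H hHper A'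
  have hWQ : 0 < W * Q := Nat.mul_pos hW hQ
  have h1 : ∑ N ∈ (range (2 * X + 1)).filter (fun N => N % W = c), G N =
      ∑ N ∈ range (2 * X + 1), H N := by
    rw [Finset.sum_filter]
  have h2 : ∑ N ∈ range (2 * X + 1), H N ≤
      ∑ N ∈ Finset.Ico 0 (0 + ((2 * X) / (W * Q) + 1) * (W * Q)), H N := by
    refine Finset.sum_le_sum_of_subset_of_nonneg ?_ fun N _ _ => hH0 N
    intro n hn
    rw [Finset.mem_range] at hn
    rw [Finset.mem_Ico]
    have := lt_div_add_one_mul (a := 2 * X) hWQ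
    omega
  have h3 := sum_blocks_eq H (∑ x ∈ range (W * Q), H x) 0 ((2 * X) / (W * Q) + 1) hblock
  have h4 : ∑ x ∈ range (W * Q), H x ≤ ∑ N ∈ range Q, G N := by
    have h5 := sum_range_mul_coprime hW.ne' hQ.ne' hc (fun i j => if i = c then G j else 0)
    have h6 : ∑ x ∈ range (W * Q), H x =
        ∑ x ∈ range (W * Q), (fun i j => if i = c then G j else (0 : ℝ)) (x % W) (x % Q) := by
      refine Finset.sum_congr rfl fun x _ => ?_
      rw [hH]
      simp only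
      rw [hper]
    rw [h6, h5]
    have h7 : ∀ i, ∑ j ∈ range Q, (if i = c then G j else 0) =
        if i = c then ∑ j ∈ range Q, G j else 0 := by
      intro i
      split_ifs <;> simp
    simp only [h7]
    have h8 : 0 ≤ ∑ j ∈ range Q, G j := Finset.sum_nonneg fun j _ => hG j
    rw [Finset.sum_ite_eq']
    split_ifs
    · exact le_rfl
    · exact h8
  have h9 : 0 ≤ ∑ N ∈ range Q, G N := Finset.sum_nonneg fun j _ => hG j
  rw [h1]
  refine h2.trans (h3.le.trans ?_)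
  have h10 : (((2 * X) / (W * Q) + 1 : ℕ) : ℝ) ≤ 3 * X / (W * Q) := by
    have hWQR : (0 : ℝ) < (W : ℝ) * Q := by exact_mod_cast hWQ
    rw [le_div_iff₀ hWQR]
    have h11 : ((2 * X) / (W * Q) + 1) * (W * Q) ≤ 3 * X := by
      have := Nat.div_mul_le_self (2 * X) (W * Q)
      nlinarith
    exact_mod_cast h11
  calc (((2 * X) / (W * Q) + 1 : ℕ) : ℝ) * ∑ x ∈ range (W * Q), H x
      ≤ (((2 * X) / (W * Q) + 1 : ℕ) : ℝ) * ∑ N ∈ range Q, G N :=
        mul_le_mul_of_nonneg_left h4 (Nat.cast_nonneg _)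
    _ ≤ _ := mul_le_mul_of_nonneg_right h10 h9

/-- the number of integers in a class -/
theorem card_class {W : ℕ} (hW : 0 < W) (c : ℕ) {X : ℕ} (hX : W ≤ X) :
    (((range (2 * X + 1)).filter (fun N => N % W = c)).card : ℝ) ≤ 3 * X / W := by
  have h := class_interval hW one_pos (Nat.coprime_one_right W) (G := fun _ => (1 : ℝ))
    (fun _ => zero_le_one) (fun _ => rfl) c (X := X) (by omega)
  simpa using h

/-- **Second moment in a class.** -/
theorem second {K w : ℕ} (hK : 2 ≤ K) (hKw : K ≤ w) : ∃ X₀ : ℕ, ∀ X : ℕ, X₀ ≤ X → ∀ u c : ℕ,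
    ∀ f : ℕ → ℝ, (∀ n, 0 ≤ f n) → (∀ n, f n ≤ lam n) → (∀ n, f n ≠ 0 → n % Wp K = u) →
    ∑ N ∈ (range (2 * X + 1)).filter (fun N => N % Wp K = c),
      |∑ x ∈ Finset.Icc 1 X, f x * ell (prI K w) N x - ∑ x ∈ Finset.Icc 1 X, f x| ≤
      138 / Real.sqrt K * RR K X * (X / Wp K) := by
  classical
  obtain ⟨X₁, hX₁⟩ := class_bound_un K w hKw
  have hPp : ∀ p ∈ prI K w, p.Prime := fun p hp => (mem_prI.1 hp).2.2
  set P := prI K w with hPdef
  set Q : ℕ := ∏ p ∈ P, p with hQ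
  have hQ0 : 0 < Q := Finset.prod_pos fun p hp => (hPp p hp).pos
  have hW0 : 0 < Wp K := Wp_pos K
  have hcop : Nat.Coprime (Wp K) Q := by
    unfold Wp
    rw [hQ]
    refine Nat.Coprime.prod_left fun p hp => Nat.Coprime.prod_right fun q hq => ?_
    rw [Nat.coprime_primes (mem_pr.1 hp).2 (hPp q hq)]
    have h1 := (mem_pr.1 hp).1
    have h2 := (mem_prI.1 hq).1
    omega
  refine ⟨max X₁ (Wp K * Q), fun X hX u c f hf0 hfl hfu => ?_⟩
  have hXa : X₁ ≤ X := (le_max_left _ _).trans hX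
  have hXb : Wp K * Q ≤ X := (le_max_right _ _).trans hX
  have hXW : Wp K ≤ X := by nlinarith
  have hKR : (2 : ℝ) ≤ K := by exact_mod_cast hK
  have hWR : (0 : ℝ) < Wp K := by exact_mod_cast hW0
  have hQR : (0 : ℝ) < Q := by exact_mod_cast hQ0
  have hR := RR_nonneg K X
  set s := Finset.Icc 1 X with hs
  set F : ℝ := ∑ x ∈ s, f x with hF
  have hF0 : 0 ≤ F := Finset.sum_nonneg fun x _ => hf0 x
  have hF2 : F ≤ 2 * RR K X := by
    have := hX₁ X hXa u f hf0 hfl hfu ∅ (Finset.empty_subset _) (fun _ => 0)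
    simpa using this
  set Pi0 : ℝ := ∏ p ∈ P, (1 + (2 : ℕ) / ((p : ℝ) - 1) ^ 2) - 1 with hPi
  have hPi1 : Pi0 ≤ 30 / K := by
    have h1 := prod_tail_le hK w 2
    have h2 : Real.exp (2 * (2 : ℕ) / K) ≤ 1 + 30 / K := by
      have h3 : (2 * (2 : ℕ) / K : ℝ) ≤ 2 := by
        rw [div_le_iff₀ (by linarith)]
        push_cast
        linarith
      have h4 : Real.exp (2 * (2 : ℕ) / K) * (1 - 2 * (2 : ℕ) / K) ≤ 1 := by
        have h5 := Real.add_one_le_exp (-(2 * (2 : ℕ) / K : ℝ))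
        have h6 : Real.exp (2 * (2 : ℕ) / K) * Real.exp (-(2 * (2 : ℕ) / K : ℝ)) = 1 := by
          rw [← Real.exp_add]
          simp
        have h7 := mul_le_mul_of_nonneg_left h5 (Real.exp_pos (2 * (2 : ℕ) / K : ℝ)).le
        rw [h6] at h7
        linarith
      have h5 : Real.exp (2 * (2 : ℕ) / K) ≤ Real.exp 2 := Real.exp_le_exp.2 h3
      have h6 : Real.exp 2 ≤ 7.5 := by
        have h7 := Real.exp_one_lt_d9
        have h8 : Real.exp 2 = Real.exp 1 * Real.exp 1 := by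
          rw [← Real.exp_add]
          norm_num
        rw [h8]
        nlinarith [Real.exp_pos 1]
      have h9 : (0 : ℝ) ≤ 2 * (2 : ℕ) / K := by positivity
      have h10 : Real.exp (2 * (2 : ℕ) / K) * (2 * (2 : ℕ) / K) ≤ 7.5 * (2 * (2 : ℕ) / K) :=
        mul_le_mul_of_nonneg_right (h5.trans h6) h9
      have h11 : (7.5 : ℝ) * (2 * (2 : ℕ) / K) = 30 / K := by
        push_cast
        ring
      linarith
    rw [hPi]
    linarith
  have hPi0 : 0 ≤ Pi0 := by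
    rw [hPi, sub_nonneg]
    have : ∏ _p ∈ P, (1 : ℝ) ≤ ∏ p ∈ P, (1 + (2 : ℕ) / ((p : ℝ) - 1) ^ 2) := by
      refine Finset.prod_le_prod (fun _ _ => zero_le_one) fun p _ => ?_
      have : (0 : ℝ) ≤ (2 : ℕ) / ((p : ℝ) - 1) ^ 2 := by positivity
      linarith
    simpa using this
  set Y : ℝ := F + 2 * RR K X * Pi0 with hY
  have hYT : ∀ T : ℕ → Finset ℕ, (∀ p ∈ P, T p ⊆ range p ∧ (T p).card ≤ 2) →
      ∑ x ∈ s, f x * ∏ p ∈ P, (if x % p ∈ T p then (1 - 1 / (p : ℝ))⁻¹ else 1) ≤ Y := by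
    intro T hT
    exact class_to_Y hPp (s := s) (f := f) (fun x _ => hf0 x) (M := 2 * RR K X) (by positivity)
      (k := 2) (fun D hD _ t => hX₁ X hXa u f hf0 hfl hfu D hD t) T hT
  have hvar := var_period hPp (s := s) (f := f) (fun x _ => hf0 x) hYT
  rw [← hF, ← hQ] at hvar
  set G : ℕ → ℝ := fun N => (∑ x ∈ s, f x * ell P N x - F) ^ 2 with hG
  have hGper : ∀ n, G (n % Q) = G n := by
    intro n
    have h1 : ∀ x, ell P (n % Q) x = ell P n x := by
      intro x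
      unfold ell el
      refine Finset.prod_congr rfl fun p hp => ?_
      rw [Nat.mod_mod_of_dvd _ (Finset.dvd_prod_of_mem (fun p => p) hp)]
    rw [hG]
    simp only [h1]
  have hsum := class_interval hW0 hQ0 hcop (G := G) (fun n => sq_nonneg _) hGper c hXb
  have hYF : Y ^ 2 - F ^ 2 ≤ 2040 / K * RR K X ^ 2 := by
    have h1 : Y - F ≤ 60 / K * RR K X := by
      rw [hY]
      have := mul_le_mul_of_nonneg_left hPi1 (show 0 ≤ 2 * RR K X by positivity)
      calc F + 2 * RR K X * Pi0 - F = 2 * RR K X * Pi0 := by ring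
        _ ≤ 2 * RR K X * (30 / K) := this
        _ = _ := by ring
    have h2 : Y + F ≤ 34 * RR K X := by
      have h3 : 60 / (K : ℝ) ≤ 30 := by
        rw [div_le_iff₀ (by linarith)]
        linarith
      have h4 := mul_le_mul_of_nonneg_right h3 hR
      linarith
    have h3 : 0 ≤ Y - F := by
      rw [hY]
      have : 0 ≤ 2 * RR K X * Pi0 := by positivity
      linarith
    have h4 : 0 ≤ Y + F := by linarith
    calc Y ^ 2 - F ^ 2 = (Y - F) * (Y + F) := by ring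
      _ ≤ (60 / K * RR K X) * (34 * RR K X) := mul_le_mul h1 h2 h4 (by positivity)
      _ = _ := by ring
  have hsum2 : ∑ N ∈ (range (2 * X + 1)).filter (fun N => N % Wp K = c), G N ≤
      3 * X / Wp K * (2040 / K * RR K X ^ 2) := by
    refine hsum.trans ?_
    calc 3 * (X : ℝ) / (Wp K * Q) * ∑ N ∈ range Q, G N
        ≤ 3 * (X : ℝ) / (Wp K * Q) * ((Y ^ 2 - F ^ 2) * Q) :=
          mul_le_mul_of_nonneg_left hvar (by positivity)
      _ = 3 * X / Wp K * (Y ^ 2 - F ^ 2) := by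
          field_simp
      _ ≤ _ := mul_le_mul_of_nonneg_left hYF (by positivity)
  have hcard := card_class hW0 c hXW
  have hcs := sq_sum_le_card_mul_sum_sq (s := (range (2 * X + 1)).filter (fun N => N % Wp K = c))
    (f := fun N => |∑ x ∈ s, f x * ell P N x - F|)
  have hcs2 : (∑ N ∈ (range (2 * X + 1)).filter (fun N => N % Wp K = c),
      |∑ x ∈ s, f x * ell P N x - F|) ^ 2 ≤ (138 / Real.sqrt K * RR K X * (X / Wp K)) ^ 2 := by
    refine hcs.trans ?_
    have e1 : ∑ N ∈ (range (2 * X + 1)).filter (fun N => N % Wp K = c),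
        |∑ x ∈ s, f x * ell P N x - F| ^ 2 =
        ∑ N ∈ (range (2 * X + 1)).filter (fun N => N % Wp K = c), G N :=
      Finset.sum_congr rfl fun N _ => sq_abs _
    rw [e1]
    calc _ ≤ (3 * (X : ℝ) / Wp K) * (3 * X / Wp K * (2040 / K * RR K X ^ 2)) :=
          mul_le_mul hcard hsum2 (Finset.sum_nonneg fun N _ => sq_nonneg _) (by positivity)
      _ = (18360 / K) * RR K X ^ 2 * (X / Wp K) ^ 2 := by ring
      _ ≤ (19044 / K) * RR K X ^ 2 * (X / Wp K) ^ 2 := by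
          gcongr
          norm_num
      _ = _ := by
          have e2 : (138 / Real.sqrt K) ^ 2 = 19044 / (K : ℝ) := by
            rw [div_pow, Real.sq_sqrt (by linarith)]
            norm_num
          rw [mul_pow, mul_pow, e2]
  exact le_of_sq_le_sq hcs2 (by positivity)

end Pool.Agent.Lib.MP_7b7e48_nt.SP
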