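import Pool.Agent.Lib.MP_7b7e48_nt.SP.Loc
import Pool.Agent.Lib.MP_7b7e48_nt.GT.RobustConst

/-! # Sharpness of the lower bound for sumsets of sets of primes -/

namespace Pool.Agent.Lib.MP_7b7e48_nt.SP

open Finset Pool.Agent.Lib.GT Pool.Agent.Lib.GT.LA Pool.Agent.Lib.GT.Robust

namespace SharpAux

theorem pi_small {δ : ℝ} (hδ : 0 < δ) : ∃ y₀ : ℕ, ∀ y : ℕ, y₀ ≤ y →
    (Nat.primeCounting y : ℝ) ≤ δ * y := by
  obtain ⟨y₁, h1⟩ := pi_upper (κ := 1) one_pos
  refine ⟨max y₁ ⌈Real.exp (2 / δ)⌉₊, fun y hy => ?_⟩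
  have h2 := h1 y ((le_max_left _ _).trans hy)
  have h3 : Real.exp (2 / δ) ≤ y := (Nat.le_ceil _).trans (by exact_mod_cast (le_max_right _ _).trans hy)
  have h4 : 2 / δ ≤ Real.log y := by
    rw [Real.le_log_iff_exp_le (lt_of_lt_of_le (Real.exp_pos _) h3)]
    exact h3
  have h5 : (Nat.primeCounting y : ℝ) * (2 / δ) ≤ (1 + 1) * y :=
    (mul_le_mul_of_nonneg_left h4 (Nat.cast_nonneg _)).trans h2
  have h6 : (Nat.primeCounting y : ℝ) = (Nat.primeCounting y : ℝ) * (2 / δ) * (δ / 2) := by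
    field_simp
  rw [h6]
  calc (Nat.primeCounting y : ℝ) * (2 / δ) * (δ / 2) ≤ (1 + 1) * y * (δ / 2) :=
        mul_le_mul_of_nonneg_right h5 (by positivity)
    _ = δ * y := by ring

theorem totient_prod (s : Finset ℕ) (hs : ∀ p ∈ s, p.Prime) :
    ((∏ p ∈ s, p).totient : ℝ) = ∏ p ∈ s, ((p : ℝ) - 1) := by
  have h1 := Nat.totient_mul_prod_primeFactors (∏ p ∈ s, p)
  rw [Nat.primeFactors_prod hs, mul_comm] at h1
  have h0 : 0 < ∏ p ∈ s, p := Finset.prod_pos fun p hp => (hs p hp).pos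
  have h2 := Nat.eq_of_mul_eq_mul_left h0 h1
  rw [h2]
  push_cast
  refine Finset.prod_congr rfl fun p hp => ?_
  rw [Nat.cast_sub (hs p hp).one_le, Nat.cast_one]

end SharpAux

/-- the bound of the theorem is attained -/
theorem sharp (q : ℕ) (hq : q.Prime) (h2 : q ≠ 2) : ∀ ε : ℝ, 0 < ε → ∃ X0 : ℕ, ∀ X : ℕ, X0 ≤ X →
    ∃ A : Finset ℕ, (∀ p ∈ A, p.Prime ∧ p ≤ X) ∧
      (∏ p ∈ op q, 1 / ((p : ℝ) - 1)) * (Nat.primeCounting X : ℝ) ≤ A.card ∧
      (((range (2 * X + 1)).filter (fun N => ∃ a ∈ A, ∃ b ∈ A, a + b = N)).card : ℝ) ≤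
        ((∏ p ∈ op q, 1 / (p : ℝ)) + ε) * X := by
  classical
  intro ε hε
  have _ := hq
  have _ := h2
  obtain ⟨k, hk⟩ : ∃ k, k = (op q).card := ⟨_, rfl⟩
  obtain ⟨m, hm⟩ : ∃ m, m = ∏ p ∈ op q, p := ⟨_, rfl⟩
  have hmem : ∀ p, p ∈ op q ↔ p < q ∧ p.Prime ∧ p ≠ 2 := fun p => by
    unfold op
    rw [Finset.mem_filter, Finset.mem_range]
  have hprime : ∀ p ∈ op q, p.Prime := fun p hp => ((hmem p).1 hp).2.1
  have hm0 : 0 < m := by
    rw [hm]
    exact Finset.prod_pos fun p hp => (hprime p hp).pos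
  have hpf : m.primeFactors = op q := by
    rw [hm]
    exact Nat.primeFactors_prod hprime
  have hdvd : ∀ p : ℕ, p.Prime → p ∣ m → p ∈ op q := fun p hp hd => by
    rw [← hpf]
    exact Nat.mem_primeFactors.2 ⟨hp, hd, hm0.ne'⟩
  have hodd : Nat.Coprime 2 m := by
    rw [Nat.Prime.coprime_iff_not_dvd Nat.prime_two]
    intro hd
    exact ((hmem 2).1 (hdvd 2 Nat.prime_two hd)).2.2 rfl
  have htot : (m.totient : ℝ) = ∏ p ∈ op q, ((p : ℝ) - 1) := by
    rw [hm]
    exact SharpAux.totient_prod _ hprime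
  have htot0 : 0 < m.totient := Nat.totient_pos.2 hm0
  have htotR : (0 : ℝ) < m.totient := by exact_mod_cast htot0
  have hδ : 0 < ε / (2 * ((k : ℝ) + 1)) := by positivity
  obtain ⟨X1, hX1⟩ := SharpAux.pi_small hδ
  refine ⟨max X1 (max q ⌈2 / ε⌉₊), fun X hX => ?_⟩
  have hXa := hX1 X ((le_max_left _ _).trans hX)
  have hXq : q ≤ X := (le_max_left _ _).trans ((le_max_right _ _).trans hX)
  have hXe : 2 / ε ≤ X := (Nat.le_ceil _).trans
    (by exact_mod_cast (le_max_right _ _).trans ((le_max_right _ _).trans hX))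
  -- the primes
  obtain ⟨P, hP⟩ : ∃ P, P = (Finset.Icc 1 X).filter Nat.Prime := ⟨_, rfl⟩
  have hPm : ∀ p, p ∈ P ↔ p ≤ X ∧ p.Prime := fun p => by
    rw [hP, Finset.mem_filter, Finset.mem_Icc]
    constructor
    · rintro ⟨⟨_, h⟩, h'⟩
      exact ⟨h, h'⟩
    · rintro ⟨h, h'⟩
      exact ⟨⟨h'.one_le, h⟩, h'⟩
  have hPc : (P.card : ℝ) = Nat.primeCounting X := by
    rw [hP, primeCounting_eq_card]
  have hopP : op q ⊆ P := fun p hp => (hPm p).2 ⟨(((hmem p).1 hp).1.le).trans hXq, hprime p hp⟩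
  have hc1 : (P.card : ℝ) ≤ (P \ op q).card + k := by
    have := Finset.le_card_sdiff (op q) P
    rw [← hk] at this
    exact_mod_cast (by omega : P.card ≤ (P \ op q).card + k)
  obtain ⟨U, hU⟩ : ∃ U, U = (Finset.range m).filter (fun a => m.Coprime a) := ⟨_, rfl⟩
  have hUc : U.card = m.totient := by
    rw [hU, Nat.totient_eq_card_coprime]
  have hmaps : ∀ p ∈ P \ op q, p % m ∈ U := by
    intro p hp
    rw [Finset.mem_sdiff, hPm] at hp
    rw [hU, Finset.mem_filter, Finset.mem_range]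
    refine ⟨Nat.mod_lt _ hm0, ?_⟩
    have h1 : Nat.gcd (p % m) m = Nat.gcd p m := (Nat.mod_modEq p m).gcd_eq
    have h2 : Nat.Coprime p m := (Nat.Prime.coprime_iff_not_dvd hp.1.2).2 fun hd =>
      hp.2 (hdvd p hp.1.2 hd)
    rw [Nat.coprime_comm]
    unfold Nat.Coprime
    rw [h1]
    exact h2
  have hUne : U.Nonempty := by
    rw [← Finset.card_pos, hUc]
    exact htot0
  obtain ⟨a, haU, ha⟩ := Finset.exists_le_card_fiber_of_nsmul_le_card_of_maps_to
    (b := ((P \ op q).card : ℝ) / m.totient) hmaps hUne (by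
      rw [hUc, nsmul_eq_mul, mul_div_cancel₀ _ htotR.ne'])
  obtain ⟨F, hF⟩ : ∃ F, F = (P \ op q).filter (fun p => p % m = a) := ⟨_, rfl⟩
  rw [← hF] at ha
  have ham : a < m := by
    rw [hU, Finset.mem_filter, Finset.mem_range] at haU
    exact haU.1
  have hFm : ∀ p ∈ F, p ∈ P ∧ p ∉ op q ∧ p % m = a := fun p hp => by
    rw [hF, Finset.mem_filter, Finset.mem_sdiff] at hp
    exact ⟨hp.1.1, hp.1.2, hp.2⟩
  have hdis : Disjoint F (op q) := Finset.disjoint_left.2 fun p hp => (hFm p hp).2.1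
  refine ⟨F ∪ op q, ?_, ?_, ?_⟩
  · intro p hp
    rw [Finset.mem_union] at hp
    rcases hp with hp | hp
    · have := (hPm p).1 (hFm p hp).1
      exact ⟨this.2, this.1⟩
    · have := (hPm p).1 (hopP hp)
      exact ⟨this.2, this.1⟩
  · rw [Finset.card_union_of_disjoint hdis, ← hk]
    have e1 : ∏ p ∈ op q, 1 / ((p : ℝ) - 1) = 1 / m.totient := by
      rw [htot, Finset.prod_div_distrib, Finset.prod_const_one]
    rw [e1, ← hPc]
    push_cast
    have e2 : (1 : ℝ) / m.totient ≤ 1 := by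
      rw [div_le_one htotR]
      exact_mod_cast htot0
    calc 1 / (m.totient : ℝ) * (P.card : ℝ) ≤ 1 / (m.totient : ℝ) * ((P \ op q).card + k) :=
          mul_le_mul_of_nonneg_left hc1 (by positivity)
      _ = ((P \ op q).card : ℝ) / m.totient + 1 / (m.totient : ℝ) * k := by ring
      _ ≤ F.card + 1 * (k : ℝ) := add_le_add ha (mul_le_mul_of_nonneg_right e2 (Nat.cast_nonneg _))
      _ = F.card + k := by ring
  · have hsub : (range (2 * X + 1)).filter (fun N => ∃ a ∈ F ∪ op q, ∃ b ∈ F ∪ op q, a + b = N) ⊆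
        (range (X / m + 1)).image (fun j => 2 * (a + m * j)) ∪
          ((insert 2 (op q)) ×ˢ (F ∪ op q)).image (fun z => z.1 + z.2) := by
      intro N hN
      rw [Finset.mem_filter] at hN
      obtain ⟨-, x, hx, y, hy, rfl⟩ := hN
      rw [Finset.mem_union, Finset.mem_image, Finset.mem_image]
      by_cases hx2 : x ∈ insert 2 (op q)
      · exact Or.inr ⟨(x, y), Finset.mem_product.2 ⟨hx2, hy⟩, rfl⟩
      by_cases hy2 : y ∈ insert 2 (op q)
      · exact Or.inr ⟨(y, x), Finset.mem_product.2 ⟨hy2, hx⟩, add_comm _ _⟩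
      left
      rw [Finset.mem_insert, not_or] at hx2 hy2
      have hxF : x ∈ F := by
        rcases Finset.mem_union.1 hx with h | h
        · exact h
        · exact absurd h hx2.2
      have hyF : y ∈ F := by
        rcases Finset.mem_union.1 hy with h | h
        · exact h
        · exact absurd h hy2.2
      obtain ⟨hxP, -, hxm⟩ := hFm x hxF
      obtain ⟨hyP, -, hym⟩ := hFm y hyF
      rw [hPm] at hxP hyP
      have hx1 : x % 2 = 1 := (hxP.2.eq_two_or_odd).resolve_left hx2.1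
      have hy1 : y % 2 = 1 := (hyP.2.eq_two_or_odd).resolve_left hy2.1
      obtain ⟨n, hn⟩ : ∃ n, x + y = 2 * n := ⟨(x + y) / 2, by omega⟩
      have hnX : n ≤ X := by omega
      have hmod : 2 * n ≡ 2 * a [MOD m] := by
        rw [← hn, two_mul]
        refine Nat.ModEq.add ?_ ?_
        · rw [← hxm]; exact (Nat.mod_modEq x m).symm
        · rw [← hym]; exact (Nat.mod_modEq y m).symm
      have hmod2 : n ≡ a [MOD m] := Nat.ModEq.cancel_left_of_coprime (by
        rw [Nat.gcd_comm]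
        exact hodd) hmod
      have hnm : n % m = a := by
        rw [← Nat.mod_eq_of_lt ham]
        exact hmod2
      refine ⟨n / m, ?_, ?_⟩
      · rw [Finset.mem_range]
        exact Nat.lt_succ_of_le (Nat.div_le_div_right hnX)
      · rw [hn, ← hnm, Nat.mod_add_div]
    have hcA : ((F ∪ op q).card : ℝ) ≤ Nat.primeCounting X := by
      rw [← hPc]
      exact_mod_cast Finset.card_le_card (Finset.union_subset (fun p hp => (hFm p hp).1) hopP)
    have h5 : (((range (2 * X + 1)).filter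
        (fun N => ∃ a ∈ F ∪ op q, ∃ b ∈ F ∪ op q, a + b = N)).card : ℝ) ≤
        ((X / m + 1 : ℕ) : ℝ) + ((k : ℝ) + 1) * (F ∪ op q).card := by
      have h6 := (Finset.card_le_card hsub).trans (Finset.card_union_le _ _)
      have h7 : ((range (X / m + 1)).image (fun j => 2 * (a + m * j))).card ≤ X / m + 1 :=
        Finset.card_image_le.trans (by rw [Finset.card_range])
      have h8 : (((insert 2 (op q)) ×ˢ (F ∪ op q)).image (fun z => z.1 + z.2)).card ≤
          (k + 1) * (F ∪ op q).card := by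
        refine Finset.card_image_le.trans ?_
        rw [Finset.card_product]
        refine Nat.mul_le_mul_right _ ?_
        rw [hk]
        exact Finset.card_insert_le _ _
      have h9 := h6.trans (Nat.add_le_add h7 h8)
      exact_mod_cast h9
    have e3 : ∏ p ∈ op q, 1 / (p : ℝ) = 1 / m := by
      rw [hm, Finset.prod_div_distrib, Finset.prod_const_one]
      push_cast
      rfl
    rw [e3]
    have h10 : ((X / m + 1 : ℕ) : ℝ) ≤ X / m + 1 := by
      push_cast
      have := Nat.cast_div_le (α := ℝ) (m := X) (n := m)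
      linarith
    have h11 : ((k : ℝ) + 1) * (F ∪ op q).card ≤ ε / 2 * X := by
      calc ((k : ℝ) + 1) * (F ∪ op q).card ≤ ((k : ℝ) + 1) * (ε / (2 * ((k : ℝ) + 1)) * X) :=
            mul_le_mul_of_nonneg_left (hcA.trans hXa) (by positivity)
        _ = ε / 2 * X := by
            field_simp
    have h12 : 1 ≤ ε / 2 * X := by
      rw [div_le_iff₀ hε] at hXe
      linarith
    have h13 : (1 / (m : ℝ) + ε) * X = X / m + ε / 2 * X + ε / 2 * X := by ring
    rw [h13]
    linarith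

end Pool.Agent.Lib.MP_7b7e48_nt.SP
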