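import Mathlib

/-! # The two-point inequality with the exponent `r = 2 log 2 / log 3` -/

set_option autoImplicit false

namespace Pool.Agent.Lib.MP_7b7e48_nt.SP

open Real Set

/-- `x ^ c (2 + x) ≥ 1 + 2 x` is preserved when `x` grows to `1` -/
theorem sign_mono {c : ℝ} (hc0 : 0 < c) (hc : c < 1 / 3) {x y : ℝ} (hx : 0 < x) (hxy : x ≤ y)
    (hy : y ≤ 1) (h : 1 + 2 * x ≤ x ^ c * (2 + x)) : 1 + 2 * y ≤ y ^ c * (2 + y) := by
  set E : ℝ → ℝ := fun x => log (1 + 2 * x) - log (2 + x) - c * log x with hE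
  have hder : ∀ z : ℝ, 0 < z → HasDerivAt E (2 / (1 + 2 * z) - 1 / (2 + z) - c * z⁻¹) z := by
    intro z hz
    have h1 : HasDerivAt (fun x : ℝ => log (1 + 2 * x)) (2 / (1 + 2 * z)) z := by
      have := ((hasDerivAt_id z).const_mul 2).const_add 1
      simpa using this.log (by simp; positivity)
    have h2 : HasDerivAt (fun x : ℝ => log (2 + x)) (1 / (2 + z)) z := by
      have := (hasDerivAt_id z).const_add 2
      simpa using this.log (by simp; positivity)
    exact (h1.sub h2).sub ((Real.hasDerivAt_log hz.ne').const_mul c)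
  have hval : ∀ z : ℝ, 0 < z → 2 / (1 + 2 * z) - 1 / (2 + z) - c * z⁻¹ =
      (-2 * c * z ^ 2 + (3 - 5 * c) * z - 2 * c) / (z * (1 + 2 * z) * (2 + z)) := by
    intro z hz
    field_simp
    ring
  have hiff : ∀ z : ℝ, 0 < z → (E z ≤ 0 ↔ 1 + 2 * z ≤ z ^ c * (2 + z)) := by
    intro z hz
    have h1 : 0 < z ^ c := rpow_pos_of_pos hz c
    have h2 : 1 + 2 * z ≤ z ^ c * (2 + z) ↔ log (1 + 2 * z) ≤ c * log z + log (2 + z) := by
      rw [← log_rpow hz, ← log_mul h1.ne' (by positivity),
        log_le_log_iff (by positivity) (by positivity)]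
    rw [h2]
    simp only [hE]
    constructor <;> intro h <;> linarith
  have hcont : ∀ a b : ℝ, 0 < a → ContinuousOn E (Icc a b) := fun a b ha z hz =>
    (hder z (lt_of_lt_of_le ha hz.1)).continuousAt.continuousWithinAt
  have h1 : ∀ z : ℝ, 0 < z → z ≤ 1 → 0 ≤ -2 * c * z ^ 2 + (3 - 5 * c) * z - 2 * c → E z ≤ 0 := by
    intro z hz hz1 hq
    have hm : MonotoneOn E (Icc z 1) := by
      refine monotoneOn_of_deriv_nonneg (convex_Icc z 1) (hcont z 1 hz) ?_ ?_
      · intro w hw
        rw [interior_Icc] at hw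
        exact (hder w (hz.trans hw.1)).differentiableAt.differentiableWithinAt
      · intro w hw
        rw [interior_Icc] at hw
        have hw0 : 0 < w := hz.trans hw.1
        rw [(hder w hw0).deriv, hval w hw0]
        refine div_nonneg ?_ (by positivity)
        nlinarith [mul_nonneg (sub_nonneg.2 hw.1.le) (sub_nonneg.2 hw.2.le), hw.1, hw.2,
          mul_pos hc0 hw0, mul_nonneg hc0.le (mul_nonneg (sub_nonneg.2 hw.1.le)
            (sub_nonneg.2 hw.2.le)), mul_nonneg (sub_nonneg.2 hw.1.le) (sub_nonneg.2 hc.le),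
          mul_nonneg (sub_nonneg.2 hw.2.le) hq]
    have h2 := hm (left_mem_Icc.2 hz1) (right_mem_Icc.2 hz1) hz1
    refine h2.trans (le_of_eq ?_)
    simp [hE]
    norm_num
  rw [← hiff y (hx.trans_le hxy)]
  rw [← hiff x hx] at h
  rcases le_or_gt 0 (-2 * c * y ^ 2 + (3 - 5 * c) * y - 2 * c) with hq | hq
  · exact h1 y (hx.trans_le hxy) hy hq
  · have hm : AntitoneOn E (Icc x y) := by
      refine antitoneOn_of_deriv_nonpos (convex_Icc x y) (hcont x y hx) ?_ ?_
      · intro w hw
        rw [interior_Icc] at hw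
        exact (hder w (hx.trans hw.1)).differentiableAt.differentiableWithinAt
      · intro w hw
        rw [interior_Icc] at hw
        have hw0 : 0 < w := hx.trans hw.1
        rw [(hder w hw0).deriv, hval w hw0]
        refine div_nonpos_of_nonpos_of_nonneg ?_ (by positivity)
        by_contra! hcon
        -- the quadratic is concave, positive at `w` and at `1`, negative at `y`
        have hy1 : y < 1 := by
          rcases hy.lt_or_eq with h | h
          · exact h
          · subst h
            nlinarith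
        nlinarith [mul_pos (sub_pos.2 hw.2) (sub_pos.2 hy1), mul_pos hc0 (mul_pos (sub_pos.2 hw.2)
          (sub_pos.2 hy1)), mul_pos hcon (sub_pos.2 hy1), mul_pos (sub_pos.2 hw.2)
          (sub_pos.2 hc)]
    exact (hm (left_mem_Icc.2 hxy) (right_mem_Icc.2 hxy) hxy).trans h

theorem one_var {r : ℝ} (hr : r = 2 * log 2 / log 3) {x : ℝ} (hx0 : 0 ≤ x) (hx1 : x ≤ 1) :
    (1 + x ^ r) ^ (2 / r) ≤ 1 + x + x ^ 2 := by
  have hl2 : 0 < log 2 := log_pos (by norm_num)
  have hl3 : 0 < log 3 := log_pos (by norm_num)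
  have hr1 : 1 < r := by
    rw [hr, lt_div_iff₀ hl3, one_mul]
    have : log 3 < log 4 := log_lt_log (by norm_num) (by norm_num)
    have h4 : log 4 = 2 * log 2 := by
      rw [show (4 : ℝ) = 2 ^ (2 : ℕ) by norm_num, log_pow]
      norm_num
    linarith
  have hr2 : r < 4 / 3 := by
    rw [hr, div_lt_iff₀ hl3]
    have h8 : log 8 = 3 * log 2 := by
      rw [show (8 : ℝ) = 2 ^ (3 : ℕ) by norm_num, log_pow]
      norm_num
    have h9 : log 9 = 2 * log 3 := by
      rw [show (9 : ℝ) = 3 ^ (2 : ℕ) by norm_num, log_pow]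
      norm_num
    have : log 8 < log 9 := log_lt_log (by norm_num) (by norm_num)
    linarith
  have hr0 : 0 < r := by linarith
  set ψ : ℝ → ℝ := fun x => log (1 + x + x ^ 2) - 2 / r * log (1 + x ^ r) with hψ
  have hder : ∀ z : ℝ, 0 < z → HasDerivAt ψ ((1 + 2 * z) / (1 + z + z ^ 2) -
      2 / r * (r * z ^ (r - 1) / (1 + z ^ r))) z := by
    intro z hz
    have hzr : 0 < z ^ r := rpow_pos_of_pos hz r
    have h1 : HasDerivAt (fun x : ℝ => log (1 + x + x ^ 2)) ((1 + 2 * z) / (1 + z + z ^ 2)) z := by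
      have := ((hasDerivAt_id z).const_add 1).add (hasDerivAt_pow 2 z)
      simpa using this.log (by simp; positivity)
    have h2 : HasDerivAt (fun x : ℝ => log (1 + x ^ r)) (r * z ^ (r - 1) / (1 + z ^ r)) z := by
      have := (Real.hasDerivAt_rpow_const (p := r) (Or.inl hz.ne')).const_add 1
      exact this.log (by positivity)
    exact h1.sub (h2.const_mul _)
  have hval : ∀ z : ℝ, 0 < z → (1 + 2 * z) / (1 + z + z ^ 2) -
      2 / r * (r * z ^ (r - 1) / (1 + z ^ r)) =
      (1 + 2 * z - z ^ (r - 1) * (2 + z)) / ((1 + z + z ^ 2) * (1 + z ^ r)) := by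
    intro z hz
    have hzr : z ^ r = z ^ (r - 1) * z := by
      rw [← rpow_add_one hz.ne']
      congr 1
      ring
    have hzr0 : 0 < z ^ (r - 1) := rpow_pos_of_pos hz _
    rw [hzr]
    field_simp
    ring
  have hcont : ContinuousOn ψ (Icc 0 1) := by
    refine ContinuousOn.sub ?_ (continuousOn_const.mul ?_)
    · refine ContinuousOn.log (by fun_prop) fun z hz => ?_
      have := hz.1
      positivity
    · refine ContinuousOn.log ?_ fun z hz => ?_
      · exact continuousOn_const.add ((continuous_id.rpow_const fun _ => Or.inr hr0.le).continuousOn)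
      · have := rpow_nonneg hz.1 r
        positivity
  have hψ0 : ψ 0 = 0 := by
    simp [hψ, zero_rpow hr0.ne']
  have hψ1 : ψ 1 = 0 := by
    have : (2 : ℝ) / r * log 2 = log 3 := by
      rw [hr]
      field_simp
    simp only [hψ, one_rpow]
    norm_num
    rw [this]
    ring
  have hmain : 0 ≤ ψ x := by
    rcases hx0.eq_or_lt with h0 | h0
    · rw [← h0, hψ0]
    rcases le_or_gt (1 + 2 * x) (x ^ (r - 1) * (2 + x)) with hD | hD
    · have hm : AntitoneOn ψ (Icc x 1) := by
        refine antitoneOn_of_deriv_nonpos (convex_Icc x 1)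
          (hcont.mono (Icc_subset_Icc_left hx0)) ?_ ?_
        · intro w hw
          rw [interior_Icc] at hw
          exact (hder w (h0.trans hw.1)).differentiableAt.differentiableWithinAt
        · intro w hw
          rw [interior_Icc] at hw
          have hw0 : 0 < w := h0.trans hw.1
          rw [(hder w hw0).deriv, hval w hw0]
          have h1 := sign_mono (c := r - 1) (by linarith) (by linarith) h0 hw.1.le hw.2.le hD
          have h2 : 0 < w ^ r := rpow_pos_of_pos hw0 r
          exact div_nonpos_of_nonpos_of_nonneg (by linarith) (by positivity)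
      have := hm (left_mem_Icc.2 hx1) (right_mem_Icc.2 hx1) hx1
      rwa [hψ1] at this
    · have hm : MonotoneOn ψ (Icc 0 x) := by
        refine monotoneOn_of_deriv_nonneg (convex_Icc 0 x)
          (hcont.mono (Icc_subset_Icc_right hx1)) ?_ ?_
        · intro w hw
          rw [interior_Icc] at hw
          exact (hder w hw.1).differentiableAt.differentiableWithinAt
        · intro w hw
          rw [interior_Icc] at hw
          have hw0 : 0 < w := hw.1
          rw [(hder w hw0).deriv, hval w hw0]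
          have h2 : 0 < w ^ r := rpow_pos_of_pos hw0 r
          refine div_nonneg ?_ (by positivity)
          by_contra! hcon
          have h1 := sign_mono (c := r - 1) (by linarith) (by linarith) hw0 hw.2.le hx1
            (by linarith)
          linarith
      have := hm (left_mem_Icc.2 hx0) (right_mem_Icc.2 hx0) hx0
      rwa [hψ0] at this
  have hxr : 0 ≤ x ^ r := rpow_nonneg hx0 r
  rw [← log_le_log_iff (by positivity) (by positivity), log_rpow (by positivity)]
  simp only [hψ] at hmain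
  linarith

/-- same order, normalised -/
theorem two_point_aux {r : ℝ} (hr : r = 2 * log 2 / log 3) (hr1 : 1 ≤ r) {x y : ℝ} (hy0 : 0 ≤ y)
    (hyx : y ≤ x) (hx1 : x ≤ 1) :
    (1 + x ^ r) ^ (1 / r) * (1 + y ^ r) ^ (1 / r) ≤ 1 + x + x * y := by
  have hx0 : 0 ≤ x := hy0.trans hyx
  have hr0 : 0 < r := by linarith
  set N := (1 + x ^ r) ^ (1 / r) with hN
  have hxr : 0 ≤ x ^ r := rpow_nonneg hx0 r
  have hN0 : 0 ≤ N := by positivity
  have hN1 : N ≤ 1 + x := by
    have := Real.rpow_add_rpow_le_add (zero_le_one) hx0 hr1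
    rwa [one_rpow] at this
  have hN2 : N ^ 2 ≤ 1 + x + x ^ 2 := by
    have h1 := one_var hr hx0 hx1
    rwa [hN, ← rpow_natCast, ← rpow_mul (by positivity), show (1 / r * ((2 : ℕ) : ℝ)) = 2 / r by
      push_cast; ring]
  rcases hx0.eq_or_lt with h0 | h0
  · have hy : y = 0 := le_antisymm (hyx.trans h0.ge) hy0
    rw [hy, ← h0, zero_rpow hr0.ne']
    rw [← h0, zero_rpow hr0.ne'] at hN
    rw [hN]
    simp
  obtain ⟨θ, hθ⟩ : ∃ θ, θ = y / x := ⟨_, rfl⟩
  have hθ0 : 0 ≤ θ := by rw [hθ]; positivity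
  have hθ1 : θ ≤ 1 := by rw [hθ]; exact div_le_one_of_le₀ hyx hx0
  have hyθ : y = θ * x := by rw [hθ]; field_simp
  have hM : (1 + y ^ r) ^ (1 / r) ≤ (1 - θ) + θ * N := by
    have := Real.Lp_add_le_of_nonneg (s := (Finset.univ : Finset (Fin 2))) (f := ![1 - θ, 0])
      (g := ![θ, y]) hr1 (by intro i _; fin_cases i <;> simp [hθ1]) (by
        intro i _; fin_cases i <;> simp [hθ0, hy0])
    simp only [Fin.sum_univ_two, Matrix.cons_val_zero, Matrix.cons_val_one] at this
    rw [zero_rpow hr0.ne', add_zero, sub_add_cancel, one_rpow, zero_add, ← rpow_mul (by linarith),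
      mul_one_div_cancel hr0.ne', rpow_one] at this
    refine this.trans (le_of_eq ?_)
    rw [hyθ, mul_rpow hθ0 hx0]
    have : θ ^ r + θ ^ r * x ^ r = θ ^ r * (1 + x ^ r) := by ring
    rw [this, mul_rpow (rpow_nonneg hθ0 r) (by positivity), ← rpow_mul hθ0,
      mul_one_div_cancel hr0.ne', rpow_one]
  calc N * (1 + y ^ r) ^ (1 / r) ≤ N * ((1 - θ) + θ * N) := mul_le_mul_of_nonneg_left hM hN0
    _ = (1 - θ) * N + θ * N ^ 2 := by ring
    _ ≤ (1 - θ) * (1 + x) + θ * (1 + x + x ^ 2) := by
        refine add_le_add (mul_le_mul_of_nonneg_left hN1 (by linarith))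
          (mul_le_mul_of_nonneg_left hN2 hθ0)
    _ = 1 + x + x * y := by rw [hyθ]; ring

/-- same order -/
theorem two_point_sorted {r : ℝ} (hr : r = 2 * log 2 / log 3) (hr1 : 1 ≤ r) {a b c d : ℝ}
    (hb : 0 ≤ b) (hba : b ≤ a) (hd : 0 ≤ d) (hdc : d ≤ c) :
    (a ^ r + b ^ r) ^ (1 / r) * (c ^ r + d ^ r) ^ (1 / r) ≤ a * c + max (a * d) (b * c) + b * d := by
  have hr0 : 0 < r := by linarith
  have ha : 0 ≤ a := hb.trans hba
  have hc : 0 ≤ c := hd.trans hdc
  rcases ha.eq_or_lt with h0 | h0
  · have : b = 0 := le_antisymm (hba.trans h0.ge) hb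
    rw [this, ← h0, zero_rpow hr0.ne', add_zero, zero_rpow (by positivity)]
    simp
  rcases hc.eq_or_lt with h1 | h1
  · have : d = 0 := le_antisymm (hdc.trans h1.ge) hd
    rw [this, ← h1, zero_rpow hr0.ne', add_zero, zero_rpow (by positivity)]
    simp
  have key : ∀ s t : ℝ, 0 < s → 0 ≤ t → (s ^ r + t ^ r) ^ (1 / r) =
      s * (1 + (t / s) ^ r) ^ (1 / r) := by
    intro s t hs ht
    have h2 : s ^ r + t ^ r = s ^ r * (1 + (t / s) ^ r) := by
      rw [div_rpow ht hs.le]
      field_simp [(rpow_pos_of_pos hs r).ne']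
    have h3 : 0 ≤ (t / s) ^ r := rpow_nonneg (by positivity) r
    rw [h2, mul_rpow (rpow_nonneg hs.le r) (by positivity), ← rpow_mul hs.le,
      mul_one_div_cancel hr0.ne', rpow_one]
  rw [key a b h0 hb, key c d h1 hd]
  have hx0 : 0 ≤ b / a := by positivity
  have hy0 : 0 ≤ d / c := by positivity
  have hx1 : b / a ≤ 1 := div_le_one_of_le₀ hba h0.le
  have hy1 : d / c ≤ 1 := div_le_one_of_le₀ hdc h1.le
  have e1 : a * c * (1 + b / a + b / a * (d / c)) = a * c + b * c + b * d := by
    field_simp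
  have e2 : a * c * (1 + d / c + d / c * (b / a)) = a * c + a * d + b * d := by
    field_simp
  rcases le_total (d / c) (b / a) with h | h
  · have h2 := two_point_aux hr hr1 hy0 h hx1
    calc a * (1 + (b / a) ^ r) ^ (1 / r) * (c * (1 + (d / c) ^ r) ^ (1 / r))
        = a * c * ((1 + (b / a) ^ r) ^ (1 / r) * (1 + (d / c) ^ r) ^ (1 / r)) := by ring
      _ ≤ a * c * (1 + b / a + b / a * (d / c)) := mul_le_mul_of_nonneg_left h2 (by positivity)
      _ = a * c + b * c + b * d := e1
      _ ≤ _ := by gcongr; exact le_max_right _ _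
  · have h2 := two_point_aux hr hr1 hx0 h hy1
    calc a * (1 + (b / a) ^ r) ^ (1 / r) * (c * (1 + (d / c) ^ r) ^ (1 / r))
        = a * c * ((1 + (d / c) ^ r) ^ (1 / r) * (1 + (b / a) ^ r) ^ (1 / r)) := by ring
      _ ≤ a * c * (1 + d / c + d / c * (b / a)) := mul_le_mul_of_nonneg_left h2 (by positivity)
      _ = a * c + a * d + b * d := e2
      _ ≤ _ := by gcongr; exact le_max_left _ _

/-- the two-point inequality -/
theorem two_point {r : ℝ} (hr : r = 2 * log 2 / log 3) {a b c d : ℝ}
    (ha : 0 ≤ a) (hb : 0 ≤ b) (hc : 0 ≤ c) (hd : 0 ≤ d) :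
    (a ^ r + b ^ r) ^ (1 / r) * (c ^ r + d ^ r) ^ (1 / r) ≤ a * c + max (a * d) (b * c) + b * d := by
  have hr1 : 1 ≤ r := by
    have hl3 : 0 < log 3 := log_pos (by norm_num)
    rw [hr, le_div_iff₀ hl3, one_mul]
    have : log 3 < log 4 := log_lt_log (by norm_num) (by norm_num)
    have h4 : log 4 = 2 * log 2 := by
      rw [show (4 : ℝ) = 2 ^ (2 : ℕ) by norm_num, log_pow]
      norm_num
    linarith
  rcases le_total b a with h | h <;> rcases le_total d c with h' | h'
  · exact two_point_sorted hr hr1 hb h hd h'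
  · have := two_point_sorted hr hr1 hb h hc h'
    rw [add_comm (d ^ r)] at this
    refine this.trans ?_
    have h1 : b * c ≤ a * d := mul_le_mul h h' hc ha
    have h2 : b * c ≤ a * c := mul_le_mul_of_nonneg_right h hc
    have h3 : b * c ≤ b * d := mul_le_mul_of_nonneg_left h' hb
    rw [max_eq_left h1]
    rcases le_total (a * c) (b * d) with h4 | h4
    · rw [max_eq_right h4]
      linarith
    · rw [max_eq_left h4]
      linarith
  · have := two_point_sorted hr hr1 ha h hd h'
    rw [add_comm (b ^ r)] at this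
    refine this.trans ?_
    have h1 : a * d ≤ b * c := mul_le_mul h h' hd hb
    have h2 : a * d ≤ a * c := mul_le_mul_of_nonneg_left h' ha
    have h3 : a * d ≤ b * d := mul_le_mul_of_nonneg_right h hd
    rw [max_eq_right h1]
    rcases le_total (b * d) (a * c) with h4 | h4
    · rw [max_eq_right h4]
      linarith
    · rw [max_eq_left h4]
      linarith
  · have := two_point_sorted hr hr1 ha h hc h'
    rw [add_comm (b ^ r), add_comm (d ^ r)] at this
    refine this.trans ?_
    rw [max_comm (b * c)]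
    linarith

end Pool.Agent.Lib.MP_7b7e48_nt.SP
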